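import Pool.Agent.P.MP_ab3ecb_nt.Inv.C.Iface
import Pool.Agent.P.MP_ab3ecb_nt.Dense

/-! Step CHB of the twist project. -/

namespace Pool.Agent.P.MP_ab3ecb_nt.Inv

open Polynomial NumberField IsDedekindDomain TensorProduct Finset Filter Asymptotics
open scoped Classical IntermediateField

lemma chb_gen (L : Type) [Field L] [NumberField L] {M : ℕ} (hM : M ≠ 0) (P : ℕ → Prop)
    (hP : ∀ p, p.Prime → ¬ p ∣ M → Nonempty (𝓞 L →+* ZMod p) → P p) : Chb P := by
  obtain ⟨c, hc, h⟩ := cheb_lower L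
  set n := Module.finrank ℤ (𝓞 L)
  have hn0 : (0 : ℝ) < n := Nat.cast_pos.2 Module.finrank_pos
  set D : ℝ := ∑ d ∈ M.divisors, Real.log d
  refine ⟨c / 2 / n, by positivity, ?_⟩
  filter_upwards [h, (tendsto_natCast_atTop_atTop (R := ℝ)).eventually_ge_atTop
    (n * D / (c / 2))] with x h1 h2
  have h5 : ∑ p ∈ (range (x + 1)).filter Nat.Prime, ((idl L p).card : ℝ) * Real.log p ≤
      ∑ p ∈ (range (x + 1)).filter P ∪ M.divisors, n * Real.log p := by
    refine (sum_le_sum (g := fun p => if p ∈ (range (x + 1)).filter P ∪ M.divisors then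
      n * Real.log p else 0) fun p hp => ?_).trans ?_
    · obtain ⟨k1, k2⟩ := mem_filter.1 hp
      split_ifs with e
      · exact mul_le_mul_of_nonneg_right (Nat.cast_le.2 (card_idl_le k2)) (Real.log_natCast_nonneg p)
      · rw [mem_union, mem_filter, Nat.mem_divisors, not_or] at e
        rw [by_contra fun e' => e.1 ⟨k1, hP p k2 (fun d => e.2 ⟨d, hM⟩) (exists_hom_of_idl k2 e')⟩]
        simp
    · rw [← sum_filter]
      exact sum_le_sum_of_subset_of_nonneg (fun p hp => (mem_filter.1 hp).2) fun p _ _ =>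
        mul_nonneg hn0.le (Real.log_natCast_nonneg p)
  have h6 := sum_union_inter (s₁ := (range (x + 1)).filter P) (s₂ := M.divisors)
    (f := fun p : ℕ => Real.log p)
  have h7 : 0 ≤ ∑ p ∈ (range (x + 1)).filter P ∩ M.divisors, Real.log p :=
    sum_nonneg fun p _ => Real.log_natCast_nonneg p
  rw [← mul_sum] at h5
  rw [div_le_iff₀ (by positivity)] at h2
  rw [div_mul_eq_mul_div, div_le_iff₀ hn0]
  nlinarith

lemma chb_root (K L : Type) [Field K] [NumberField K] [Field L] [NumberField L] [Algebra K L]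
    {F0 : (𝓞 K)[X]} (hm : F0.Monic) {θ : L} (h : aeval θ (F0.map (algebraMap (𝓞 K) K)) = 0) :
    ∃ t : 𝓞 L, aeval t F0 = 0 := by
  rw [aeval_map_algebraMap] at h
  exact ⟨⟨θ, isIntegral_trans (R := ℤ) (A := 𝓞 K) _ ⟨F0, hm, h⟩⟩,
    FaithfulSMul.algebraMap_injective _ L (by rw [← aeval_algebraMap_apply, map_zero]; exact h)⟩

theorem p_CHB :
    S_CHB := by
  intro K _ _ F0 M hm hd hM
  obtain ⟨θ, hθ⟩ := IsAlgClosed.exists_aeval_eq_zero (AlgebraicClosure K)
    (F0.map (algebraMap (𝓞 K) K))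
    (by rw [hm.degree_map]; exact (natDegree_pos_iff_degree_pos.1 hd).ne')
  have := IntermediateField.adjoin.finiteDimensional (Algebra.IsIntegral.isIntegral (R := K) θ)
  have : NumberField K⟮θ⟯ := .of_module_finite K _
  obtain ⟨t, h2⟩ := chb_root K K⟮θ⟯ hm (θ := IntermediateField.AdjoinSimple.gen K θ)
    ((algebraMap K⟮θ⟯ (AlgebraicClosure K)).injective (by
      rw [← aeval_algebraMap_apply, map_zero]; exact hθ))
  refine chb_gen K⟮θ⟯ hM _ fun p hp d ⟨ψ⟩ =>
    ⟨⟨⟨p, hp⟩, ψ.comp (algebraMap _ _)⟩, ⟨d, ψ t, ?_⟩, rfl⟩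
  rw [← hom_eval₂, ← aeval_def, h2, map_zero]

end Pool.Agent.P.MP_ab3ecb_nt.Inv
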