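import Pool.Agent.P.MP_ab3ecb_nt.Inv.Diag

/-!
Statements: counting.
-/

namespace Pool.Agent.P.MP_ab3ecb_nt.Inv

open Polynomial NumberField IsDedekindDomain TensorProduct Finset Filter Asymptotics
open scoped Classical

-- deps:
-- imports: Pool.Agent.P.MP_ab3ecb_nt.Dens3
def S_MOM : Prop := ∀ (L J T : Type) [Fintype L] [Fintype J] [Fintype T] (typ : L → T)
  (gens : L → Finset J) (R : ℕ → Finset L) (ψ : ℕ → L → J → ℕ → L → ℝ) (M : ℕ) (E : ℕ → ℝ)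
  (ok : Finset L → Prop) (lk : L × Finset J × Bool → L × Finset J × Bool → Prop),
  (∀ a l j b l', |ψ a l j b l'| ≤ 1) →
  (∀ Λ, ¬ ok Λ → Sav M E fun p => (univ.filter fun τ => ∃ l ∈ R p, l ∈ Λ ∧ typ l = τ).card) →
  (∀ U : Finset (L × Finset J × Bool), ok (U.image Prod.fst) → (∀ u ∈ U, ∀ v ∈ U, ¬ lk u v) →
    Sav M E fun p => ∑ w ∈ U with w.1 ∈ R p ∧ w.2.1 ⊆ gens w.1,
      (1 / 2 : ℝ) ^ ((gens w.1).card + 1)) →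
  ∀ C0 n0 : ℕ, (∀ u v, lk u v → u.2.1 ⊆ gens u.1 → v.2.1 ⊆ gens v.1 →
    u ≠ v ∧ ∃ κ : ℕ → ℕ → ℝ, (∀ a, κ a a = 0) ∧ (∀ a b, |κ a b| ≤ 1) ∧
      (∀ a b, a.Prime → ¬ a ∣ M → b.Prime → ¬ b ∣ M → a ≠ b → u.1 ∈ R a → v.1 ∈ R b →
        (∏ j ∈ u.2.1, ψ a u.1 j b v.1) * ∏ j ∈ v.2.1, ψ b v.1 j a u.1 = κ a b) ∧
      ∀ X R' Z K Y, 1 ≤ Z → (Z ^ 2 * C0 ^ (R' + 1) * (C0 * K * R' + 1) ^ R') ^ n0 ≤ Y →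
        Rect (fun a : Qs M X => (a : ℕ)) (fun a b => κ a b) (fun a => u.1 ∈ R a)
          (fun a => v.1 ∈ R a) R' Z K Y) →
  ∃ c C : ℝ, 0 < c ∧ ∀ᶠ X : ℕ in atTop, ∀ sg : ℕ → L → J → ℝ, (∀ a l j, |sg a l j| ≤ 1) →
    (((TS T M X).filter (SurvK ⟨gens, R, sg, ψ⟩ typ)).card : ℝ) ≤ C * (MT E X / Real.log X ^ c)

-- deps:
-- imports: Pool.Agent.P.MP_ab3ecb_nt.Ord
def S_IX : Prop := ∀ (K : Type) [Field K] [NumberField K], ∃ (T : Type) (_ : Fintype T)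
  (ix : GP K → T), ∀ z w, z.1 = w.1 → ix z = ix w → z = w

-- deps:
def S_SEL : Prop := ∀ (K : Type) [Field K] [NumberField K],
  (∀ (d : K) (S : Finset (Pl K)), (∀ v, Od v d ↔ v ∈ S) →
    Ht d = ∏ v ∈ S, Ideal.absNorm v.asIdeal) ∧
  (∀ d : K, d ≠ 0 → {v | Od v d}.Finite) ∧
  (∀ X : ℕ, {q : Kˣ ⧸ (powMonoidHom 2 : Kˣ →* Kˣ).range |
    ∃ d : Kˣ, (d : Kˣ ⧸ (powMonoidHom 2 : Kˣ →* Kˣ).range) = q ∧ Ht (d : K) ≤ X}.Finite) ∧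
  ∃ C : ℕ, ∀ S : Set (Pl K), {q : Kˣ ⧸ (powMonoidHom 2 : Kˣ →* Kˣ).range |
    ∃ d : Kˣ, (d : Kˣ ⧸ (powMonoidHom 2 : Kˣ →* Kˣ).range) = q ∧
      {v | Od v (d : K)} = S}.encard ≤ C

-- deps:
-- imports: Pool.Agent.P.MP_ab3ecb_nt.Zeta
def S_JSUM : Prop := ∀ (K : Type) [Field K] [NumberField K] (F0 : (𝓞 K)[X]), F0.Monic →
  ∃ C : ℝ, ∀ W : Finset (Finset (Σ v : Pl K, 𝓞 K ⧸ v.asIdeal)), (∀ j ∈ W, JD F0 j) →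
    ∑ j ∈ W, (Nj j : ℝ) ^ (-(3 / 5) : ℝ) ≤ C

-- deps:
def S_TSB : Prop := ∀ (T : Type) [Fintype T], ∃ C : ℝ, ∀ M Y : ℕ,
  ((TS T M Y).card : ℝ) ≤ C * (Y : ℝ) ^ (9 / 8 : ℝ)

-- deps:
def S_SUMJ : Prop := ∀ (ι : Type) (N : ι → ℕ) (good : ι → Prop) (g : ι → ℕ → ℝ) (E : ℕ → ℝ),
  (∀ j, N j ≠ 0) →
  (∃ C : ℝ, ∀ W : Finset ι, (∀ j ∈ W, good j) → ∑ j ∈ W, (N j : ℝ) ^ (-(3 / 5) : ℝ) ≤ C) →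
  Monotone E → (∀ X, 0 ≤ E X) → (∃ C : ℝ, ∀ j Y, g j Y ≤ C * (Y : ℝ) ^ (9 / 8 : ℝ)) →
  (∃ c C : ℝ, 0 < c ∧ ∀ᶠ Y : ℕ in atTop, ∀ j, g j Y ≤ C * (MT E Y / Real.log Y ^ c)) →
  ∃ c C : ℝ, 0 < c ∧ ∀ᶠ X : ℕ in atTop, ∀ W : Finset ι, (∀ j ∈ W, good j) →
    ∑ j ∈ W, g j (X / N j) ≤ C * (MT E X / Real.log X ^ c)

-- deps: SEL JSUM TSB SUMJ
def S_UP : Prop := ∀ (K T : Type) [Field K] [NumberField K] [Fintype T] (ix : GP K → T),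
  (∀ z w, z.1 = w.1 → ix z = ix w → z = w) → ∀ (F0 : (𝓞 K)[X]) (M : ℕ) (E : ℕ → ℝ) (p : K → Prop)
  (Sv : Finset (Σ v : Pl K, 𝓞 K ⧸ v.asIdeal) → Finset (ℕ × T) → Prop), F0.Monic → M ≠ 0 →
  Monotone E → (∀ X, 0 ≤ E X) →
  (∀ d, d ≠ 0 → p d → ∀ s J, Dec M d s J → ∃ a : Pl K → 𝓞 K,
    (∀ v ∈ J, F0.eval (a v) ∈ v.asIdeal) ∧ Sv (jd J a) (gd ix s)) →
  (∃ c C : ℝ, 0 < c ∧ ∀ᶠ X : ℕ in atTop, ∀ j,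
    (((TS T M X).filter (Sv j)).card : ℝ) ≤ C * (MT E X / Real.log X ^ c)) →
  ∃ c : ℝ, 0 < c ∧ (fun X => (Cnt p X : ℝ)) =O[atTop] fun X : ℕ => MT E X / Real.log X ^ c

-- deps:
-- imports: Pool.Agent.P.MP_ab3ecb_nt.Lower
def S_LOWC : Prop := ∀ (ι T : Type) [Finite T] (pr : ι → ℕ) (good : ι → Prop) (τ : ι → T)
  (B D : ℕ), D ≠ 0 → (∀ z, good z → (pr z).Prime) →
  (∀ p, {z | good z ∧ pr z = p}.encard ≤ B) → Chb (fun p => ∃ z, good z ∧ pr z = p) →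
  ∃ c : ℝ, 0 < c ∧ ∀ᶠ X : ℕ in atTop,
    c * MT (fun X => ∑ p ∈ range (X + 1), ({z | good z ∧ pr z = p}.ncard : ℝ) / p) X ≤
      Set.ncard {s : Finset ι | (∀ z ∈ s, good z) ∧ D * ∏ z ∈ s, pr z ≤ X ∧
        ∀ t, Even (s.filter fun z => τ z = t).card}

-- deps: LOWC SEL
def S_LOW : Prop := ∀ (K T : Type) [Field K] [NumberField K] [Fintype T] (ix : GP K → T),
  (∀ z w, z.1 = w.1 → ix z = ix w → z = w) → ∃ C0 : ℕ, C0 ≠ 0 ∧ ∀ M : ℕ, M ≠ 0 → C0 ∣ M →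
  ∀ (good : GP K → Prop) (p : K → Prop) (d0 : K), (∀ z, good z → ¬ z.1.1 ∣ M) →
  Chb (fun q => ∃ z, good z ∧ z.1.1 = q) → d0 ≠ 0 → (∀ v, Od v d0 → (M : 𝓞 K) ∈ v.asIdeal) →
  (∀ α : 𝓞 K, α ≠ 0 → Bad M α → (∀ v : Pl K, (M : 𝓞 K) ∉ v.asIdeal → Od v (α : K) →
    ∃ z, good z ∧ z.pl = v) → p (d0 * α)) →
  ∃ c : ℝ, 0 < c ∧ ∀ᶠ X : ℕ in atTop, c * MT (EK ix good M) X ≤ Cnt p X

-- deps:
-- imports: Pool.Agent.P.MP_ab3ecb_nt.Dense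
def S_CHB : Prop := ∀ (K : Type) [Field K] [NumberField K] (F0 : (𝓞 K)[X]) (M : ℕ), F0.Monic →
  0 < F0.natDegree → M ≠ 0 → Chb fun p => ∃ z, Rt F0 M z ∧ z.1.1 = p

-- deps: MOM TEST RECIP LIFT
-- imports: Pool.Agent.P.MP_ab3ecb_nt.Main3
def S_COUNT : Prop := ∀ (K F Ω Γ S T : Type) [Field K] [NumberField K] [Field F] [Fintype Ω]
  [Fintype Γ] [Fintype S] [Fintype T] (A : Γ → Type) [∀ σ, CommRing (A σ)] [∀ σ, IsDomain (A σ)]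
  [∀ σ, Module.Free ℤ (A σ)] [∀ σ, Module.Finite ℤ (A σ)] (ix : GP K → T),
  (∀ z w, z.1 = w.1 → ix z = ix w → z = w) → 6 ≤ Fintype.card Ω → ∃ C0 : ℕ, C0 ≠ 0 ∧
  ∀ (ι : K →+* F) (f x : F) (Pz : ℤ[X]) (F0 F1 : (𝓞 K)[X]) (M : ℕ) (i : ∀ σ, 𝓞 K →+* A σ)
    (θ : ∀ σ, Ω → A σ) (fix : Γ → Finset Ω) (fr : GP K → Γ)
    (lb : ∀ z : GP K, A (fr z) →+* ZMod z.1.1) (G : Set (Equiv.Perm Ω))
    (γ : ∀ σ, S → F ⊗[ℤ] A σ) (n : ∀ σ, S → Ω → A σ), C0 ∣ M → f ≠ 0 → aeval x Pz ≠ 0 →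
    Pol Pz F0 F1 M → TwK F0 M A i θ fix fr lb G →
    TsK (ι.comp (algebraMap (𝓞 K) K)) f x F0 F1 M A i θ fix fr lb γ n →
    Cert0 (ι.comp (algebraMap (𝓞 K) K)) f x F0 M → (∃ d0, BMS ι f d0) →
    ∃ Sv : Finset (Σ v : Pl K, 𝓞 K ⧸ v.asIdeal) → Finset (ℕ × T) → Prop,
      (∀ d, d ≠ 0 → BMS ι f d → ∀ s J, Dec M d s J → ∃ a : Pl K → 𝓞 K,
        (∀ v ∈ J, F0.eval (a v) ∈ v.asIdeal) ∧ Sv (jd J a) (gd ix s)) ∧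
      ∃ c C : ℝ, 0 < c ∧ ∀ᶠ X : ℕ in atTop, ∀ j, (((TS T M X).filter (Sv j)).card : ℝ) ≤
        C * (MT (EK ix (Rt F0 M) M) X / Real.log X ^ c)

end Pool.Agent.P.MP_ab3ecb_nt.Inv
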