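import Pool.Agent.P.MP_ab3ecb_nt.Inv.C.CountA
import Pool.Agent.P.MP_ab3ecb_nt.Inv.C.Iface

/-! The bilinear bound for linked tests, and the moment bound for the labelled primes. -/

namespace Pool.Agent.P.MP_ab3ecb_nt.Inv

open Polynomial NumberField IsDedekindDomain TensorProduct Finset Filter Asymptotics Module
open scoped Classical

set_option maxHeartbeats 800000
set_option linter.unusedSectionVars false

variable {K Ω Γ T Y : Type} [Field K] [NumberField K] [Fintype Ω] [Fintype Γ] [Fintype T]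
  [Fintype Y] {A : Γ → Type} [∀ σ, CommRing (A σ)] [∀ σ, IsDomain (A σ)]
  [∀ σ, Module.Free ℤ (A σ)] [∀ σ, Module.Finite ℤ (A σ)]

/-- The polynomial that vanishes at the branch points where the test function is even. -/
noncomputable def HL (F1 : (𝓞 K)[X]) (i : ∀ σ, 𝓞 K →+* A σ) (θ : ∀ σ, Ω → A σ) (σ : Γ) (a c : Ω) :
    (A σ)[X] := (X - C (θ σ a)) * (X - C (θ σ c)) * F1.map (i σ)

/-- The symbol of the prime `p` with label `l` at the root `t` modulo `q`. -/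
noncomputable def psL (F1 : (𝓞 K)[X]) (i : ∀ σ, 𝓞 K →+* A σ) (θ : ∀ σ, Ω → A σ)
    (π : ∀ σ, ℕ → T → A σ) (p : ℕ) (l : Lb T Γ Y Ω) (j : Ω) (q : ℕ) (t : ZMod q) : ℤ :=
  Xe q (evT (HL F1 i θ l.1.2.1 l.2 j) t) (π l.1.2.1 p l.1.1)

/-- The choices made at the places of degree one. -/
structure CD (F1 : (𝓞 K)[X]) (M : ℕ) (θ : ∀ σ, Ω → A σ) (fr : GP K → Γ)
    (lb : ∀ z : GP K, A (fr z) →+* ZMod z.1.1) (ix : GP K → T) {nn : Γ → ℕ}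
    (b : ∀ σ, Basis (Fin (nn σ)) ℤ (A σ)) (π : ∀ σ, ℕ → T → A σ)
    (rt : ∀ p : ℕ, T → Ω → ZMod p) (f1 : ∀ p : ℕ, T → (ZMod p)[X]) (ty : GP K → Y) : Prop where
  inj : ∀ z w, z.1 = w.1 → ix z = ix w → z = w
  du : ∀ σ, Dual (A σ) M
  dvd : ∀ σ (p : ℕ) τ, (p : ℤ) ∣ Algebra.norm ℤ (π σ p τ)
  sm : ∀ z : GP K, ¬ z.1.1 ∣ M → Small (b _) M z.1.1 (π (fr z) z.1.1 (ix z)) ∧
    Lf M z.1.1 (lb z) (π (fr z) z.1.1 (ix z))
  rt : ∀ z c, rt z.1.1 (ix z) c = lb z (θ _ c)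
  f1 : ∀ z, f1 z.1.1 (ix z) = F1.map z.2
  bad : ∀ z w : GP K, ¬ z.1.1 ∣ M → ¬ w.1.1 ∣ M → fr w = fr z → ty w = ty z →
    Bad M (π (fr z) z.1.1 (ix z) * π (fr z) w.1.1 (ix w))

variable {Pz : ℤ[X]} {F0 F1 : (𝓞 K)[X]} {M : ℕ}
  {i : ∀ σ, 𝓞 K →+* A σ} {θ : ∀ σ, Ω → A σ} {fix : Γ → Finset Ω} {fr : GP K → Γ}
  {lb : ∀ z : GP K, A (fr z) →+* ZMod z.1.1} {G : Set (Equiv.Perm Ω)} {ix : GP K → T}
  {ty : GP K → Y} {Φ : GP K → Finset Ω} {nn : Γ → ℕ} {b : ∀ σ, Basis (Fin (nn σ)) ℤ (A σ)}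
  {π : ∀ σ, ℕ → T → A σ} {rt : ∀ p : ℕ, T → Ω → ZMod p} {f1 : ∀ p : ℕ, T → (ZMod p)[X]}

lemma HL_eval {B : Type} [CommRing B] {σ : Γ} (ρ : A σ →+* B) (x : B) (a c : Ω) :
    (HL F1 i θ σ a c).eval₂ ρ x =
      (x - ρ (θ σ a)) * (x - ρ (θ σ c)) * F1.eval₂ (ρ.comp (i σ)) x := by
  simp [HL, eval₂_mul, eval₂_sub, eval₂_map]

lemma count_spl (hP : Pol Pz F0 F1 M) {B : Type} [CommRing B] [Module.Free ℤ B]
    [Module.Finite ℤ B] [Nontrivial B] (ρ : 𝓞 K →+* B) {P P' : B[X]} (h1 : P'.Monic)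
    (h : P * P' = F0.map ρ) : Spl Pz M P (P' * F1.map ρ) :=
  spl_of_sep (h1.of_mul_monic_right (h ▸ hP.m0.map _)) hP.mF (by
    rw [← mul_assoc, h, ← Polynomial.map_mul, hP.mul, Polynomial.map_map,
      RingHom.ext_int (RingHom.comp _ _) (Int.castRingHom B)]) hP.ev hP.sep

lemma count_loc (h : TwK F0 M A i θ fix fr lb G) (D : CD F1 M θ fr lb ix b π rt f1 ty)
    {p : ℕ} {τ : T} {σ : Γ} {y : Y} {Φ0 : Finset Ω} {a : Ω}
    (hl : ((τ, σ, y, Φ0), a) ∈ RL M (fun z => (ix z, fr z, ty z, Φ z)) p) :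
    Small (b σ) M p (π σ p τ) ∧ ∃ l : A σ →+* ZMod p, Lf M p l (π σ p τ) ∧
      (∀ c, l (θ σ c) = rt p τ c) ∧ F1.map (l.comp (i σ)) = f1 p τ ∧
      ∀ g ∈ G, ∀ σ0, ∃ (k : Type) (_ : Field k) (μ : A σ0 →+* k) (ι : ZMod p →+* k),
        μ.comp (i σ0) = ι.comp (l.comp (i σ)) ∧
        ∀ c ∈ fix σ0, ∀ c' ∈ fix σ, (ι (rt p τ c') = μ (θ σ0 c) ↔ c' = g c) := by
  obtain ⟨z, rfl, h1, h2, -⟩ := mem_RL.1 hl
  simp only [Prod.mk.injEq] at h2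
  obtain ⟨rfl, rfl, rfl, rfl⟩ := h2
  refine ⟨(D.sm z h1).1, lb z, (D.sm z h1).2, fun c => (D.rt z c).symm, by rw [h.comp, D.f1],
    fun g hg σ0 => ?_⟩
  simpa only [h.comp, D.rt] using h.conj g hg z h1 σ0

lemma count_s3 (hP : Pol Pz F0 F1 M) (h : TwK F0 M A i θ fix fr lb G)
    (D : CD F1 M θ fr lb ix b π rt f1 ty) (hΦ : ∀ z, Φ z ⊆ fix (fr z))
    (hpair : ∀ z : GP K, ¬ z.1.1 ∣ M → ∀ a ∈ Φ z, ∀ c ∈ Φ z, a ≠ c →
      ∃ P : (A (fr z))[X], P * ((X - C (θ _ a)) * (X - C (θ _ c))) = F0.map (i _))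
    (hrec : ∀ σ σ' (G' H' : (A σ')[X]) (θ0 : A σ), Spl Pz M G' H' → G' ∣ F0.map (i σ') →
      F0.eval₂ (i σ) θ0 = 0 → ∀ q p p' : ℕ, q.Prime → p.Prime → p'.Prime → ¬ q ∣ M → ¬ p ∣ M →
      ¬ p' ∣ M → p ≠ q → p' ≠ q → p ≠ p' → ∀ (l : A σ' →+* ZMod q) (ϖ : A σ')
        (lb : A σ →+* ZMod p) (lb' : A σ →+* ZMod p') (π π' : A σ), Lf M q l ϖ → Lf M p lb π →
        Lf M p' lb' π' → Bad M (π * π') → rv H' θ0 l ϖ lb π * rv H' θ0 l ϖ lb' π' = 1) :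
    ∃ C0 n0 : ℕ, ∀ u v : Lb T Γ Y Ω × Finset Ω × Bool,
      LkL M (fun z => (ix z, fr z, ty z, Φ z)) G u v → u.2.1 ⊆ u.1.1.2.2.2.erase u.1.2 →
      v.2.1 ⊆ v.1.1.2.2.2.erase v.1.2 → u ≠ v ∧ ∃ κ : ℕ → ℕ → ℝ, (∀ a, κ a a = 0) ∧
        (∀ a c, |κ a c| ≤ 1) ∧ (∀ a c, a.Prime → ¬ a ∣ M → c.Prime → ¬ c ∣ M → a ≠ c →
          u.1 ∈ RL M (fun z => (ix z, fr z, ty z, Φ z)) a →
          v.1 ∈ RL M (fun z => (ix z, fr z, ty z, Φ z)) c →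
          (∏ j ∈ u.2.1, (psL F1 i θ π a u.1 j c (rt c v.1.1.1 v.1.2) : ℝ)) *
            ∏ j ∈ v.2.1, (psL F1 i θ π c v.1 j a (rt a u.1.1.1 u.1.2) : ℝ) = κ a c) ∧
        ∀ X R' Z K' Y', 1 ≤ Z → (Z ^ 2 * C0 ^ (R' + 1) * (C0 * K' * R' + 1) ^ R') ^ n0 ≤ Y' →
          Rect (fun a : Qs M X => (a : ℕ)) (fun a c => κ a c)
            (fun a => u.1 ∈ RL M (fun z => (ix z, fr z, ty z, Φ z)) a)
            (fun a => v.1 ∈ RL M (fun z => (ix z, fr z, ty z, Φ z)) a) R' Z K' Y' := by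
  set R := RL M fun z => (ix z, fr z, ty z, Φ z) with hR
  have hn : ∀ σ, nn σ ≠ 0 := fun σ h0 => not_subsingleton (A σ)
    ((b σ).reindex (finCongr h0)).repr.injective.subsingleton
  choose C0 hC0 using fun σ => lattice_bil (b σ) (hn σ)
  have hfix : ∀ {p τ σ y Φ0 a}, ((τ, σ, y, Φ0), a) ∈ R p → a ∈ Φ0 ∧ Φ0 ⊆ fix σ ∧
      ∀ c ∈ Φ0.erase a, ∃ P : (A σ)[X],
        P * ((X - C (θ σ a)) * (X - C (θ σ c))) = F0.map (i σ) := by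
    intro p τ σ y Φ0 a hl
    obtain ⟨z, rfl, h1, h2, h3⟩ := mem_RL.1 hl
    simp only [Prod.mk.injEq] at h2
    obtain ⟨rfl, rfl, rfl, rfl⟩ := h2
    exact ⟨h3, hΦ z, fun c hc => hpair z h1 a h3 c (mem_of_mem_erase hc) (ne_of_mem_erase hc).symm⟩
  have hbad : ∀ {p p' τ σ y Φ0 a}, ((τ, σ, y, Φ0), a) ∈ R p → ((τ, σ, y, Φ0), a) ∈ R p' →
      Bad M (π σ p τ * π σ p' τ) := by
    intro p p' τ σ y Φ0 a hl hl'
    obtain ⟨z, rfl, h1, h2, -⟩ := mem_RL.1 hl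
    obtain ⟨w, rfl, h3, h4, -⟩ := mem_RL.1 hl'
    simp only [Prod.mk.injEq] at h2 h4
    obtain ⟨rfl, rfl, rfl, rfl⟩ := h2
    have := D.bad z w h1 h3 h4.2.1 h4.2.2.1
    rwa [h4.1] at this
  refine ⟨∑ σ, (4 * C0 σ + 4 * nn σ) + 1, ∑ σ, 8 * nn σ, ?_⟩
  rintro ⟨⟨⟨τ, σ, y, Φ0⟩, a⟩, T1, i1⟩ ⟨⟨⟨τ', σ', y', Φ'⟩, a'⟩, T2, i2⟩
    ⟨⟨p0, k1⟩, ⟨q0, k2⟩, k3, g, k4, k5⟩ k6 k7
  simp only at k1 k2 k5 k6 k7
  obtain ⟨u1, u2, -⟩ := hfix k1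
  obtain ⟨v1, v2, v3⟩ := hfix k2
  set h' : ∀ q : ℕ, Ω → ZMod q ⊗[ℤ] A σ := fun q j =>
    (inc _ _ (θ σ a) - algebraMap _ _ (rt q τ' a')) *
      (inc _ _ (θ σ a) - algebraMap _ _ (rt q τ' j)) *
      (f1 q τ').eval₂ (algebraMap _ _) (inc _ _ (θ σ a)) with hh
  set v : ℕ → ℕ → ℤ := fun q p => (∏ j ∈ T2, psL F1 i θ π q ((τ', σ', y', Φ'), a') j p
    (rt p τ a)) * ∏ j ∈ T2, Xe q (h' q j) (π σ p τ) with hv
  set ρ : ℕ → ℤ := fun q => if ∃ p, (p.Prime ∧ ¬ p ∣ M ∧ ((τ, σ, y, Φ0), a) ∈ R p ∧ p ≠ q) ∧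
    v q p = -1 then -1 else 1 with hρ
  set χ : ∀ q : ℕ, A σ → ℝ := fun q z => ((chi q (Algebra.norm ℤ z : ℤ) ^ 2 *
    ((∏ j ∈ T1, Xe q (evT (HL F1 i θ σ a j) (rt q τ' a')) z) *
      ∏ j ∈ T2, Xe q (h' q j) z) : ℤ) : ℝ) with hχ
  have hρ1 : ∀ q, (ρ q : ℝ) = 1 ∨ (ρ q : ℝ) = -1 := fun q => by
    simp only [hρ]
    split_ifs <;> simp
  refine ⟨k3, fun p q => if p = q then 0 else ρ q * χ q (π σ p τ), fun p => if_pos rfl,
    fun p q => ?_, fun p q p1 p3 q1 q3 hne hp hq => ?_, fun X R' Z K' Y' hZ hY => ?_⟩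
  · beta_reduce
    split_ifs
    · simp
    · refine St.abs_mul_le (by rcases hρ1 q with k | k <;> simp [k]) ?_
      simp only [hχ, Int.cast_mul, Int.cast_prod, sq]
      exact St.abs_mul_le (St.abs_mul_le (abs_jac_le _ _) (abs_jac_le _ _)) (St.abs_mul_le
        (St.abs_prod_le _ fun j _ => abs_jac_le _ _) (St.abs_prod_le _ fun j _ => abs_jac_le _ _))
  · obtain ⟨-, l, m1, m2, m0, -⟩ := count_loc h D hq
    have key : ∀ p, p.Prime ∧ ¬ p ∣ M ∧ ((τ, σ, y, Φ0), a) ∈ R p ∧ p ≠ q →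
        ∃ lb : A σ →+* ZMod p, Lf M p lb (π σ p τ) ∧ v q p =
          ∏ j ∈ T2, rv (HL F1 i θ σ' a' j) (θ σ a) l (π σ' q τ') lb (π σ p τ) := by
      rintro p ⟨p1, p3, hp, -⟩
      obtain ⟨-, lb, m3, m4, -⟩ := count_loc h D hp
      refine ⟨lb, m3, Finset.prod_mul_distrib.symm.trans (Finset.prod_congr rfl fun j hj => ?_)⟩
      simp only [rv, psL, hh, HL_eval (RingHom.comp _ _), RingHom.comp_apply, m4, m2, ← m0,
        eval₂_map, RingHom.comp_assoc]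
    have m3 : v q p = ρ q := count_sign (v := v q) (fun p hp => by
      obtain ⟨lb, m3, m4⟩ := key p hp
      rw [m4, ← Finset.prod_mul_distrib]
      refine Finset.prod_eq_one fun j _ => ?_
      rw [rv, mul_mul_mul_comm, Xe_sq hp.1 _ (m1.not_dvd q1 hp.1 hp.2.1 hp.2.2.2),
        Xe_sq q1 _ (m3.not_dvd hp.1 q1 q3 hp.2.2.2.symm), one_mul]) (fun p p' hp hp' hne => by
      obtain ⟨lb, m3, m4⟩ := key p hp
      obtain ⟨lb', m5, m6⟩ := key p' hp'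
      rw [m4, m6, ← Finset.prod_mul_distrib]
      refine Finset.prod_eq_one fun j hj => ?_
      obtain ⟨P, m7⟩ := v3 j (k7 hj)
      exact hrec σ σ' P _ _ (count_spl hP _ ((monic_X_sub_C _).mul (monic_X_sub_C _)) m7)
        ⟨_, m7.symm⟩ (h.root σ a (u2 u1)) q p p' q1 hp.1 hp'.1 q3 hp.2.1 hp'.2.1 hp.2.2.2
        hp'.2.2.2 hne _ _ _ _ _ _ m1 m3 m5 (hbad hp.2.2.1 hp'.2.2.1)) ⟨p1, p3, hp, hne⟩
    obtain ⟨lb, m4, -⟩ := key p ⟨p1, p3, hp, hne⟩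
    have m5 := m4.not_dvd p1 q1 q3 hne.symm
    have m6 : (∏ j ∈ T2, Xe q (h' q j) (π σ p τ)) * ∏ j ∈ T2, Xe q (h' q j) (π σ p τ) = 1 := by
      rw [← Finset.prod_mul_distrib]
      exact Finset.prod_eq_one fun j _ => Xe_sq q1 _ m5
    have : Fact q.Prime := ⟨q1⟩
    beta_reduce
    rw [if_neg hne, ← m3]
    simp only [hχ, hv, psL, chi_eq,
      quadraticChar_sq_one (mt (ZMod.intCast_zmod_eq_zero_iff_dvd _ q).mp m5), one_mul]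
    rw [← Int.cast_prod, ← Int.cast_prod, ← Int.cast_mul, ← Int.cast_mul, mul_mul_mul_comm, m6,
      mul_one, mul_comm]
  · have hQ : ∀ a : Qs M X, (a : ℕ).Prime ∧ ¬ (a : ℕ) ∣ M := fun a => (mem_filter.mp a.2).2
    have m1 := (hC0 σ _ _ (fun a => (hQ a).1) Subtype.val_injective (fun p => π σ p τ)
      (fun q => χ q) (fun p => ((τ, σ, y, Φ0), a) ∈ R p) (fun q => ((τ', σ', y', Φ'), a') ∈ R q)
      (fun p hp => ?_) (fun q hq => ?_) R' (2 * Z) K' Y' (by omega) (le_trans ?_ hY)).sign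
      fun q => hρ1 q
    · refine (congrArg (fun κ => Rect _ κ _ _ R' Z K' Y')
        (_root_.funext fun p => _root_.funext fun q => ?_)).mpr m1
      beta_reduce
      split_ifs with m2
      · have : Fact (q : ℕ).Prime := ⟨(hQ q).1⟩
        simp only [hχ, m2, chi_eq, (ZMod.intCast_zmod_eq_zero_iff_dvd _ _).mpr (D.dvd σ q τ)]
        simp
      · rfl
    · obtain ⟨m1, lb, m2, -⟩ := count_loc h D hp
      refine ⟨m1.1, fun q => ⟨fun m3 => ?_, fun m3 => m3 ▸ D.dvd _ _ _⟩⟩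
      by_contra m4
      exact m2.not_dvd (hQ p).1 (hQ q).1 (hQ q).2 (fun m5 => m4 (Subtype.ext m5)) m3
    · obtain ⟨-, l, -, m2, m0, m1⟩ := count_loc h D hq
      obtain ⟨k, _, μ, ι, m7, m1⟩ := m1 g k4 σ
      let μ' : ZMod q ⊗[ℤ] A σ →+* k := (Algebra.TensorProduct.lift ι.toIntAlgHom μ.toIntAlgHom
        fun _ _ => Commute.all _ _).toRingHom
      have m3 : ∀ z, μ' (inc _ _ z) = μ z := fun z => by simp [μ', inc]
      have m4 : ∀ z, μ' (algebraMap _ _ z) = ι z := fun z => by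
        simp [μ', Algebra.TensorProduct.algebraMap_apply]
      have : Fact (q : ℕ).Prime := ⟨(hQ q).1⟩
      have m8 : (M : k) ≠ 0 := by
        rw [← map_natCast ι, _root_.map_ne_zero, Ne, ZMod.natCast_eq_zero_iff]
        exact (hQ q).2
      have m9 : F1.eval₂ (μ.comp (i σ)) (ι (rt q τ' a')) ≠ 0 := count_F1 hP _ m8 (by
        rw [m7, ← m2, ← RingHom.comp_assoc, ← RingHom.comp_apply ι l, ← hom_eval₂,
          h.root σ' a' (v2 v1), map_zero])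
      have m10 : F1.eval₂ (μ.comp (i σ)) (μ (θ σ a)) ≠ 0 := count_F1 hP _ m8 (by
        rw [← hom_eval₂, h.root σ a (u2 u1), map_zero])
      refine ch_Xe (b σ) (D.du σ) (hQ q).1 (fun m5 => (hQ q).2 (m5 ▸ hP.two))
        (mt Int.natCast_dvd_natCast.mp (hQ q).2) T1 T2 _ _ μ' ?_
      rwa [Finset.filter_congr (q := fun j => a' ≠ g a ∧ a' ≠ g j) fun j hj => by
          rw [evT, hom_eval₂, HL_eval, RingHom.ext m3 (f := μ'.comp (inc _ _)), m4,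
            mul_ne_zero_iff, and_iff_left m9, mul_ne_zero_iff, sub_ne_zero,
            sub_ne_zero, Ne, Ne, m1 a (u2 u1) a' (v2 v1),
            m1 j (u2 (mem_of_mem_erase (k6 hj))) a' (v2 v1)],
        Finset.filter_congr (s := T2) (q := fun j => a' ≠ g a ∧ j ≠ g a) fun j hj => by
          simp only [hh]
          rw [map_mul, map_mul, map_sub, map_sub, hom_eval₂, m3, m4, m4, ← m0, eval₂_map,
            RingHom.ext m4 (f := μ'.comp (algebraMap _ _)), ← m7, mul_ne_zero_iff,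
            and_iff_left m10, mul_ne_zero_iff, sub_ne_zero,
            sub_ne_zero, ne_comm, Ne, ne_comm, Ne, m1 a (u2 u1) a' (v2 v1),
            m1 a (u2 u1) j (v2 (mem_of_mem_erase (k7 hj)))]]
    · have m1 := Finset.single_le_sum (f := fun σ => 4 * C0 σ + 4 * nn σ)
        (fun _ _ => Nat.zero_le _) (mem_univ σ)
      refine le_trans (Nat.pow_le_pow_left ?_ _) (Nat.pow_le_pow_right (by positivity)
        (Finset.single_le_sum (f := fun σ => 8 * nn σ) (fun _ _ => Nat.zero_le _) (mem_univ σ)))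
      calc _ = Z ^ 2 * (4 ^ 1 * C0 σ ^ (R' + 1)) * (4 * nn σ * K' * R' + 1) ^ R' := by ring
        _ ≤ Z ^ 2 * (4 ^ (R' + 1) * C0 σ ^ (R' + 1)) * (4 * nn σ * K' * R' + 1) ^ R' := by
          gcongr <;> omega
        _ ≤ _ := by
          rw [← mul_pow]
          gcongr <;> omega

end Pool.Agent.P.MP_ab3ecb_nt.Inv
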