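import Pool.Agent.P.MP_ab3ecb_nt.Inv.C.Iface
import Pool.Agent.P.MP_ab3ecb_nt.Inv.A.Iface
import Pool.Agent.P.MP_ab3ecb_nt.Inv.C.CountB

/-! Step COUNT of the twist project. -/

namespace Pool.Agent.P.MP_ab3ecb_nt.Inv

open Polynomial NumberField IsDedekindDomain TensorProduct Finset Filter Asymptotics Module
open scoped Classical

set_option maxHeartbeats 800000
set_option linter.unusedSectionVars false

lemma count_X0 {O B k : Type} [CommRing O] [CommRing B] [Module.Free ℤ B] [Module.Finite ℤ B]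
    [CommRing k] [Nontrivial k] {Pz : ℤ[X]} {F0 F1 : O[X]} {M : ℕ} (hP : Pol Pz F0 F1 M)
    (ρ : O →+* B) (φ : O →+* k) {t : k} (ht : F0.eval₂ φ t = 0) (z : B) :
    Xk (evT (F0.map ρ * F1.map ρ) t) z = 1 := by
  have h1 : evT (F0.map ρ * F1.map ρ) t = 0 := by
    have h2 := congrArg (fun P => algebraMap k (k ⊗[ℤ] B) (eval₂ φ t P)) hP.mul
    simp only [eval₂_mul, ht, zero_mul, map_zero, hom_eval₂, eval₂_map] at h2
    rw [evT, ← Polynomial.map_mul, hP.mul, eval₂_map, eval₂_map, h2]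
    exact congrArg (fun ψ => eval₂ ψ _ Pz) (RingHom.ext_int _ _)
  have h3 : ide (0 : k ⊗[ℤ] B) = 0 := IsE.ide_eq ⟨by simp, by simp, by simp⟩
  simp [h1, Xk, h3, chk]

lemma count_congr {M : ℕ} {E ω ω' : ℕ → ℝ} (h : Sav M E ω) (h' : ∀ p, ω' p = ω p) :
    Sav M E ω' := (funext h').symm ▸ h

variable {K Ω Γ T Y : Type} [Field K] [NumberField K] [Fintype Ω] [Fintype Γ] [Fintype T]
  [Fintype Y] {A : Γ → Type} [∀ σ, CommRing (A σ)] [∀ σ, IsDomain (A σ)]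
  [∀ σ, Module.Free ℤ (A σ)] [∀ σ, Module.Finite ℤ (A σ)]
  {Pz : ℤ[X]} {F0 F1 : (𝓞 K)[X]} {M : ℕ}
  {i : ∀ σ, 𝓞 K →+* A σ} {θ : ∀ σ, Ω → A σ} {fix : Γ → Finset Ω} {fr : GP K → Γ}
  {lb : ∀ z : GP K, A (fr z) →+* ZMod z.1.1} {G : Set (Equiv.Perm Ω)} {ix : GP K → T}
  {ty : GP K → Y} {nn : Γ → ℕ} {b : ∀ σ, Basis (Fin (nn σ)) ℤ (A σ)}
  {π : ∀ σ, ℕ → T → A σ} {rt : ∀ p : ℕ, T → Ω → ZMod p} {f1 : ∀ p : ℕ, T → (ZMod p)[X]}
  {F S : Type} [Field F] [Fintype S] {ρ0 : 𝓞 K →+* F} {f x : F}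
  {γ : ∀ σ, S → F ⊗[ℤ] A σ} {n : ∀ σ, S → Ω → A σ}

/-- The branch points with prescribed signs of the unramified tests. -/
noncomputable def PhL (fix : Γ → Finset Ω) (fr : GP K → Γ)
    (lb : ∀ z : GP K, A (fr z) →+* ZMod z.1.1) (n : ∀ σ, S → Ω → A σ) (ty : GP K → Y)
    (ε : Γ × Y → S → Bool) (z : GP K) : Finset Ω :=
  (fix (fr z)).filter fun c => ∀ s, chi z.1.1 (lb z (n _ s c)) =
    if ε (fr z, ty z) s then -1 else 1

/-- The local sign of a test. -/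
noncomputable def sgL (F1 : (𝓞 K)[X]) (i : ∀ σ, 𝓞 K →+* A σ) (θ : ∀ σ, Ω → A σ)
    (π : ∀ σ, ℕ → T → A σ) (rt : ∀ p : ℕ, T → Ω → ZMod p) (mm : ∀ p : ℕ, T → Ω → Ω → ZMod p)
    (ε : Lb T Γ Y Ω → Ω → Bool) (J : Finset (Σ v : Pl K, 𝓞 K ⧸ v.asIdeal)) (p : ℕ)
    (l : Lb T Γ Y Ω) (j : Ω) : ℝ :=
  (psL F1 i θ π p l j p (rt p l.1.1 l.2) : ℝ) * chi p (mm p l.1.1 l.2 j) *
    (∏ w ∈ J, (Xk (evT (HL F1 i θ l.1.2.1 l.2 j) w.2) (π l.1.2.1 p l.1.1) : ℝ)) *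
    if ε l j then -1 else 1

lemma count_pair (h : TsK ρ0 f x F0 F1 M A i θ fix fr lb γ n) {ε : Γ × Y → S → Bool} {z : GP K}
    (hz : ¬ z.1.1 ∣ M) {a c : Ω} (ha : a ∈ PhL fix fr lb n ty ε z)
    (hc : c ∈ PhL fix fr lb n ty ε z) (hne : a ≠ c) :
    ∃ (P : (A (fr z))[X]) (g : F ⊗[ℤ] A (fr z)) (m : A (fr z)),
      P * ((X - C (θ _ a)) * (X - C (θ _ c))) = F0.map (i _) ∧
      Cert ρ0 f x F0 F1 M (i _) P g {(θ _ a, m)} :=
  h.pair z hz a (mem_filter.1 ha).1 c (mem_filter.1 hc).1 hne fun s => by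
    rw [(mem_filter.1 ha).2, (mem_filter.1 hc).2]
    split_ifs <;> rfl

lemma count_surv (hP : Pol Pz F0 F1 M) (h : TwK F0 M A i θ fix fr lb G)
    (h' : TsK ρ0 f x F0 F1 M A i θ fix fr lb γ n) (D : CD F1 M θ fr lb ix b π rt f1 ty)
    [Nonempty Ω] (l0 : Lb T Γ Y Ω) {P : ∀ σ, Ω → Ω → (A σ)[X]} {g : ∀ σ, Ω → Ω → F ⊗[ℤ] A σ}
    {m : ∀ σ, Ω → Ω → A σ} (hm : ∀ σ a c, (∃ (P : (A σ)[X]) (g : F ⊗[ℤ] A σ) (m : A σ),
      P * ((X - C (θ _ a)) * (X - C (θ _ c))) = F0.map (i _) ∧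
      Cert ρ0 f x F0 F1 M (i _) P g {(θ _ a, m)}) →
      P σ a c * ((X - C (θ _ a)) * (X - C (θ _ c))) = F0.map (i _) ∧
      Cert ρ0 f x F0 F1 M (i _) (P σ a c) (g σ a c) {(θ _ a, m σ a c)})
    {mm : ∀ p : ℕ, T → Ω → Ω → ZMod p}
    (hmm : ∀ z : GP K, mm z.1.1 (ix z) = fun a c => lb z (m _ a c))
    {d : K} {s : Finset (GP K)} {J : Finset (Pl K)} (hd : Dec M d s J) {a : Pl K → 𝓞 K}
    (k1 : ∀ v : Pl K, (M : 𝓞 K) ∉ v.asIdeal → Od v d → F0.eval (a v) ∈ v.asIdeal)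
    (k2 : ∀ σ (G G' : (A σ)[X]) (γ : F ⊗[ℤ] A σ) (V : Set (A σ × A σ)),
      Spl Pz M G (G' * F1.map (i σ)) → G * G' = F0.map (i σ) →
      Cert ρ0 f x F0 F1 M (i σ) G γ V →
      ∀ z ∈ s, ∀ (lb : A σ →+* ZMod z.1.1) (π θ n : A σ), Lf M z.1.1 lb π →
        lb.comp (i σ) = z.2 → (G' * F1.map (i σ)).eval₂ lb (z.2 (a z.pl)) = 0 → (θ, n) ∈ V →
        lb θ = z.2 (a z.pl) →
        tvK (G' * F1.map (i σ)) s J a z lb π n * tvK (G' * F1.map (i σ)) s J a z lb π n = 1 ∧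
        ∀ z' ∈ s, ∀ (lb' : A σ →+* ZMod z'.1.1) (π' θ' n' : A σ), Lf M z'.1.1 lb' π' →
          lb'.comp (i σ) = z'.2 → (G' * F1.map (i σ)).eval₂ lb' (z'.2 (a z'.pl)) = 0 →
          (θ', n') ∈ V → lb' θ' = z'.2 (a z'.pl) → z ≠ z' → Bad M (π * π') →
          tvK (G' * F1.map (i σ)) s J a z lb π n *
            tvK (G' * F1.map (i σ)) s J a z' lb' π' n' = 1) :
    ∃ ε ε', SurvK ⟨fun l => l.1.2.2.2.erase l.2,
      RL M fun z => (ix z, fr z, ty z, PhL fix fr lb n ty ε z),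
      sgL F1 i θ π rt mm ε' (jd J a),
      fun p l j q l' => psL F1 i θ π p l j q (rt q l'.1.1 l'.2)⟩ (fun l => l.1.1) (gd ix s) := by
  have r1 : ∀ z ∈ s, F0.eval₂ z.2 (z.2 (a z.pl)) = 0 := fun z hz => by
    have h1 : (M : 𝓞 K) ∉ z.pl.asIdeal := by
      rw [GP.mem_pl, map_natCast, ZMod.natCast_eq_zero_iff]
      exact hd.good z hz
    rw [eval₂_at_apply]
    exact k1 _ h1 ((hd.od _ h1).2 (Or.inr ⟨z, hz, rfl⟩))
  have r2 : ∀ v ∈ J, F0.eval₂ (Ideal.Quotient.mk v.asIdeal) (Ideal.Quotient.mk _ (a v)) = 0 :=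
    fun v hv => by
      rw [eval₂_at_apply, Ideal.Quotient.eq_zero_iff_mem]
      exact k1 _ (hd.junk v hv).1 ((hd.od _ (hd.junk v hv).1).2 (Or.inl hv))
  have hlab : ∀ z : GP K, ∃ c : Ω, z ∈ s → c ∈ fix (fr z) ∧ lb z (θ _ c) = z.2 (a z.pl) :=
    fun z => by
      by_cases hz : z ∈ s
      · obtain ⟨c, k3⟩ := h.all z (hd.good z hz) _ (r1 z hz)
        exact ⟨c, fun _ => k3⟩
      · exact ⟨Classical.arbitrary Ω, fun k => absurd k hz⟩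
  choose lab hlab using hlab
  have hL : ∀ z ∈ s, ∀ σ, fr z = σ → ∃ l : A σ →+* ZMod z.1.1,
      Lf M z.1.1 l (π σ z.1.1 (ix z)) ∧ l.comp (i σ) = z.2 ∧ l (θ σ (lab z)) = z.2 (a z.pl) ∧
      lab z ∈ fix σ ∧ (∀ t c, l (n σ t c) = lb z (n _ t c)) ∧
      ∀ c c', l (m σ c c') = mm z.1.1 (ix z) c c' := by
    rintro z hz _ rfl
    exact ⟨lb z, (D.sm z (hd.good z hz)).2, h.comp z, (hlab z hz).2, (hlab z hz).1,
      fun _ _ => rfl, fun _ _ => by rw [hmm]⟩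
  have hB : ∀ z ∈ s, ∀ w ∈ s, ∀ σ, fr z = σ → fr w = σ → ty w = ty z →
      Bad M (π σ z.1.1 (ix z) * π σ w.1.1 (ix w)) := by
    rintro z hz w hw _ rfl h1 h2
    exact D.bad z w (hd.good z hz) (hd.good w hw) h1 h2
  set vT : S → GP K → ℤ := fun t z => chi z.1.1 (lb z (n _ t (lab z))) with hvT
  set ε : Γ × Y → S → Bool := fun κ t =>
    decide (∃ z, (z ∈ s ∧ (fr z, ty z) = κ) ∧ vT t z = -1) with hε
  have hΦ : ∀ z ∈ s, lab z ∈ PhL fix fr lb n ty ε z := fun z0 hz0 => by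
    refine mem_filter.2 ⟨(hlab z0 hz0).1, fun t => ?_⟩
    have k3 := k2 (fr z0) 1 _ _ _ (count_spl hP _ (hP.m0.map _) (one_mul _)) (one_mul _)
      (h'.unr _ t)
    have key : ∀ z, z ∈ s ∧ (fr z, ty z) = (fr z0, ty z0) → ∃ l : A (fr z0) →+* ZMod z.1.1,
        Lf M z.1.1 l (π _ z.1.1 (ix z)) ∧ l.comp (i _) = z.2 ∧
        (F0.map (i _) * F1.map (i _)).eval₂ l (z.2 (a z.pl)) = 0 ∧ lab z ∈ fix (fr z0) ∧
        l (θ _ (lab z)) = z.2 (a z.pl) ∧ vT t z = tvK (F0.map (i _) * F1.map (i _)) s J a z l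
          (π _ z.1.1 (ix z)) (n _ t (lab z)) := fun z hz => by
      obtain ⟨l, m1, m2, m3, m4, m5, -⟩ := hL z hz.1 _ (congrArg Prod.fst hz.2)
      have m6 : ∀ w ∈ s, Xe w.1.1 (evT (F0.map (i (fr z0)) * F1.map (i _)) (w.2 (a w.pl)))
          (π _ z.1.1 (ix z)) = 1 := fun w hw => by
        have : Fact w.1.1.Prime := ⟨w.1.2⟩
        rw [Xe_eq_Xk w.1.2, count_X0 hP _ w.2 (r1 w hw)]
      refine ⟨l, m1, m2, by rw [eval₂_mul, eval₂_map, m2, r1 z hz.1, zero_mul], m4, m3, ?_⟩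
      rw [tvK, m6 z hz.1, Finset.prod_eq_one fun w hw => m6 w (mem_of_mem_erase hw),
        Finset.prod_eq_one fun v hv => ?_, m5, one_mul, mul_one, mul_one]
      have := Ideal.Quotient.nontrivial_iff.2 v.isPrime.ne_top
      exact count_X0 hP _ _ (r2 v hv) _
    simp only [hε, decide_eq_true_eq]
    exact count_sign (S := fun z => z ∈ s ∧ (fr z, ty z) = (fr z0, ty z0)) (v := vT t)
      (fun z hz => by
        obtain ⟨l, m1, m2, m3, m4, m5, m6⟩ := key z hz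
        exact m6 ▸ (k3 z hz.1 l _ _ _ m1 m2 m3 ⟨_, m4, rfl⟩ m5).1) (fun z w hz hw hne => by
        obtain ⟨l, m1, m2, m3, m4, m5, m6⟩ := key z hz
        obtain ⟨l', n1, n2, n3, n4, n5, n6⟩ := key w hw
        exact m6 ▸ n6 ▸ (k3 z hz.1 l _ _ _ m1 m2 m3 ⟨_, m4, rfl⟩ m5).2 w hw.1 l' _ _ _ n1 n2 n3
          ⟨_, n4, rfl⟩ n5 hne (hB z hz.1 w hw.1 _ (congrArg Prod.fst hz.2)
            (congrArg Prod.fst hw.2)
            ((congrArg Prod.snd hw.2).trans (congrArg Prod.snd hz.2).symm))) ⟨hz0, rfl⟩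
  set Lz : GP K → Lb T Γ Y Ω := fun z =>
    ((ix z, fr z, ty z, PhL fix fr lb n ty ε z), lab z) with hLz
  set vP : Lb T Γ Y Ω → Ω → GP K → ℤ := fun l j z =>
    psL F1 i θ π z.1.1 l j z.1.1 (z.2 (a z.pl)) * chi z.1.1 (mm z.1.1 l.1.1 l.2 j) *
      (∏ w ∈ s.erase z, psL F1 i θ π z.1.1 l j w.1.1 (w.2 (a w.pl))) *
      ∏ v ∈ J, Xk (evT (HL F1 i θ l.1.2.1 l.2 j) (Ideal.Quotient.mk v.asIdeal (a v)))
        (π l.1.2.1 z.1.1 l.1.1) with hvP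
  have hN : ∀ p : ℕ, ∃ l : Lb T Γ Y Ω, ∀ z ∈ s, z.1.1 = p → l = Lz z := fun p => by
    by_cases h1 : ∃ z ∈ s, z.1.1 = p
    · obtain ⟨z, h1, rfl⟩ := h1
      exact ⟨Lz z, fun w h2 h3 => by rw [hd.inj w h2 z h1 (Subtype.ext h3)]⟩
    · exact ⟨l0, fun z h2 h3 => absurd ⟨z, h2, h3⟩ h1⟩
  choose LN hN using hN
  have hrt : ∀ z ∈ s, rt z.1.1 (ix z) (lab z) = z.2 (a z.pl) := fun z hz =>
    (D.rt z _).trans (hlab z hz).2
  refine ⟨ε, fun l j => decide (∃ z, (z ∈ s ∧ Lz z = l) ∧ vP l j z = -1), LN, fun y hy => ?_⟩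
  obtain ⟨z0, hz0, rfl⟩ := mem_image.1 hy
  simp only [hN _ z0 hz0 rfl]
  refine ⟨mem_RL.2 ⟨z0, rfl, hd.good z0 hz0, rfl, hΦ z0 hz0⟩, rfl, fun j hj => ?_⟩
  obtain ⟨t1, t2⟩ := hm _ _ _ (count_pair h' (hd.good z0 hz0) (hΦ z0 hz0) (mem_of_mem_erase hj)
    (ne_of_mem_erase hj).symm)
  have k3 := k2 (fr z0) _ _ _ _
    (count_spl hP _ ((monic_X_sub_C _).mul (monic_X_sub_C _)) t1) t1 t2
  have key : ∀ z, z ∈ s ∧ Lz z = Lz z0 → ∃ l : A (fr z0) →+* ZMod z.1.1,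
      Lf M z.1.1 l (π _ z.1.1 (ix z)) ∧ l.comp (i _) = z.2 ∧
      (HL F1 i θ _ (lab z0) j).eval₂ l (z.2 (a z.pl)) = 0 ∧
      l (θ _ (lab z0)) = z.2 (a z.pl) ∧ fr z = fr z0 ∧ ty z = ty z0 ∧ vP (Lz z0) j z =
        tvK (HL F1 i θ _ (lab z0) j) s J a z l (π _ z.1.1 (ix z)) (m _ (lab z0) j) := by
    rintro z ⟨hz, e⟩
    simp only [hLz, Prod.mk.injEq] at e
    obtain ⟨⟨e1, e2, e3, -⟩, e4⟩ := e
    obtain ⟨l, m1, m2, m3, -, -, m5⟩ := hL z hz _ e2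
    rw [e4] at m3
    refine ⟨l, m1, m2, by rw [HL_eval, m3, sub_self, zero_mul, zero_mul], m3, e2, e3, ?_⟩
    simp only [hvP, hLz, psL, tvK, m5, e1]
  have k4 := count_sign (S := fun z => z ∈ s ∧ Lz z = Lz z0) (v := vP (Lz z0) j)
    (fun z hz => by
      obtain ⟨l, m1, m2, m3, m4, -, -, m6⟩ := key z hz
      exact m6 ▸ (k3 z hz.1 l _ _ _ m1 m2 m3 rfl m4).1) (fun z w hz hw hne => by
      obtain ⟨l, m1, m2, m3, m4, m5, m7, m6⟩ := key z hz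
      obtain ⟨l', n1, n2, n3, n4, n5, n7, n6⟩ := key w hw
      exact m6 ▸ n6 ▸ (k3 z hz.1 l _ _ _ m1 m2 m3 rfl m4).2 w hw.1 l' _ _ _ n1 n2 n3
        rfl n4 hne (hB z hz.1 w hw.1 _ m5 n5 (n7.trans m7.symm))) ⟨hz0, rfl⟩
  have k5 : ∏ q ∈ ((gd ix s).image Prod.fst).erase z0.1.1,
      (psL F1 i θ π z0.1.1 (Lz z0) j q (rt q (LN q).1.1 (LN q).2) : ℝ) =
      ∏ w ∈ s.erase z0, (psL F1 i θ π z0.1.1 (Lz z0) j w.1.1 (w.2 (a w.pl)) : ℝ) := by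
    refine (Finset.prod_bij (fun w _ => w.1.1) (fun w hw => ?_) (fun w hw w' hw' e => ?_)
      (fun q hq => ?_) fun w hw => ?_).symm
    · refine mem_erase.2 ⟨fun e => ne_of_mem_erase hw
        (hd.inj w (mem_of_mem_erase hw) z0 hz0 (Subtype.ext e)), ?_⟩
      exact mem_image.2 ⟨_, mem_image.2 ⟨w, mem_of_mem_erase hw, rfl⟩, rfl⟩
    · exact hd.inj w (mem_of_mem_erase hw) w' (mem_of_mem_erase hw') (Subtype.ext e)
    · obtain ⟨_, m1, rfl⟩ := mem_image.1 (mem_of_mem_erase hq)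
      obtain ⟨w, m2, rfl⟩ := mem_image.1 m1
      exact ⟨w, mem_erase.2 ⟨fun e => ne_of_mem_erase hq (by rw [e]), m2⟩, rfl⟩
    · rw [hN _ w (mem_of_mem_erase hw) rfl, hrt w (mem_of_mem_erase hw)]
  rw [k5, sgL, jd, Finset.prod_image fun v _ v' _ e => congrArg Sigma.fst e, hrt z0 hz0,
    mul_right_comm, mul_right_comm _ (∏ v ∈ J, _), ← Int.cast_prod, ← Int.cast_prod,
    ← Int.cast_mul, ← Int.cast_mul, ← Int.cast_mul]
  change ((vP (Lz z0) j z0 : ℤ) : ℝ) * _ = 1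
  rw [k4]
  simp only [decide_eq_true_eq]
  split_ifs <;> simp

/-- The sets that survive for a given choice of signs. -/
def SvL (F1 : (𝓞 K)[X]) (M : ℕ) (i : ∀ σ, 𝓞 K →+* A σ) (θ : ∀ σ, Ω → A σ) (fix : Γ → Finset Ω)
    (fr : GP K → Γ) (lb : ∀ z : GP K, A (fr z) →+* ZMod z.1.1) (n : ∀ σ, S → Ω → A σ)
    (ix : GP K → T) (ty : GP K → Y) (π : ∀ σ, ℕ → T → A σ) (rt : ∀ p : ℕ, T → Ω → ZMod p)
    (mm : ∀ p : ℕ, T → Ω → Ω → ZMod p) (ε : (Γ × Y → S → Bool) × (Lb T Γ Y Ω → Ω → Bool))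
    (J : Finset (Σ v : Pl K, 𝓞 K ⧸ v.asIdeal)) : Finset (ℕ × T) → Prop :=
  SurvK ⟨fun l => l.1.2.2.2.erase l.2, RL M fun z => (ix z, fr z, ty z, PhL fix fr lb n ty ε.1 z),
    sgL F1 i θ π rt mm ε.2 J, fun p l j q l' => psL F1 i θ π p l j q (rt q l'.1.1 l'.2)⟩
    fun l => l.1.1

lemma count_fin (hMOM : S_MOM) (h6 : 6 ≤ Fintype.card Ω) (hP : Pol Pz F0 F1 M)
    (h : TwK F0 M A i θ fix fr lb G) (h' : TsK ρ0 f x F0 F1 M A i θ fix fr lb γ n)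
    (D : CD F1 M θ fr lb ix b π rt f1 ty) (mm : ∀ p : ℕ, T → Ω → Ω → ZMod p)
    (hrec : ∀ σ σ' (G' H' : (A σ')[X]) (θ0 : A σ), Spl Pz M G' H' → G' ∣ F0.map (i σ') →
      F0.eval₂ (i σ) θ0 = 0 → ∀ q p p' : ℕ, q.Prime → p.Prime → p'.Prime → ¬ q ∣ M → ¬ p ∣ M →
      ¬ p' ∣ M → p ≠ q → p' ≠ q → p ≠ p' → ∀ (l : A σ' →+* ZMod q) (ϖ : A σ')
        (lb : A σ →+* ZMod p) (lb' : A σ →+* ZMod p') (π π' : A σ), Lf M q l ϖ → Lf M p lb π →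
        Lf M p' lb' π' → Bad M (π * π') → rv H' θ0 l ϖ lb π * rv H' θ0 l ϖ lb' π' = 1) :
    ∃ c C : ℝ, 0 < c ∧ ∀ᶠ X : ℕ in atTop, ∀ J, (((TS T M X).filter
      ((fun J s => ∃ ε, SvL F1 M i θ fix fr lb n ix ty π rt mm ε J s) J)).card : ℝ) ≤
        C * (MT (EK ix (Rt F0 M) M) X / Real.log X ^ c) := by
  have : Nonempty Ω := Fintype.card_pos_iff.1 (by omega)
  have := Fintype.ofFinite ((Γ × Y → S → Bool) × (Lb T Γ Y Ω → Ω → Bool))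
  obtain ⟨c, C1, hc1, k1⟩ := count_unif (E := EK ix (Rt F0 M) M) (g := fun ε J X =>
      (((TS T M X).filter (SvL F1 M i θ fix fr lb n ix ty π rt mm ε J)).card : ℝ)) fun ε => by
    have hΦ : ∀ z, PhL fix fr lb n ty ε.1 z ⊆ fix (fr z) := fun z => filter_subset _ _
    obtain ⟨C0, n0, k1⟩ := count_s3 hP h D hΦ (fun z hz a ha c hc hne =>
      (count_pair h' hz ha hc hne).imp fun _ ⟨_, _, k, _⟩ => k) hrec
    have k0 : Dns fun p => p.Prime ∧ ¬ p ∣ M ∧ ∃ z : GP K, z.1.1 = p ∧ (fix (fr z)).Nonempty ∧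
        (PhL fix fr lb n ty ε.1 z = univ ∨ PhL fix fr lb n ty ε.1 z = ∅) := by
      refine count_mono h'.split ?_
      rintro p ⟨m1, m2, z, m3, m4, m5⟩
      refine ⟨m1, m2, z, m3, m4 ▸ univ_nonempty, ?_⟩
      simp only [PhL, m4, m5]
      by_cases m6 : ∀ s, chi z.1.1 (lb z 1) = if ε.1 (fr z, ty z) s then -1 else 1
      · exact Or.inl (Finset.filter_true_of_mem fun _ _ => m6)
      · exact Or.inr (Finset.filter_false_of_mem fun _ _ => m6)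
    obtain ⟨c, C1, hc1, k2⟩ := hMOM (Lb T Γ Y Ω) Ω T (fun l => l.1.1)
      (fun l => l.1.2.2.2.erase l.2) (RL M fun z => (ix z, fr z, ty z, PhL fix fr lb n ty ε.1 z))
      (fun p l j q l' => psL F1 i θ π p l j q (rt q l'.1.1 l'.2)) M (EK ix (Rt F0 M) M)
      (OkL M (fun z => (ix z, fr z, ty z, PhL fix fr lb n ty ε.1 z)) G)
      (LkL M (fun z => (ix z, fr z, ty z, PhL fix fr lb n ty ε.1 z)) G)
      (fun a l j q l' => abs_jac_le _ _)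
      (fun Λ m1 => count_congr (count_s1 h D.inj hΦ Λ m1) fun p =>
        congrArg _ (congrArg _ (Finset.filter_congr_decidable _ _ _)))
      (fun U m1 m2 => count_congr (count_s2 h D.inj h6 hΦ k0 U
        ((congrArg (OkL M _ G) (Finset.ext fun l => by simp only [mem_image])).mp m1) m2) fun p =>
        Finset.sum_congr (Finset.filter_congr_decidable _ _ _) fun _ _ => rfl) C0 n0 k1
    refine ⟨c, C1, hc1, k2.mono fun X k3 J => k3 (sgL F1 i θ π rt mm ε.2 J) fun p l j => ?_⟩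
    exact St.abs_mul_le (St.abs_mul_le (St.abs_mul_le (abs_jac_le _ _) (abs_jac_le _ _))
      (St.abs_prod_le _ fun _ _ => abs_chk_le _)) (by split_ifs <;> simp)
  refine ⟨c, C1, hc1, k1.mono fun X k2 J => le_trans ?_ (k2 J)⟩
  rw [← Nat.cast_sum, Nat.cast_le]
  refine le_trans (card_le_card fun s hs => ?_) Finset.card_biUnion_le
  simp only [mem_filter] at hs
  obtain ⟨m1, ε, m2⟩ := hs
  exact mem_biUnion.2 ⟨ε, mem_univ _, mem_filter.2 ⟨m1, m2⟩⟩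

theorem p_COUNT (hMOM : S_MOM) (hTEST : S_TEST) (hRECIP : S_RECIP) (hLIFT : S_LIFT) :
    S_COUNT := by
  intro K F Ω Γ S T _ _ _ _ _ _ _ A _ _ _ _ ix hix h6
  have b := fun σ => Module.finBasis ℤ (A σ)
  choose rr hrr hdu using fun σ => exists_dual (A σ)
  choose C hC hsm using fun σ => exists_small (b σ)
  choose C' hC' hlf using fun σ => hLIFT (A σ)
  refine ⟨∏ σ, (rr σ).natAbs * C σ * C' σ, by simp [Finset.prod_eq_zero_iff, hrr, hC, hC'], ?_⟩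
  rintro ι f x Pz F0 F1 M i θ fix fr lb G γ n hM hf hx hP h h' hc ⟨d0, E0, _, _, j0, y0, -, P0, hP0⟩
  have hM' : ∀ σ, (rr σ).natAbs * C σ * C' σ ∣ M := fun σ =>
    (Finset.dvd_prod_of_mem _ (mem_univ σ)).trans hM
  have du : ∀ σ, Dual (A σ) M := fun σ => hdu σ _
    (Int.dvd_natCast.mpr (((dvd_mul_right _ _).mul_right _).trans (hM' σ)))
  have hπ : ∀ z : GP K, ∃ π : {x : ∀ σ, A σ // ∀ σ, (z.1.1 : ℤ) ∣ Algebra.norm ℤ (x σ)},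
      Small (b _) M z.1.1 (π.1 (fr z)) ∧ lb z (π.1 (fr z)) = 0 := fun z => by
    obtain ⟨π, h1, h2⟩ := hsm (fr z) M (((dvd_mul_left _ _).mul_right _).trans (hM' _)) _ z.1.2
      (lb z)
    refine ⟨⟨Function.update 0 (fr z) π, fun σ => ?_⟩, by simpa using h1, by simpa using h2⟩
    by_cases h3 : σ = fr z
    · obtain ⟨m, -, h4⟩ := h1.2
      subst h3
      exact ⟨m, by simpa using h4⟩
    · simp [Function.update_of_ne h3, Algebra.norm_zero]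
  choose π0 hπ0 using hπ
  obtain ⟨π, hπ⟩ := count_ext hix
    (β := fun p => {x : ∀ σ, A σ // ∀ σ, (p : ℤ) ∣ Algebra.norm ℤ (x σ)})
    (fun p => ⟨0, fun σ => by simp [Algebra.norm_zero]⟩) π0
  obtain ⟨rt, hrt⟩ := count_ext hix (β := fun p => Ω → ZMod p) 0 fun z c => lb z (θ _ c)
  obtain ⟨f1, hf1⟩ := count_ext hix (β := fun p => (ZMod p)[X]) 0 fun z => F1.map z.2
  choose Ty hTy τ hτ using fun σ => finRel_bad (b σ) hP.M0
  have := Fintype.ofFinite (∀ σ, Ty σ)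
  have D : CD F1 M θ fr lb ix b (fun σ p t => (π p t).1 σ) rt f1
      fun z σ => τ σ ((π z.1.1 (ix z)).1 σ) := by
    have h1 : ∀ z : GP K, Small (b _) M z.1.1 ((π z.1.1 (ix z)).1 (fr z)) := fun z =>
      hπ z ▸ (hπ0 z).1
    refine ⟨hix, du, fun σ p t => (π p t).2 σ, fun z hz => ⟨h1 z, (h1 z).2, hπ z ▸ (hπ0 z).2,
      hlf _ _ (fun k => hz (k.trans ((dvd_mul_left _ _).trans (hM' _)))) _⟩,
      fun z c => congrFun (hrt z) c, hf1, fun z w hz hw e1 e2 => ?_⟩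
    exact hτ _ _ _ ⟨_, z.1.2, hz, h1 z⟩ ⟨_, w.1.2, hw, e1 ▸ h1 w⟩ (congrFun e2 _).symm
  have hm : ∀ σ a c, ∃ (P : (A σ)[X]) (g : F ⊗[ℤ] A σ) (m : A σ),
      (∃ (P : (A σ)[X]) (g : F ⊗[ℤ] A σ) (m : A σ),
        P * ((X - Polynomial.C (θ _ a)) * (X - Polynomial.C (θ _ c))) = F0.map (i _) ∧
        Cert (ι.comp (algebraMap (𝓞 K) K)) f x F0 F1 M (i _) P g {(θ _ a, m)}) →
      P * ((X - Polynomial.C (θ _ a)) * (X - Polynomial.C (θ _ c))) = F0.map (i _) ∧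
        Cert (ι.comp (algebraMap (𝓞 K) K)) f x F0 F1 M (i _) P g {(θ _ a, m)} := fun σ a c => by
    by_cases k : ∃ (P : (A σ)[X]) (g : F ⊗[ℤ] A σ) (m : A σ),
        P * ((X - Polynomial.C (θ _ a)) * (X - Polynomial.C (θ _ c))) = F0.map (i _) ∧
        Cert (ι.comp (algebraMap (𝓞 K) K)) f x F0 F1 M (i _) P g {(θ _ a, m)}
    · obtain ⟨P, g, m, k⟩ := k
      exact ⟨P, g, m, fun _ => k⟩
    · exact ⟨0, 0, 0, fun k' => absurd k' k⟩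
  choose P g m hm using hm
  obtain ⟨mm, hmm⟩ := count_ext hix (β := fun p => Ω → Ω → ZMod p) 0
    fun z a c => lb z (m _ a c)
  have : Nonempty Ω := Fintype.card_pos_iff.1 (by omega)
  obtain ⟨-, -, -, z0, -⟩ := count_ne h'.split
  refine ⟨_, fun d hd hB s J hs => ?_, count_fin hMOM h6 hP h h' D mm fun σ σ' G' H' θ0 =>
    hRECIP K E0 _ P0 hP0 Pz F0 F1 M hP (A σ) (A σ') (i σ) (i σ') G' H' θ0 (du σ) (du σ')⟩
  obtain ⟨a, k1, k2⟩ := hTEST K F ι f x Pz F0 F1 M d hf hx hd hP hc hB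
  obtain ⟨ε, ε', k3⟩ := count_surv hP h h' D
    ((ix z0, fr z0, fun σ => τ σ 0, ∅), Classical.arbitrary Ω)
    hm hmm hs k1 fun σ G G' γ V m1 m2 m3 => k2 (A σ) (i σ) G G' γ V (du σ) m1 m2 m3 s J hs
  exact ⟨a, fun v hv => k1 v (hs.junk v hv).1 ((hs.od v (hs.junk v hv).1).2 (Or.inl hv)),
    (ε, ε'), k3⟩

end Pool.Agent.P.MP_ab3ecb_nt.Inv
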