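import Pool.Agent.P.MP_ab3ecb_nt.Inv.C.Iface
import Pool.Agent.P.MP_ab3ecb_nt.Ord

/-! Step IX of the twist project. -/

namespace Pool.Agent.P.MP_ab3ecb_nt.Inv

open Polynomial NumberField IsDedekindDomain TensorProduct Finset Filter Asymptotics
open scoped Classical

lemma ix_fin (K : Type) [Field K] [NumberField K] (p : ℕ) [NeZero p] :
    Finite (𝓞 K →+* ZMod p) := by
  let b := Module.Free.chooseBasis ℤ (𝓞 K)
  refine Finite.of_injective (fun ψ : 𝓞 K →+* ZMod p => fun i => ψ (b i)) fun ψ ψ' h => ?_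
  have : ψ.toAddMonoidHom.toIntLinearMap = ψ'.toAddMonoidHom.toIntLinearMap :=
    b.ext fun i => congrFun h i
  ext z
  exact LinearMap.congr_fun this z

theorem p_IX :
    S_IX := by
  intro K _ _
  have h : ∀ p : Nat.Primes, Nonempty ((𝓞 K →+* ZMod p.1) ↪ Fin (Module.finrank ℤ (𝓞 K))) := by
    intro p
    haveI : NeZero p.1 := ⟨p.2.ne_zero⟩
    haveI := ix_fin K p.1
    letI := Fintype.ofFinite (𝓞 K →+* ZMod p.1)
    refine Function.Embedding.nonempty_of_card_le ?_
    rw [Fintype.card_fin, ← Nat.card_eq_fintype_card, card_hom_eq_idl K p.2]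
    exact card_idl_le p.2
  refine ⟨Fin (Module.finrank ℤ (𝓞 K)), inferInstance, fun z => (h z.1).some z.2, ?_⟩
  rintro ⟨p, ψ⟩ ⟨q, ψ'⟩ hpq he
  obtain rfl : p = q := hpq
  have : ψ = ψ' := (h p).some.injective he
  rw [this]

end Pool.Agent.P.MP_ab3ecb_nt.Inv
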