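import Pool.Agent.P.MP_ab3ecb_nt.Inv.C.Iface
import Pool.Agent.P.MP_ab3ecb_nt.Zeta

/-! Step JSUM of the twist project. -/

namespace Pool.Agent.P.MP_ab3ecb_nt.Inv

open Polynomial NumberField IsDedekindDomain TensorProduct Finset Filter Asymptotics
open scoped Classical

section

variable {K : Type} [Field K] [NumberField K]

lemma jsum_prime (v : Pl K) : ∃ p : ℕ, p.Prime ∧ (p : 𝓞 K) ∈ v.asIdeal := by
  have key : ∀ n : ℕ, n ≠ 0 → (n : 𝓞 K) ∈ v.asIdeal →
      ∃ p : ℕ, p.Prime ∧ (p : 𝓞 K) ∈ v.asIdeal := fun n => by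
    induction n using Nat.recOnMul with
    | zero => exact fun h => absurd rfl h
    | one =>
      exact fun _ h => absurd ((Ideal.eq_top_iff_one _).2 (by simpa using h)) v.isPrime.ne_top
    | prime p hp => exact fun _ h => ⟨p, hp, h⟩
    | mul a b ha hb =>
      intro h0 h
      rw [Nat.cast_mul] at h
      exact (v.isPrime.mem_or_mem h).elim (ha (left_ne_zero_of_mul h0))
        (hb (right_ne_zero_of_mul h0))
  exact key _ (mt Ideal.absNorm_eq_zero_iff.1 v.ne_bot) (Ideal.absNorm_mem _)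

lemma jsum_fib {F0 : (𝓞 K)[X]} (hF : F0.Monic) {p : ℕ} (hp : p.Prime)
    (S : Finset (Σ v : Pl K, 𝓞 K ⧸ v.asIdeal))
    (hS : ∀ x ∈ S, F0.eval₂ (Ideal.Quotient.mk x.1.asIdeal) x.2 = 0 ∧ (p : 𝓞 K) ∈ x.1.asIdeal) :
    S.card ≤ F0.natDegree * Module.finrank ℤ (𝓞 K) := by
  refine (card_le_mul_card_image (f := Sigma.fst) S F0.natDegree fun v _ => ?_).trans
    (Nat.mul_le_mul_left _ ?_)
  · have := v.isPrime
    have h1 := hF.map (Ideal.Quotient.mk v.asIdeal)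
    refine (card_le_card (t := (F0.map (Ideal.Quotient.mk v.asIdeal)).roots.toFinset.image
      (Sigma.mk v)) ?_).trans (card_image_le.trans ((Multiset.toFinset_card_le _).trans
        ((card_roots' _).trans natDegree_map_le)))
    rintro ⟨w, r⟩ hx
    obtain ⟨h2, rfl⟩ := mem_filter.1 hx
    refine mem_image_of_mem _ (Multiset.mem_toFinset.2 ((mem_roots h1.ne_zero).2 ?_))
    rw [IsRoot, eval_map]
    exact (hS _ h2).1
  · rw [← card_image_of_injective _ (f := HeightOneSpectrum.asIdeal)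
      fun _ _ => HeightOneSpectrum.ext]
    refine card_primes_le hp _ fun P hP => ?_
    obtain ⟨v, hv, rfl⟩ := mem_image.1 hP
    obtain ⟨x, hx, rfl⟩ := mem_image.1 hv
    exact ⟨x.1.prime, (hS x hx).2⟩

end

lemma jsum_rpow {N : ℕ} (hN : N ≠ 0) (P : Finset ℕ) (h : ∀ p ∈ P, p.Prime ∧ p ^ 2 ∣ N) :
    (N : ℝ) ^ (-(3 / 5) : ℝ) ≤ ∏ p ∈ P, (p : ℝ) ^ (-(6 / 5) : ℝ) := by
  have h1 : ∏ p ∈ P, p ^ 2 ∣ N := Finset.prod_dvd_of_isRelPrime
    (fun p hp q hq hne => Nat.coprime_iff_isRelPrime.1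
      (Nat.Coprime.pow 2 2 ((Nat.coprime_primes (h p hp).1 (h q hq).1).2 hne)))
    fun p hp => (h p hp).2
  have h2 : (0 : ℝ) < ((∏ p ∈ P, p ^ 2 : ℕ) : ℝ) :=
    Nat.cast_pos.2 (prod_pos fun p hp => pow_pos (h p hp).1.pos 2)
  refine (Real.rpow_le_rpow_of_nonpos h2 (Nat.cast_le.2 (Nat.le_of_dvd (Nat.pos_of_ne_zero hN) h1))
    (by norm_num)).trans_eq ?_
  rw [Nat.cast_prod, ← Real.finsetProd_rpow _ _ fun _ _ => Nat.cast_nonneg _]
  refine prod_congr rfl fun p _ => ?_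
  rw [Nat.cast_pow, ← Real.rpow_natCast, ← Real.rpow_mul (Nat.cast_nonneg p)]
  norm_num

theorem p_JSUM :
    S_JSUM := by
  intro K _ _ F0 hF
  choose pr hpr hpr' using jsum_prime (K := K)
  set D := F0.natDegree * Module.finrank ℤ (𝓞 K) with hD
  refine ⟨Real.exp (2 ^ D * (1 + 1 / (6 / 5 - 1))), fun W hW => ?_⟩
  let P : Finset (Σ v : Pl K, 𝓞 K ⧸ v.asIdeal) → Finset ℕ := fun j => j.image fun x => pr x.1
  have hQ : ∀ p ∈ W.biUnion P, p.Prime := fun p hp => by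
    obtain ⟨j, -, hj⟩ := mem_biUnion.1 hp
    obtain ⟨x, -, rfl⟩ := mem_image.1 hj
    exact hpr _
  have hc : ∀ T : Finset ℕ, (W.filter fun j => P j = T).card ≤ (2 ^ D) ^ T.card := fun T => by
    refine (card_le_card (t := ((W.biUnion id).filter fun x => pr x.1 ∈ T).powerset)
      fun j hj => ?_).trans ?_
    · obtain ⟨h1, rfl⟩ := mem_filter.1 hj
      exact mem_powerset.2 fun x hx => mem_filter.2
        ⟨mem_biUnion.2 ⟨j, h1, hx⟩, mem_image_of_mem (fun x => pr x.1) hx⟩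
    · rw [card_powerset, ← pow_mul]
      refine Nat.pow_le_pow_right two_pos (card_le_mul_card_image_of_maps_to
        (f := fun x : (Σ v : Pl K, 𝓞 K ⧸ v.asIdeal) => pr x.1) (fun x hx => (mem_filter.1 hx).2) D fun p _ => ?_)
      rcases eq_empty_or_nonempty (((W.biUnion id).filter fun x => pr x.1 ∈ T).filter
        fun x => pr x.1 = p) with h | ⟨y, hy⟩
      · rw [h]
        exact Nat.zero_le _
      · refine jsum_fib hF (p := p) ((mem_filter.1 hy).2 ▸ hpr _) _ fun x hx => ?_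
        obtain ⟨j, h1, h2⟩ := mem_biUnion.1 (mem_filter.1 (mem_filter.1 hx).1).1
        exact ⟨(hW j h1 x h2).1, (mem_filter.1 hx).2 ▸ hpr' _⟩
  calc ∑ j ∈ W, (Nj j : ℝ) ^ (-(3 / 5) : ℝ)
      ≤ ∑ j ∈ W, ∏ p ∈ P j, (p : ℝ) ^ (-(6 / 5) : ℝ) := by
        refine sum_le_sum fun j hj => jsum_rpow (prod_ne_zero_iff.2 fun x _ =>
          mt Ideal.absNorm_eq_zero_iff.1 x.1.ne_bot) _ fun p hp => ?_
        obtain ⟨x, hx, rfl⟩ := mem_image.1 hp
        exact ⟨hpr _, (hW j hj x hx).2 _ (hpr _) (hpr' _)⟩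
    _ = ∑ T ∈ (W.biUnion P).powerset, ∑ j ∈ W with P j = T,
          ∏ p ∈ P j, (p : ℝ) ^ (-(6 / 5) : ℝ) :=
        (sum_fiberwise_of_maps_to (fun j hj => mem_powerset.2 (subset_biUnion_of_mem P hj)) _).symm
    _ ≤ ∑ T ∈ (W.biUnion P).powerset, ∏ p ∈ T, (2 ^ D * (p : ℝ) ^ (-(6 / 5) : ℝ)) := by
        refine sum_le_sum fun T _ => ?_
        rw [sum_congr rfl (g := fun _ => ∏ p ∈ T, (p : ℝ) ^ (-(6 / 5) : ℝ))
          fun j hj => by rw [(mem_filter.1 hj).2], sum_const, nsmul_eq_mul, prod_mul_distrib,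
          prod_const]
        exact mul_le_mul_of_nonneg_right (by exact_mod_cast hc T)
          (prod_nonneg fun _ _ => by positivity)
    _ ≤ _ := by
        rw [← prod_one_add]
        refine (prod_one_add_le_exp _ _ fun _ _ => by positivity).trans (Real.exp_le_exp.2 ?_)
        rw [← mul_sum]
        exact mul_le_mul_of_nonneg_left (sum_rpow_le (by norm_num) _
          fun p hp => (hQ p hp).ne_zero) (by positivity)

end Pool.Agent.P.MP_ab3ecb_nt.Inv
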