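import Pool.Agent.P.MP_ab3ecb_nt.Inv.C.Iface
import Pool.Agent.P.MP_ab3ecb_nt.Small

/-! Step LOW of the twist project. -/

namespace Pool.Agent.P.MP_ab3ecb_nt.Inv

open Polynomial NumberField IsDedekindDomain TensorProduct Finset Filter Asymptotics
open scoped Classical

lemma low_pair {ι A : Type} [CommMonoid A] (Q : A → Prop) (h1 : Q 1)
    (hm : ∀ x y, Q x → Q y → Q (x * y)) (f : ι → A) (n : ℕ) : ∀ s : Finset ι, s.card = n + n →
    (∀ x ∈ s, ∀ y ∈ s, Q (f x * f y)) → Q (∏ x ∈ s, f x) := by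
  induction n with
  | zero =>
    intro s hs _
    rw [Finset.card_eq_zero.1 hs, prod_empty]
    exact h1
  | succ n ih =>
    intro s hs h
    obtain ⟨x, hx⟩ := Finset.card_pos.1 (show 0 < s.card by omega)
    have h2 := card_erase_of_mem hx
    obtain ⟨y, hy⟩ := Finset.card_pos.1 (show 0 < (s.erase x).card by omega)
    have h3 := card_erase_of_mem hy
    rw [← mul_prod_erase s f hx, ← mul_prod_erase _ f hy, ← mul_assoc]
    exact hm _ _ (h x hx y (mem_of_mem_erase hy)) (ih _ (by omega) fun a ha b hb =>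
      h a (mem_of_mem_erase (mem_of_mem_erase ha)) b (mem_of_mem_erase (mem_of_mem_erase hb)))

lemma low_types {ι T A : Type} [CommMonoid A] (Q : A → Prop) (h1 : Q 1)
    (hm : ∀ x y, Q x → Q y → Q (x * y)) (f : ι → A) (τ : ι → T) (s : Finset ι)
    (he : ∀ t, Even (s.filter fun z => τ z = t).card)
    (h : ∀ x ∈ s, ∀ y ∈ s, τ x = τ y → Q (f x * f y)) : Q (∏ x ∈ s, f x) := by
  rw [← prod_fiberwise_of_maps_to (g := τ) (t := s.image τ) fun x hx => mem_image_of_mem τ hx]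
  refine prod_induction _ Q hm h1 fun t _ => ?_
  obtain ⟨n, hn⟩ := he t
  exact low_pair Q h1 hm f n _ hn fun x hx y hy => h x (mem_filter.1 hx).1 y (mem_filter.1 hy).1
    ((mem_filter.1 hx).2.trans (mem_filter.1 hy).2.symm)

section

variable {K : Type} [Field K] [NumberField K]

lemma low_norm (z : GP K) : Ideal.absNorm z.pl.asIdeal = z.1.1 := by
  rw [Ideal.absNorm_apply, Submodule.cardQuot_apply]
  exact (Nat.card_congr (RingHom.quotientKerEquivOfSurjective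
    (ZMod.ringHom_surjective z.2)).toEquiv).trans (Nat.card_zmod _)

lemma low_inj {z w : GP K} (h : z.pl = w.pl) : z = w := by
  have h1 : z.1 = w.1 := Subtype.ext (by rw [← low_norm z, h, low_norm])
  obtain ⟨p, φ⟩ := z
  obtain ⟨q, ψ⟩ := w
  obtain rfl : p = q := h1
  refine congrArg _ (RingHom.ext fun a => ?_)
  obtain ⟨n, hn⟩ := ZMod.intCast_surjective (φ a)
  have h2 : a - n ∈ (GP.pl (⟨p, φ⟩ : GP K)).asIdeal := by
    rw [GP.mem_pl, map_sub, map_intCast, hn, sub_self]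
  rw [h, GP.mem_pl, map_sub, map_intCast, sub_eq_zero] at h2
  exact hn.symm.trans h2.symm

lemma low_notMem {z : GP K} {M : ℕ} (h : ¬ z.1.1 ∣ M) : (M : 𝓞 K) ∉ z.pl.asIdeal := by
  rw [GP.mem_pl, map_natCast, ZMod.natCast_eq_zero_iff]
  exact h

lemma low_val {z : GP K} {M : ℕ} (hM : M ≠ 0) (hz : ¬ z.1.1 ∣ M) {π : 𝓞 K} {m : ℤ}
    (hm : m ∣ M) (hN : Algebra.norm ℤ π = z.1.1 * m) (h0 : z.2 π = 0) : π ≠ 0 ∧
    ∀ v : Pl K, (M : 𝓞 K) ∉ v.asIdeal →
      WithZero.log (v.valuation K (π : K)) = if z.pl = v then -1 else 0 := by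
  have hm' : m.natAbs ∣ M := Int.natAbs_dvd_natAbs.2 hm
  have hN' : Ideal.absNorm (Ideal.span {π}) = z.1.1 * m.natAbs := by
    rw [Ideal.absNorm_span_singleton, hN, Int.natAbs_mul, Int.natAbs_natCast]
  have hd : ∀ I : Ideal (𝓞 K), π ∈ z.pl.asIdeal * I → Ideal.absNorm I ∣ M := fun I hI => by
    have := Ideal.absNorm_dvd_absNorm_of_le ((Ideal.span_singleton_le_iff_mem _).2 hI)
    rw [map_mul, low_norm, hN'] at this
    exact (Nat.dvd_of_mul_dvd_mul_left z.1.2.pos this).trans hm'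
  have hπ : π ≠ 0 := by
    rintro rfl
    rw [Ideal.span_singleton_zero, Ideal.absNorm_bot] at hN'
    exact mul_ne_zero z.1.2.ne_zero (ne_zero_of_dvd_ne_zero hM hm') hN'.symm
  refine ⟨hπ, fun v hv => ?_⟩
  split_ifs with h
  · subst h
    have h1 : z.pl.intValuation π ≤ WithZero.exp (-((1 : ℕ) : ℤ)) :=
      (z.pl.intValuation_le_pow_iff_mem π 1).2 (by rw [pow_one]; exact h0)
    have h2 : ¬ z.pl.intValuation π ≤ WithZero.exp (-((2 : ℕ) : ℤ)) := fun h2 => by
      rw [z.pl.intValuation_le_pow_iff_mem, pow_two] at h2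
      exact hz (low_norm z ▸ hd _ h2)
    have h3 := z.pl.intValuation_ne_zero π hπ
    rw [show z.pl.valuation K (π : K) = z.pl.intValuation π from z.pl.valuation_of_algebraMap π]
    rw [← WithZero.exp_log h3, WithZero.exp_le_exp] at h1 h2
    omega
  · have h1 : π ∉ v.asIdeal := fun h1 => by
      have h2 : π ∈ z.pl.asIdeal * v.asIdeal := by
        rw [Ideal.mul_eq_inf_of_coprime (z.pl.isMaximal.coprime_of_ne v.isMaximal
          fun e => h (HeightOneSpectrum.ext e))]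
        exact ⟨h0, h1⟩
      obtain ⟨c, hc⟩ := hd _ h2
      exact hv (by rw [hc, Nat.cast_mul]; exact Ideal.mul_mem_right _ _ (Ideal.absNorm_mem _))
    rw [show v.valuation K (π : K) = 1 from v.valuation_eq_one_iff_notMem.2 h1, WithZero.log_one]

lemma low_log_mul (v : Pl K) {x y : K} (hx : x ≠ 0) (hy : y ≠ 0) :
    WithZero.log (v.valuation K (x * y)) =
      WithZero.log (v.valuation K x) + WithZero.log (v.valuation K y) := by
  rw [map_mul, WithZero.log_mul ((_root_.map_ne_zero _).2 hx) ((_root_.map_ne_zero _).2 hy)]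

lemma low_log_prod (v : Pl K) {ι : Type} (f : ι → 𝓞 K) (s : Finset ι) (h : ∀ i ∈ s, f i ≠ 0) :
    WithZero.log (v.valuation K ((∏ i ∈ s, f i : 𝓞 K) : K)) =
      ∑ i ∈ s, WithZero.log (v.valuation K (f i : K)) := by
  induction s using Finset.induction_on with
  | empty => simp
  | insert a s ha ih =>
    have h1 : ∀ i ∈ s, f i ≠ 0 := fun i hi => h i (mem_insert_of_mem hi)
    rw [prod_insert ha, sum_insert ha, ← ih h1, ← low_log_mul v
      (RingOfIntegers.coe_ne_zero_iff.2 (h a (mem_insert_self a s)))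
      (RingOfIntegers.coe_ne_zero_iff.2 (prod_ne_zero_iff.2 h1))]
    rfl

lemma low_od {π : GP K → 𝓞 K} {s : Finset (GP K)} {v : Pl K} (h0 : ∀ z ∈ s, π z ≠ 0)
    (h : ∀ z ∈ s, WithZero.log (v.valuation K (π z : K)) = if z.pl = v then -1 else 0) :
    Od v ((∏ z ∈ s, π z : 𝓞 K) : K) ↔ ∃ z ∈ s, z.pl = v := by
  rw [Od, low_log_prod v π s h0, sum_congr rfl h]
  by_cases h1 : ∃ z ∈ s, z.pl = v
  · obtain ⟨z, hz, rfl⟩ := h1
    rw [sum_eq_single_of_mem z hz fun w _ hw => if_neg fun e => hw (low_inj e), if_pos rfl]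
    exact iff_of_true (by decide) ⟨z, hz, rfl⟩
  · rw [sum_eq_zero fun z hz => if_neg fun e => h1 ⟨z, hz, e⟩]
    exact iff_of_false (by decide) h1

lemma low_od_mul {v : Pl K} {x y : K} (hx : x ≠ 0) (hy : y ≠ 0) (h : ¬ Od v x) :
    Od v (x * y) ↔ Od v y := by
  rw [Od, Int.not_odd_iff_even] at h
  rw [Od, Od, low_log_mul v hx hy, Int.odd_add']
  simp [h]

lemma low_od_class {x y : Kˣ} (h : (x : Kˣ ⧸ (powMonoidHom 2 : Kˣ →* Kˣ).range) = y) (v : Pl K) :
    Od v (x : K) ↔ Od v (y : K) := by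
  obtain ⟨u, hu⟩ := QuotientGroup.eq.1 h
  have h1 : (y : K) = u * u * x := by
    rw [powMonoidHom_apply, eq_inv_mul_iff_mul_eq] at hu
    rw [← hu, Units.val_mul, Units.val_pow_eq_pow_val]
    ring
  rw [h1, low_od_mul (mul_ne_zero u.ne_zero u.ne_zero) x.ne_zero]
  rw [Od, low_log_mul v u.ne_zero u.ne_zero, Int.not_odd_iff_even]
  exact ⟨_, rfl⟩

omit [NumberField K] in
lemma low_EK {T : Type} [Fintype T] {ix : GP K → T} (hix : ∀ z w, z.1 = w.1 → ix z = ix w → z = w)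
    {good : GP K → Prop} {M : ℕ} (hg : ∀ z, good z → ¬ z.1.1 ∣ M) :
    EK ix good M = fun X => ∑ p ∈ range (X + 1), ({z | good z ∧ z.1.1 = p}.ncard : ℝ) / p := by
  funext X
  rw [EK, Qs, sum_filter]
  refine sum_congr rfl fun p _ => ?_
  split_ifs with h
  · rw [← Set.InjOn.ncard_image (f := ix) fun z hz w hw e =>
      hix z w (Subtype.ext (hz.2.trans hw.2.symm)) e, rk, ← Set.ncard_coe_finset]
    congr 3
    ext τ
    simp [and_assoc]
  · rw [show {z | good z ∧ z.1.1 = p} = ∅ from Set.eq_empty_of_forall_notMem fun z hz =>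
      h (hz.2 ▸ ⟨z.1.2, hg z hz.1⟩)]
    simp

end

theorem p_LOW (hLOWC : S_LOWC) (hSEL : S_SEL) :
    S_LOW := by
  intro K T _ _ _ ix hix
  obtain ⟨C0, hC0, hsm⟩ := exists_small (Module.finBasis ℤ (𝓞 K))
  refine ⟨C0, hC0, fun M hM hCM good p d0 hg hchb hd0 hod hp => ?_⟩
  choose π hπ hπ0 using fun z : GP K => hsm M hCM z.1.1 z.1.2 z.2
  obtain ⟨T', _, τ, hτ⟩ := finRel_bad (Module.finBasis ℤ (𝓞 K)) hM
  obtain ⟨hS1, hS2, hS3, -⟩ := hSEL K
  have hfin : {v : Pl K | (M : 𝓞 K) ∈ v.asIdeal}.Finite := by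
    simpa only [Ideal.dvd_span_singleton] using Ideal.finite_factors
      (I := Ideal.span {(M : 𝓞 K)}) (by simpa using hM)
  have hN : ∀ v : Pl K, Ideal.absNorm v.asIdeal ≠ 0 := fun v =>
    mt Ideal.absNorm_eq_zero_iff.1 v.ne_bot
  obtain ⟨c, hc, hX⟩ := hLOWC (GP K) T' (fun z => z.1.1) good (fun z => τ (π z)) (Fintype.card T)
    (∏ v ∈ hfin.toFinset, Ideal.absNorm v.asIdeal) (prod_ne_zero_iff.2 fun v _ => hN v)
    (fun z _ => z.1.2) (fun q => by
      rw [← Set.InjOn.encard_image (f := ix) fun z hz w hw e =>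
        hix z w (Subtype.ext (hz.2.trans hw.2.symm)) e]
      exact (Set.encard_le_encard (Set.subset_univ _)).trans_eq (by simp)) hchb
  refine ⟨c, hc, hX.mono fun X h => ?_⟩
  rw [low_EK hix hg]
  refine h.trans (Nat.cast_le.2 ?_)
  have hval : ∀ z, good z → π z ≠ 0 ∧ ∀ v : Pl K, (M : 𝓞 K) ∉ v.asIdeal →
      WithZero.log (v.valuation K (π z : K)) = if z.pl = v then -1 else 0 := fun z hz => by
    obtain ⟨m, h1, h2⟩ := (hπ z).2
    exact low_val hM (hg z hz) h1 h2 (hπ0 z)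
  have hα : ∀ s : Finset (GP K), (∀ z ∈ s, good z) → (∏ z ∈ s, π z) ≠ 0 := fun s hs =>
    prod_ne_zero_iff.2 fun z hz => (hval z (hs z hz)).1
  have hα' : ∀ s : Finset (GP K), (∀ z ∈ s, good z) → ((∏ z ∈ s, π z : 𝓞 K) : K) ≠ 0 :=
    fun s hs => RingOfIntegers.coe_ne_zero_iff.2 (hα s hs)
  have hO : ∀ s : Finset (GP K), (∀ z ∈ s, good z) → ∀ v : Pl K, (M : 𝓞 K) ∉ v.asIdeal →
      (Od v ((∏ z ∈ s, π z : 𝓞 K) : K) ↔ ∃ z ∈ s, z.pl = v) := fun s hs v hv =>
    low_od (fun z hz => (hval z (hs z hz)).1) fun z hz => (hval z (hs z hz)).2 v hv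
  have hO' : ∀ s : Finset (GP K), (∀ z ∈ s, good z) → ∀ v : Pl K, (M : 𝓞 K) ∉ v.asIdeal →
      (Od v (d0 * ((∏ z ∈ s, π z : 𝓞 K) : K)) ↔ ∃ z ∈ s, z.pl = v) := fun s hs v hv =>
    (low_od_mul hd0 (hα' s hs) fun h1 => hv (hod v h1)).trans (hO s hs v hv)
  let u : Finset (GP K) → Kˣ := fun s =>
    if hs : ∀ z ∈ s, good z then Units.mk0 _ (mul_ne_zero hd0 (hα' s hs)) else 1
  have hu : ∀ s : Finset (GP K), (∀ z ∈ s, good z) →
      (u s : K) = d0 * ((∏ z ∈ s, π z : 𝓞 K) : K) := fun s hs => by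
    simp only [u, dif_pos hs, Units.val_mk0]
  refine Set.ncard_le_ncard_of_injOn
    (fun s => (u s : Kˣ ⧸ (powMonoidHom 2 : Kˣ →* Kˣ).range)) ?_ ?_
    ((hS3 X).subset fun q ⟨d, h1, h2, _⟩ => ⟨d, h1, h2⟩)
  · rintro s ⟨hs, h1, h2⟩
    refine ⟨u s, rfl, ?_, ?_⟩
    · have h3 := hS2 _ (u s).ne_zero
      rw [hS1 _ h3.toFinset fun v => h3.mem_toFinset.symm]
      refine le_trans ?_ h1
      calc ∏ v ∈ h3.toFinset, Ideal.absNorm v.asIdeal
          ≤ ∏ v ∈ hfin.toFinset ∪ s.image GP.pl, Ideal.absNorm v.asIdeal := by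
            refine prod_le_prod_of_subset_of_one_le' (fun v hv => ?_)
              fun v _ _ => Nat.one_le_iff_ne_zero.2 (hN v)
            rw [h3.mem_toFinset, Set.mem_ofPred_eq, hu s hs] at hv
            rw [mem_union, hfin.mem_toFinset, mem_image]
            exact or_iff_not_imp_left.2 fun h4 => (hO' s hs v h4).1 hv
        _ = _ := by
            rw [prod_union (disjoint_left.2 fun v h4 h5 => by
              obtain ⟨z, hz, rfl⟩ := mem_image.1 h5
              exact low_notMem (hg z (hs z hz)) (hfin.mem_toFinset.1 h4)),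
              prod_image fun z _ w _ e => low_inj e]
            simp only [low_norm]
    · rw [hu s hs]
      refine hp _ (hα s hs) ?_ fun v hv h3 => ?_
      · refine low_types (Bad M) ⟨by simp, fun _ => by simp⟩ (fun x y hx hy =>
          ⟨by rw [map_mul]; exact hx.1.mul hy.1, fun l => by
            rw [map_mul]; exact (hx.2 l).mul (hy.2 l)⟩) π (fun z => τ (π z)) s h2
          fun x hx y hy e => hτ _ _ ⟨_, x.1.2, hg x (hs x hx), hπ x⟩
            ⟨_, y.1.2, hg y (hs y hy), hπ y⟩ e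
      · obtain ⟨z, hz, e⟩ := (hO s hs v hv).1 h3
        exact ⟨z, hs z hz, e⟩
  · have key : ∀ s s' : Finset (GP K), (∀ z ∈ s, good z) → (∀ z ∈ s', good z) →
        (u s : Kˣ ⧸ (powMonoidHom 2 : Kˣ →* Kˣ).range) = u s' → s ⊆ s' := by
      intro s s' hs hs' e z hz
      have h1 := low_notMem (hg z (hs z hz))
      have h2 := low_od_class e z.pl
      rw [hu s hs, hu s' hs', hO' s hs _ h1, hO' s' hs' _ h1] at h2
      obtain ⟨w, hw, e'⟩ := h2.1 ⟨z, hz, rfl⟩
      exact low_inj e' ▸ hw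
    exact fun s hs s' hs' e => (key s s' hs.1 hs'.1 e).antisymm (key s' s hs'.1 hs.1 e.symm)

end Pool.Agent.P.MP_ab3ecb_nt.Inv
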