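import Pool.Agent.P.MP_ab3ecb_nt.Inv.C.Iface
import Pool.Agent.P.MP_ab3ecb_nt.Lower

/-! Step LOWC of the twist project. -/

namespace Pool.Agent.P.MP_ab3ecb_nt.Inv

open Polynomial NumberField IsDedekindDomain TensorProduct Finset Filter Asymptotics
open scoped Classical

section aux

variable {ι : Type} {pr : ι → ℕ} {b : ℕ}

lemma lowc_transfer (A : Finset ι) (hB : ∀ p, (A.filter fun z => pr z = p).card ≤ b)
    (g : ℕ → ℝ) (hg : ∀ p, 0 ≤ g p) : ∑ z ∈ A, g (pr z) ≤ b * ∑ p ∈ A.image pr, g p := by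
  rw [Finset.sum_comp g pr, Finset.mul_sum]
  refine Finset.sum_le_sum fun p _ => ?_
  rw [nsmul_eq_mul]
  exact mul_le_mul_of_nonneg_right (by exact_mod_cast hB p) (hg p)

lemma lowc_sub {A Z : Finset ι} (hB : ∀ p, (A.filter fun z => pr z = p).card ≤ b) (h : Z ⊆ A) :
    ∀ p, (Z.filter fun z => pr z = p).card ≤ b :=
  fun p => (card_le_card (filter_subset_filter _ h)).trans (hB p)

lemma lowc_mertens (A : Finset ι) (hp : ∀ z ∈ A, (pr z).Prime)
    (hB : ∀ p, (A.filter fun z => pr z = p).card ≤ b) {l : ℝ} (hl : 0 ≤ l)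
    (hle : ∀ z ∈ A, Real.log (pr z) ≤ l) : ∑ z ∈ A, Real.log (pr z) / pr z ≤ b * (2 * l) := by
  refine (lowc_transfer A hB (fun p => Real.log p / p) fun p =>
    div_nonneg (Real.log_natCast_nonneg p) (Nat.cast_nonneg p)).trans ?_
  refine mul_le_mul_of_nonneg_left (Lower.mertens _ (fun p h => ?_) hl fun p h => ?_)
    (Nat.cast_nonneg b) <;> obtain ⟨z, hz, rfl⟩ := mem_image.mp h
  exacts [hp z hz, hle z hz]

lemma lowc_sq (A : Finset ι) (hp : ∀ z ∈ A, (pr z).Prime)
    (hB : ∀ p, (A.filter fun z => pr z = p).card ≤ b) :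
    ∑ z ∈ A, (1 / (pr z : ℝ)) ^ 2 ≤ (b : ℝ) * 2 := by
  refine (lowc_transfer A hB (fun p => (1 / (p : ℝ)) ^ 2) fun p => by positivity).trans ?_
  refine mul_le_mul_of_nonneg_left ?_ (Nat.cast_nonneg b)
  have h2 := sum_rpow_le (σ := 2) (by norm_num) (A.image pr) fun p h => by
    obtain ⟨z, hz, rfl⟩ := mem_image.mp h
    exact (hp z hz).ne_zero
  rw [show (1 : ℝ) + 1 / (2 - 1) = 2 by norm_num] at h2
  refine le_trans (le_of_eq (Finset.sum_congr rfl fun p _ => ?_)) h2
  rw [Real.rpow_neg (Nat.cast_nonneg p), Real.rpow_two, one_div, inv_pow]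

lemma lowc_weight (Z : Finset ι) (g t : ι → ℝ) (hg : ∀ p, 0 ≤ g p) (ht : ∀ p, 0 ≤ t p) :
    ∑ s ∈ Z.powerset, (∑ p ∈ s, g p) * ∏ p ∈ s, t p ≤
      (∏ p ∈ Z, (1 + t p)) * ∑ p ∈ Z, g p * t p := by
  induction Z using Finset.induction_on with
  | empty => simp
  | insert a Z ha ih =>
    rw [Finset.sum_powerset_insert ha, Finset.prod_insert ha, Finset.sum_insert ha]
    have e : ∑ s ∈ Z.powerset, (∑ p ∈ insert a s, g p) * ∏ p ∈ insert a s, t p =
        g a * t a * ∏ p ∈ Z, (1 + t p) +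
          t a * ∑ s ∈ Z.powerset, (∑ p ∈ s, g p) * ∏ p ∈ s, t p := by
      rw [Finset.prod_one_add, Finset.mul_sum, Finset.mul_sum, ← Finset.sum_add_distrib]
      refine Finset.sum_congr rfl fun s hs => ?_
      have : a ∉ s := fun h => ha (mem_powerset.mp hs h)
      rw [Finset.sum_insert this, Finset.prod_insert this]
      ring
    rw [e]
    have h1 : 0 ≤ ∏ p ∈ Z, (1 + t p) := Finset.prod_nonneg fun p _ => by have := ht p; positivity
    have h2 := mul_le_mul_of_nonneg_left ih (ht a)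
    have h3 : 0 ≤ t a * (g a * t a * ∏ p ∈ Z, (1 + t p)) := by
      have := ht a; have := hg a; positivity
    nlinarith

lemma lowc_half (Z : Finset ι) (hp : ∀ z ∈ Z, (pr z).Prime)
    (hB : ∀ p, (Z.filter fun z => pr z = p).card ≤ b) (hb : 1 ≤ b) {l : ℝ} (hl : 0 < l)
    (hle : ∀ z ∈ Z, Real.log (pr z) ≤ l) :
    (∏ z ∈ Z, (1 + 1 / (pr z : ℝ))) / 2 ≤
      ∑ s ∈ Z.powerset.filter fun s : Finset ι => ∑ z ∈ s, Real.log (pr z) ≤ 4 * (b * l),
        ∏ z ∈ s, 1 / (pr z : ℝ) := by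
  have hb' : (0 : ℝ) < b := by exact_mod_cast hb
  have h1 := lowc_weight Z (fun z => Real.log (pr z)) (fun z => 1 / (pr z : ℝ))
    (fun p => Real.log_natCast_nonneg _) (fun p => by positivity)
  have h2 := lowc_mertens Z hp hB hl.le hle
  have h3 : ∑ z ∈ Z, Real.log (pr z) * (1 / (pr z : ℝ)) = ∑ z ∈ Z, Real.log (pr z) / pr z :=
    Finset.sum_congr rfl fun p _ => by ring
  have h4 := Finset.sum_filter_add_sum_filter_not Z.powerset
    (fun s : Finset ι => ∑ z ∈ s, Real.log (pr z) ≤ 4 * (b * l))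
    (fun s => ∏ z ∈ s, 1 / (pr z : ℝ))
  rw [← Finset.prod_one_add] at h4
  have h0 : 0 ≤ ∏ z ∈ Z, (1 + 1 / (pr z : ℝ)) := Finset.prod_nonneg fun p _ => by positivity
  have hw : ∀ s : Finset ι, 0 ≤ ∏ z ∈ s, 1 / (pr z : ℝ) :=
    fun s => Finset.prod_nonneg fun p _ => by positivity
  have h5 : 4 * (b * l) * ∑ s ∈ Z.powerset.filter
      (fun s : Finset ι => ¬ ∑ z ∈ s, Real.log (pr z) ≤ 4 * (b * l)), ∏ z ∈ s, 1 / (pr z : ℝ) ≤
      ∑ s ∈ Z.powerset, (∑ z ∈ s, Real.log (pr z)) * ∏ z ∈ s, 1 / (pr z : ℝ) := by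
    rw [Finset.mul_sum]
    refine le_trans (Finset.sum_le_sum fun s hs => ?_)
      (Finset.sum_le_sum_of_subset_of_nonneg (Finset.filter_subset _ _) fun s _ _ =>
        mul_nonneg (Finset.sum_nonneg fun p _ => Real.log_natCast_nonneg _) (hw s))
    exact mul_le_mul_of_nonneg_right (not_le.mp (mem_filter.mp hs).2).le (hw s)
  rw [h3] at h1
  have h6 := mul_le_mul_of_nonneg_left h2 h0
  have h7 : (b * l) * (4 * ∑ s ∈ Z.powerset.filter
      (fun s : Finset ι => ¬ ∑ z ∈ s, Real.log (pr z) ≤ 4 * (b * l)), ∏ z ∈ s, 1 / (pr z : ℝ)) ≤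
      (b * l) * (2 * ∏ z ∈ Z, (1 + 1 / (pr z : ℝ))) := by linarith
  have h8 := le_of_mul_le_mul_left h7 (by positivity)
  linarith

lemma lowc_exp (A : Finset ι) (hp : ∀ z ∈ A, (pr z).Prime)
    (hB : ∀ p, (A.filter fun z => pr z = p).card ≤ b) {l : ℝ} (hl : 0 < l)
    (hle : ∀ z ∈ A, Real.log (pr z) ≤ 12 * (b * l)) :
    Real.exp (∑ z ∈ A, 1 / (pr z : ℝ) - (24 * b ^ 2 + 2 * b)) ≤
      ∏ z ∈ A.filter fun z => Real.log (pr z) ≤ l, (1 + 1 / (pr z : ℝ)) := by
  set Z := A.filter fun z => Real.log (pr z) ≤ l with hZ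
  have h1 := sum_le_log_prod Z (fun z => 1 / (pr z : ℝ)) fun p _ => by positivity
  have h2 := lowc_sq Z (fun z hz => hp z (mem_filter.mp hz).1) (lowc_sub hB (filter_subset _ _))
  have h4 := Finset.sum_filter_add_sum_filter_not A (fun z => Real.log (pr z) ≤ l)
    (fun z => 1 / (pr z : ℝ))
  have h5 := lowc_mertens (A.filter fun z => ¬ Real.log (pr z) ≤ l)
    (fun p h => hp p (mem_filter.mp h).1) (lowc_sub hB (filter_subset _ _))
    (l := 12 * (b * l)) (by positivity) fun p h => hle p (mem_filter.mp h).1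
  have h6 : l * ∑ z ∈ A.filter (fun z => ¬ Real.log (pr z) ≤ l), 1 / (pr z : ℝ) ≤
      ∑ z ∈ A.filter (fun z => ¬ Real.log (pr z) ≤ l), Real.log (pr z) / pr z := by
    rw [Finset.mul_sum]
    refine Finset.sum_le_sum fun p hp => ?_
    have := (not_le.mp (mem_filter.mp hp).2).le
    rw [mul_one_div]
    gcongr
  have h7 : l * ∑ z ∈ A.filter (fun z => ¬ Real.log (pr z) ≤ l), 1 / (pr z : ℝ) ≤
      l * (24 * b ^ 2) := by linarith
  have h8 := le_of_mul_le_mul_left h7 hl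
  rw [← Real.le_log_iff_exp_le (Finset.prod_pos fun p _ => by positivity)]
  linarith

/-- many large primes below `Y / m` -/
lemma lowc_large (P : ℕ → Prop) (hP : ∀ p, P p → p.Prime) {c l L : ℝ} (hc : 0 < c) {x0 Y m : ℕ}
    (hx0 : ∀ x ≥ x0, c * x ≤ ∑ p ∈ (range (x + 1)).filter P, Real.log p) (hl : 0 < l)
    (hl1 : 8 / c ≤ l) (hl2 : 2 * x0 ≤ l) (hm0 : 0 < m) (e1 : Real.exp (8 * l) ≤ Y / m)
    (hL : Real.log Y = L) :
    c / 4 * (Y / m) ≤
      ((((range (Y / m + 1)).filter P).filter fun p : ℕ => ¬ Real.log p ≤ l).card : ℝ) * L := by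
  have hm0' : (0 : ℝ) < m := by exact_mod_cast hm0
  have e0 : 1 + l ≤ Real.exp l := by linarith [Real.add_one_le_exp l]
  have e2 : l * Real.exp l ≤ Real.exp (8 * l) := by
    calc l * Real.exp l ≤ Real.exp l * Real.exp l := by gcongr; linarith
      _ = Real.exp (l + l) := (Real.exp_add _ _).symm
      _ ≤ _ := Real.exp_le_exp.mpr (by linarith)
  have e2' : 1 + l ≤ Real.exp (8 * l) := e0.trans (Real.exp_le_exp.mpr (by linarith))
  have hmY : m ≤ Y := by
    have : (1 : ℝ) ≤ Y / m := by linarith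
    rw [le_div_iff₀ hm0', one_mul] at this
    exact_mod_cast this
  set x := Y / m with hx
  have a1 : 1 ≤ x := (Nat.one_le_div_iff hm0).mpr hmY
  have a2 : Y < m * (x + 1) := Nat.lt_mul_div_succ Y hm0
  have a3 : Y ≤ m * (2 * x) := a2.le.trans (Nat.mul_le_mul_left _ (by omega))
  have a4 : (Y : ℝ) ≤ m * (2 * (x : ℝ)) := by exact_mod_cast a3
  have a5 : (Y : ℝ) / m ≤ 2 * x := by rw [div_le_iff₀ hm0']; linarith
  have a6 : x0 ≤ x := by
    have : (x0 : ℝ) ≤ x := by linarith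
    exact_mod_cast this
  have b1 := hx0 x a6
  have b2 := Finset.sum_filter_add_sum_filter_not ((range (x + 1)).filter P)
    (fun p : ℕ => Real.log p ≤ l) (fun p => Real.log p)
  have b3 := Lower.theta_le (((range (x + 1)).filter P).filter fun p : ℕ => Real.log p ≤ l)
    (fun p hp => hP p (mem_filter.mp (mem_filter.mp hp).1).2) fun p hp => (mem_filter.mp hp).2
  have b4 : ∑ p ∈ ((range (x + 1)).filter P).filter (fun p : ℕ => ¬ Real.log p ≤ l), Real.log p ≤
      (((range (x + 1)).filter P).filter fun p : ℕ => ¬ Real.log p ≤ l).card * L := by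
    rw [← nsmul_eq_mul]
    refine Finset.sum_le_card_nsmul _ _ _ fun p hp => ?_
    have hp' := mem_filter.mp (mem_filter.mp hp).1
    rw [← hL]
    exact Real.log_le_log (by exact_mod_cast (hP p hp'.2).pos) (by
      exact_mod_cast (Nat.lt_succ_iff.mp (mem_range.mp hp'.1)).trans (Nat.div_le_self _ _))
  have b5 : 8 ≤ c * l := by rwa [div_le_iff₀' hc] at hl1
  have b6 : 8 * Real.exp l ≤ c * (Y / m) := by
    calc 8 * Real.exp l ≤ c * l * Real.exp l := by gcongr
      _ = c * (l * Real.exp l) := by ring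
      _ ≤ _ := by gcongr; linarith
  have b7 : c * (Y / m) ≤ c * (2 * x) := by gcongr
  linarith

/-- the count without parity conditions -/
lemma lowc_zero (good : ι → Prop) (A : ℕ → Finset ι) (hA : ∀ Y z, z ∈ A Y ↔ good z ∧ pr z ≤ Y)
    (hp : ∀ z, good z → (pr z).Prime) (hB : ∀ Y p, ((A Y).filter fun z => pr z = p).card ≤ b)
    (hb : 1 ≤ b) {c : ℝ} (hc : 0 < c) (h : ∀ᶠ x : ℕ in atTop,
      c * x ≤ ∑ p ∈ (range (x + 1)).filter fun p => ∃ z, good z ∧ pr z = p, Real.log p) :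
    ∀ᶠ Y : ℕ in atTop, 0 < Real.log Y ∧
      c / 8 * (Y / Real.log Y * Real.exp (∑ z ∈ A Y, 1 / (pr z : ℝ) - (24 * b ^ 2 + 2 * b))) ≤
        (((A Y).powerset.filter fun s => ∏ z ∈ s, pr z ≤ Y).card : ℝ) := by
  obtain ⟨x0, hx0⟩ := eventually_atTop.mp h
  have hb' : (1 : ℝ) ≤ b := by exact_mod_cast hb
  have hlog : Tendsto (fun Y : ℕ => Real.log Y / (12 * b)) atTop atTop :=
    (Real.tendsto_log_atTop.comp tendsto_natCast_atTop_atTop).atTop_div_const (by positivity)
  filter_upwards [hlog.eventually_gt_atTop 0, hlog.eventually_ge_atTop (8 / c),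
    hlog.eventually_ge_atTop (2 * x0)] with Y hl hl1 hl2
  set l := Real.log Y / (12 * b) with hldef
  have hL : Real.log Y = 12 * (b * l) := by rw [hldef]; field_simp
  have hbl : l ≤ b * l := le_mul_of_one_le_left hl.le hb'
  have hY0 : (0 : ℝ) < Y := by
    rcases Nat.eq_zero_or_pos Y with rfl | hY
    · rw [Nat.cast_zero, Real.log_zero] at hL; linarith
    · exact_mod_cast hY
  have hYe : (Y : ℝ) = Real.exp (12 * (b * l)) := by rw [← hL, Real.exp_log hY0]
  refine ⟨by linarith, ?_⟩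
  have hAp : ∀ z ∈ A Y, (pr z).Prime := fun z hz => hp z ((hA Y z).mp hz).1
  have hAl : ∀ z ∈ A Y, Real.log (pr z) ≤ 12 * (b * l) := fun z hz => by
    rw [← hL]
    exact Real.log_le_log (by exact_mod_cast (hAp z hz).pos) (by exact_mod_cast ((hA Y z).mp hz).2)
  set Z := (A Y).filter fun z => Real.log (pr z) ≤ l with hZ
  have hZp : ∀ z ∈ Z, (pr z).Prime := fun p h => hAp p (mem_filter.mp h).1
  have h1 := lowc_exp (A Y) hAp (hB Y) hl hAl
  have h2 := lowc_half Z hZp (lowc_sub (hB Y) (filter_subset _ _)) hb hl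
    fun p h => (mem_filter.mp h).2
  set G := Z.powerset.filter fun s : Finset ι => ∑ z ∈ s, Real.log (pr z) ≤ 4 * (b * l) with hG
  let B : Finset ι → Finset ℕ := fun s =>
    ((range (Y / ∏ z ∈ s, pr z + 1)).filter fun p => ∃ z, good z ∧ pr z = p).filter
      fun p : ℕ => ¬ Real.log p ≤ l
  have hGZ : ∀ s ∈ G, s ⊆ Z := fun s hs => mem_powerset.mp (mem_filter.mp hs).1
  have hBs : ∀ s ∈ G, c / 4 * (Y / (12 * (b * l))) * ∏ z ∈ s, 1 / (pr z : ℝ) ≤ (B s).card := by
    intro s hs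
    have hsp : ∀ z ∈ s, (pr z).Prime := fun p h => hZp p (hGZ s hs h)
    set m := ∏ z ∈ s, pr z with hm
    have hm0 : 0 < m := Finset.prod_pos fun p hp => (hsp p hp).pos
    have hm0' : (0 : ℝ) < m := by exact_mod_cast hm0
    have hmr : (m : ℝ) = ∏ z ∈ s, (pr z : ℝ) := by rw [hm]; push_cast; rfl
    have hml : Real.log m ≤ 4 * (b * l) := by
      rw [hmr, Real.log_prod fun p hp => by exact_mod_cast (hsp p hp).ne_zero]
      exact (mem_filter.mp hs).2
    have hme : (m : ℝ) ≤ Real.exp (4 * (b * l)) := (Real.log_le_iff_le_exp hm0').mp hml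
    have hw : ∏ z ∈ s, 1 / (pr z : ℝ) = 1 / m := by
      rw [hmr, Finset.prod_div_distrib, Finset.prod_const_one]
    have e1 : Real.exp (8 * l) ≤ Y / m := by
      rw [le_div_iff₀ hm0', hYe, show 12 * (b * l) = 8 * (b * l) + 4 * (b * l) by ring,
        Real.exp_add]
      gcongr
    have b8 := lowc_large _ (fun p ⟨z, hz, e⟩ => e ▸ hp z hz) hc hx0 hl hl1 hl2 hm0 e1 hL
    rw [hw]
    calc c / 4 * (Y / (12 * (b * l))) * (1 / m) = c / 4 * (Y / m) / (12 * (b * l)) := by ring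
      _ ≤ _ := by rw [div_le_iff₀ (by positivity)]; exact b8
  have hcard : (G.sigma B).card ≤ ((A Y).powerset.filter fun s => ∏ z ∈ s, pr z ≤ Y).card := by
    have hsel : ∀ q : (Σ _ : Finset ι, ℕ), ∃ t : Finset ι, q ∈ G.sigma B →
        ∃ z, good z ∧ pr z = q.2 ∧ t = insert z q.1 := by
      intro q
      by_cases hq : q ∈ G.sigma B
      · obtain ⟨z, h1, h2⟩ := (mem_filter.mp (mem_filter.mp (mem_sigma.mp hq).2).1).2
        exact ⟨_, fun _ => ⟨z, h1, h2, rfl⟩⟩
      · exact ⟨∅, fun h => absurd h hq⟩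
    choose f hf using hsel
    have hn : ∀ s ∈ G, ∀ z, ¬ Real.log (pr z) ≤ l → z ∉ s :=
      fun s hs p hp hps => hp (mem_filter.mp (hGZ s hs hps)).2
    refine Finset.card_le_card_of_injOn f ?_ ?_
    · rintro ⟨s, p⟩ hq
      obtain ⟨z, hz, rfl, e⟩ := hf _ (mem_coe.mp hq)
      obtain ⟨hs, hp⟩ := mem_sigma.mp (mem_coe.mp hq)
      obtain ⟨hp1, hp2⟩ := mem_filter.mp hp
      have hp5 : pr z ≤ Y / ∏ z ∈ s, pr z := Nat.lt_succ_iff.mp (mem_range.mp (mem_filter.mp hp1).1)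
      rw [e]
      refine mem_coe.mpr (mem_filter.mpr ⟨mem_powerset.mpr ?_, ?_⟩)
      · exact insert_subset ((hA Y z).mpr ⟨hz, hp5.trans (Nat.div_le_self _ _)⟩)
          ((hGZ s hs).trans (filter_subset _ _))
      · rw [Finset.prod_insert (hn s hs z hp2)]
        exact (Nat.mul_le_mul_right _ hp5).trans (Nat.div_mul_le_self _ _)
    · rintro ⟨s, p⟩ hq ⟨s', p'⟩ hq' e
      obtain ⟨z, -, rfl, e1⟩ := hf _ (mem_coe.mp hq)
      obtain ⟨z', -, rfl, e2⟩ := hf _ (mem_coe.mp hq')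
      obtain ⟨hs, hp⟩ := mem_sigma.mp (mem_coe.mp hq)
      obtain ⟨hs', hp'⟩ := mem_sigma.mp (mem_coe.mp hq')
      have hp2 := (mem_filter.mp hp).2
      have hp2' := (mem_filter.mp hp').2
      rw [e1, e2] at e
      simp only at e hs hs' hp2 hp2'
      have e3 : z = z' := by
        have : z ∈ insert z' s' := e ▸ mem_insert_self z s
        rcases mem_insert.mp this with h | h
        · exact h
        · exact absurd h (hn s' hs' z hp2)
      subst e3
      have e4 : s = s' := by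
        rw [← Finset.erase_insert (hn s hs z hp2), e, Finset.erase_insert (hn s' hs' z hp2)]
      subst e4
      rfl
  have hc2 : ((G.sigma B).card : ℝ) = ∑ s ∈ G, ((B s).card : ℝ) := by
    rw [Finset.card_sigma]; push_cast; rfl
  have hc3 := Finset.sum_le_sum hBs
  rw [← Finset.mul_sum, ← hc2] at hc3
  have hc4 : ((G.sigma B).card : ℝ) ≤
      ((A Y).powerset.filter fun s => ∏ z ∈ s, pr z ≤ Y).card := by exact_mod_cast hcard
  refine le_trans ?_ (hc3.trans hc4)
  rw [hL]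
  calc _ = c / 4 * (Y / (12 * (b * l))) *
        (Real.exp (∑ z ∈ A Y, 1 / (pr z : ℝ) - (24 * b ^ 2 + 2 * b)) / 2) := by ring
    _ ≤ _ := by
      refine mul_le_mul_of_nonneg_left ?_ (by positivity)
      linarith

lemma lowc_even (s t : Finset ι) (q : ι → Prop)
    (h : Even (s.filter q).card ↔ Even (t.filter q).card) :
    Even ((symmDiff s t).filter q).card := by
  have e : (symmDiff s t).filter q = (s.filter q \ t.filter q) ∪ (t.filter q \ s.filter q) := by
    ext z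
    simp only [mem_filter, Finset.mem_symmDiff, mem_union, Finset.mem_sdiff]
    tauto
  have h1 := card_sdiff_add_card_inter (s.filter q) (t.filter q)
  have h2 := card_sdiff_add_card_inter (t.filter q) (s.filter q)
  rw [inter_comm] at h2
  rw [e, card_union_of_disjoint disjoint_sdiff_sdiff]
  rw [Nat.even_iff, Nat.even_iff] at h
  rw [Nat.even_iff]
  omega

lemma lowc_prod (s t : Finset ι) (hs : ∀ z ∈ s, 1 ≤ pr z) (ht : ∀ z ∈ t, 1 ≤ pr z) :
    ∏ z ∈ symmDiff s t, pr z ≤ (∏ z ∈ s, pr z) * ∏ z ∈ t, pr z := by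
  rw [Finset.symmDiff_def, Finset.prod_union disjoint_sdiff_sdiff]
  exact Nat.mul_le_mul
    (Finset.prod_le_prod_of_subset_of_one_le' sdiff_subset fun z hz _ => hs z hz)
    (Finset.prod_le_prod_of_subset_of_one_le' sdiff_subset fun z hz _ => ht z hz)

end aux

theorem p_LOWC :
    S_LOWC := by
  intro ι T _ pr good τ B D hD hp hB ⟨c, hc, h⟩
  have := Fintype.ofFinite T
  have hfin : ∀ p, {z | good z ∧ pr z = p}.Finite := fun p => Set.finite_of_encard_le_coe (hB p)
  obtain ⟨A, hA⟩ : ∃ A : ℕ → Finset ι, ∀ Y z, z ∈ A Y ↔ good z ∧ pr z ≤ Y :=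
    ⟨fun Y => (range (Y + 1)).biUnion fun p => (hfin p).toFinset, fun Y z => by
      simp [and_comm]⟩
  have hB' : ∀ Y p, ((A Y).filter fun z => pr z = p).card ≤ B + 1 := fun Y p => by
    have h1 : (((A Y).filter fun z => pr z = p : Finset ι) : Set ι).encard ≤ B :=
      le_trans (Set.encard_le_encard (t := {z | good z ∧ pr z = p}) fun z hz =>
        ⟨((hA Y z).mp (mem_filter.mp hz).1).1, (mem_filter.mp hz).2⟩) (hB p)
    rw [Set.encard_coe_eq_coe_finsetCard] at h1
    exact Nat.le_succ_of_le (by exact_mod_cast h1)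
  have hE : ∀ X, ∑ p ∈ range (X + 1), ({z | good z ∧ pr z = p}.ncard : ℝ) / p =
      ∑ z ∈ A X, 1 / (pr z : ℝ) := fun X => by
    rw [← Finset.sum_fiberwise_of_maps_to (s := A X) (t := range (X + 1)) (g := pr)
      fun z hz => mem_range.mpr (Nat.lt_succ_of_le ((hA X z).mp hz).2)]
    refine Finset.sum_congr rfl fun p hp' => ?_
    have e : {z | good z ∧ pr z = p} = ((A X).filter fun z => pr z = p : Finset ι) := by
      ext z
      simp only [Set.mem_ofPred_eq, coe_filter, hA]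
      exact ⟨fun h => ⟨⟨h.1, h.2 ▸ Nat.lt_succ_iff.mp (mem_range.mp hp')⟩, h.2⟩,
        fun h => ⟨h.1.1, h.2⟩⟩
    rw [e, Set.ncard_coe_finset, Finset.sum_congr rfl fun z hz => by rw [(mem_filter.mp hz).2],
      Finset.sum_const, nsmul_eq_mul, mul_one_div]
  let w : Finset ι → T → Prop := fun s t => Even (s.filter fun z => τ z = t).card
  have hex : ∀ a : T → Prop, ∃ t : Finset ι, (∀ z ∈ t, good z) ∧
      ∀ s : Finset ι, (∀ z ∈ s, good z) → w s = a → w t = a := by
    intro a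
    by_cases ha : ∃ s : Finset ι, (∀ z ∈ s, good z) ∧ w s = a
    · obtain ⟨t, ht, hta⟩ := ha
      exact ⟨t, ht, fun _ _ _ => hta⟩
    · exact ⟨∅, by simp, fun s hs hsa => absurd ⟨s, hs, hsa⟩ ha⟩
  choose r hrP hr using hex
  have hpos : ∀ s : Finset ι, (∀ z ∈ s, good z) → 0 < ∏ z ∈ s, pr z :=
    fun s hs => Finset.prod_pos fun z hz => (hp z (hs z hz)).pos
  set R := ∏ a : T → Prop, ∏ z ∈ r a, pr z with hR
  have hR0 : 0 < R := Finset.prod_pos fun a _ => hpos _ (hrP a)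
  set E := D * R with hEd
  have hE0 : 0 < E := Nat.mul_pos (Nat.pos_of_ne_zero hD) hR0
  have hE0' : (0 : ℝ) < E := by exact_mod_cast hE0
  set M := Fintype.card (T → Prop) with hM
  have hM0 : (0 : ℝ) < M := by exact_mod_cast Fintype.card_pos
  set b := B + 1 with hb
  set κ : ℝ := 24 * b ^ 2 + 2 * b with hκ
  refine ⟨c / 8 * (1 / (2 * E)) * Real.exp (-κ - b * E) / M, by positivity, ?_⟩
  filter_upwards [(Nat.tendsto_div_const_atTop hE0.ne').eventually
    (lowc_zero good A hA hp hB' (by omega) hc (by convert h)), eventually_ge_atTop E]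
    with X ⟨hL, hX⟩ hXE
  set Y := X / E with hY
  set S := (A X).powerset.filter fun s => D * ∏ z ∈ s, pr z ≤ X ∧ ∀ t, w s t with hS
  have hmem : ∀ s : Finset ι, s ∈ S ↔
      (∀ z ∈ s, good z) ∧ D * ∏ z ∈ s, pr z ≤ X ∧ ∀ t, w s t := fun s => by
    rw [hS, mem_filter, mem_powerset]
    refine and_congr_left fun k => ⟨fun h z hz => ((hA X z).mp (h hz)).1, fun h z hz => ?_⟩
    refine (hA X z).mpr ⟨h z hz, le_trans ?_ k.1⟩
    exact (Nat.le_of_dvd (hpos s h) (Finset.dvd_prod_of_mem pr hz)).trans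
      (Nat.le_mul_of_pos_left _ (Nat.pos_of_ne_zero hD))
  have hset : {s : Finset ι | (∀ z ∈ s, good z) ∧ D * ∏ z ∈ s, pr z ≤ X ∧
      ∀ t, Even (s.filter fun z => τ z = t).card} = (S : Set (Finset ι)) :=
    Set.ext fun s => (hmem s).symm
  have hcard : ((A Y).powerset.filter fun s => ∏ z ∈ s, pr z ≤ Y).card ≤
      ((univ : Finset (T → Prop)) ×ˢ S).card := by
    refine Finset.card_le_card_of_injOn (fun s => (w s, symmDiff s (r (w s)))) ?_ ?_
    · intro s hs
      obtain ⟨hs1, hs2⟩ := mem_filter.mp (mem_coe.mp hs)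
      have hsP : ∀ z ∈ s, good z := fun z hz => ((hA Y z).mp (mem_powerset.mp hs1 hz)).1
      have h1 : ∏ z ∈ r (w s), pr z ≤ R :=
        Nat.le_of_dvd hR0 (Finset.dvd_prod_of_mem (fun a => ∏ z ∈ r a, pr z) (mem_univ _))
      have h2 := (lowc_prod s (r (w s)) (fun z hz => (hp z (hsP z hz)).pos)
        fun z hz => (hp z (hrP _ z hz)).pos).trans (Nat.mul_le_mul hs2 h1)
      refine mem_coe.mpr (mem_product.mpr ⟨mem_univ _, (hmem _).mpr ⟨fun z hz => ?_, ?_,
        fun t => ?_⟩⟩)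
      · rcases Finset.mem_symmDiff.mp hz with h | h
        exacts [hsP z h.1, hrP _ z h.1]
      · calc _ ≤ D * (Y * R) := Nat.mul_le_mul_left _ h2
          _ = Y * E := by rw [hEd]; ring
          _ ≤ X := Nat.div_mul_le_self _ _
      · have := lowc_even s (r (w s)) (fun z => τ z = t)
          (by convert (congrFun (hr _ s hsP rfl) t).symm.to_iff)
        convert this
    · intro s _ s' _ e
      obtain ⟨e1, e2⟩ := Prod.mk.inj e
      rw [← e1] at e2
      exact symmDiff_left_injective _ e2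
  rw [Finset.card_product, Finset.card_univ] at hcard
  have hc2 : ((((A Y).powerset.filter fun s => ∏ z ∈ s, pr z ≤ Y).card : ℕ) : ℝ) ≤
      M * S.card := by exact_mod_cast hcard
  have a1 : 1 ≤ Y := (Nat.one_le_div_iff hE0).mpr hXE
  have a2 : X < E * (Y + 1) := Nat.lt_mul_div_succ X hE0
  have a3 : X ≤ E * (2 * Y) := a2.le.trans (Nat.mul_le_mul_left _ (by omega))
  have a4 : (X : ℝ) ≤ E * (2 * (Y : ℝ)) := by exact_mod_cast a3
  have a5 : (X : ℝ) / (2 * E) ≤ Y := by rw [div_le_iff₀ (by positivity)]; linarith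
  have hYX : Y ≤ X := Nat.div_le_self _ _
  have a6 : Real.log Y ≤ Real.log X :=
    Real.log_le_log (by exact_mod_cast a1) (by exact_mod_cast hYX)
  have a7 : ∑ z ∈ A X, 1 / (pr z : ℝ) ≤ ∑ z ∈ A Y, 1 / (pr z : ℝ) + b * E := by
    have hsub : A Y ⊆ A X := fun z hz =>
      (hA X z).mpr ⟨((hA Y z).mp hz).1, ((hA Y z).mp hz).2.trans hYX⟩
    rw [← Finset.sum_sdiff hsub, add_comm]
    refine add_le_add le_rfl ?_
    have b1 : (X : ℝ) + 1 ≤ E * (Y + 1) := by exact_mod_cast a2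
    have b2 : (A X \ A Y).card ≤ b * (X + 1) := by
      have := Finset.card_le_mul_card_image_of_maps_to (s := A X) (t := range (X + 1)) (f := pr)
        (fun z hz => mem_range.mpr (Nat.lt_succ_of_le ((hA X z).mp hz).2)) b fun p _ => hB' X p
      rw [card_range] at this
      exact (Finset.card_le_card sdiff_subset).trans this
    calc _ ≤ (A X \ A Y).card • (1 / ((Y : ℝ) + 1)) := by
          refine Finset.sum_le_card_nsmul _ _ _ fun z hz => ?_
          obtain ⟨hp1, hp2⟩ := mem_sdiff.mp hz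
          have : Y + 1 ≤ pr z := by
            by_contra hlt
            exact hp2 ((hA Y z).mpr ⟨((hA X z).mp hp1).1, by omega⟩)
          have : (Y : ℝ) + 1 ≤ pr z := by exact_mod_cast this
          gcongr
      _ ≤ (b * ((X : ℝ) + 1)) * (1 / ((Y : ℝ) + 1)) := by
          rw [nsmul_eq_mul]
          gcongr
          exact_mod_cast b2
      _ ≤ b * E := by
          rw [mul_assoc, mul_one_div]
          gcongr
          rw [div_le_iff₀ (by positivity)]
          exact b1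
  have hfin2 : c / 8 * (X / (2 * E) / Real.log X *
      Real.exp (∑ z ∈ A X, 1 / (pr z : ℝ) + (-κ - b * E))) ≤ M * S.card := by
    refine le_trans ?_ (hX.trans hc2)
    gcongr
    linarith
  rw [Real.exp_add] at hfin2
  rw [hset, Set.ncard_coe_finset, MT, hE]
  calc _ = c / 8 * (X / (2 * E) / Real.log X *
      (Real.exp (∑ z ∈ A X, 1 / (pr z : ℝ)) * Real.exp (-κ - b * E))) / M := by ring
    _ ≤ _ := by rw [div_le_iff₀ hM0]; linarith

end Pool.Agent.P.MP_ab3ecb_nt.Inv
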