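import Pool.Agent.P.MP_ab3ecb_nt.Inv.C.Iface
import Pool.Agent.P.MP_ab3ecb_nt.Dens3

/-! Step MOM of the twist project. -/

namespace Pool.Agent.P.MP_ab3ecb_nt.Inv

open Polynomial NumberField IsDedekindDomain TensorProduct Finset Filter Asymptotics
open scoped Classical
open St (supp)

set_option linter.unusedSectionVars false

section fin

variable {L J T ι : Type} [Fintype L] [Fintype J] [Fintype T] [Fintype ι]

lemma mom_sum (P : Finset ι → Prop) [DecidablePred P] (φ : ι → T → ℝ) :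
    ∑ s with P s, ∏ a ∈ s, ∑ τ, φ a τ =
      ∑ d : ι → Option T, (if P (supp d) then 1 else 0) * ∏ a, (d a).elim 1 (φ a) := by
  refine Eq.trans ?_ (fiber_sum (ι := ι) (Option.isSome : Option T → Bool)
    (fun c => if P (univ.filter fun a => c a) then 1 else 0) fun a o _ => o.elim 1 (φ a)).symm
  rw [Finset.sum_filter]
  refine Finset.sum_nbij' (fun s a => decide (a ∈ s)) (fun c => univ.filter fun a => c a)
    (by simp) (by simp) ?_ ?_ fun s _ => ?_
  · intro s _
    ext a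
    simp
  · intro c _
    funext a
    simp
  · have e : (univ.filter fun a => decide (a ∈ s) = true) = s := by
      ext a
      simp
    rw [e, ite_mul, one_mul, zero_mul]
    congr 1
    conv_lhs => rw [← e, Finset.prod_filter]
    refine Finset.prod_congr rfl fun a _ => ?_
    rw [Finset.sum_filter, Fintype.sum_option]
    by_cases h : a ∈ s <;> simp [h]

/-- The typings that come from a surviving labelling. -/
def mom_Sv (σ : T3 L J ι) (typ : L → T) (d : ι → Option T) : Prop :=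
  ∃ (s : Finset ι) (lab : ι → L), ∏ a ∈ s, σ.pr a ≤ σ.X ∧
    (∀ a ∈ s, lab a ∈ σ.R a ∧ ∀ j ∈ σ.gens (lab a),
      σ.sg a (lab a) j * ∏ b ∈ s.erase a, σ.ψ a (lab a) j b (lab b) = 1) ∧
    d = fun a => if a ∈ s then some (typ (lab a)) else none

/-- The indicator of the allowed types. -/
noncomputable def mom_ph (σ : T3 L J ι) (typ : L → T) (Λ : Finset L) (a : ι) (τ : T) : ℝ :=
  if σ.big a then if ∃ l ∈ σ.R a, l ∈ Λ ∧ typ l = τ then 1 else 0 else 1

lemma mom_surv_le {σ : T3 L J ι} (typ : L → T) (H : σ.OK) (ok : Finset L → Prop) :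
    ((univ.filter (mom_Sv σ typ)).card : ℝ) ≤
      (∑ s : Finset ι with ∏ a ∈ s, σ.pr a ≤ σ.X, ∏ _a ∈ s, ∑ _τ : T, (2 : ℝ)) / 2 ^ σ.N +
      ∑ Λ with ¬ ok Λ, ∑ s : Finset ι with ∏ a ∈ s, σ.pr a ≤ σ.X,
        ∏ a ∈ s, ∑ τ, mom_ph σ typ Λ a τ +
      ∑ U with ok (U.image Prod.fst), σ.TT U := by
  have ht0 : ∀ c : ι → Option L,
      0 ≤ (if ok (σ.actset c) then σ.cut (supp c) else 0) * ∏ a, σ.GG a c := fun c =>
    mul_nonneg (by split_ifs; exacts [T3.cut_nonneg _, le_rfl])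
      (Finset.prod_nonneg fun a _ => T3.GG_nonneg H a c)
  have e := fun φ : ι → T → ℝ => mom_sum (fun s : Finset ι => ∏ a ∈ s, σ.pr a ≤ σ.X) φ
  rw [e, Finset.sum_congr rfl fun Λ _ => e (mom_ph σ typ Λ)]
  rw [T3.sum_TT, ← Finset.sum_fiberwise (s := univ) (g := fun c : ι → Option L => Option.map typ ∘ c),
    Finset.sum_comm, Finset.card_eq_sum_ones, Nat.cast_sum, Finset.sum_div,
    ← Finset.sum_add_distrib, Finset.sum_filter, ← Finset.sum_add_distrib]
  refine Finset.sum_le_sum fun d _ => ?_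
  have k0 : ∀ Λ, 0 ≤ (if ∏ a ∈ supp d, σ.pr a ≤ σ.X then (1 : ℝ) else 0) *
      ∏ a, (d a).elim 1 (mom_ph σ typ Λ a) := fun Λ =>
    mul_nonneg (by split_ifs <;> norm_num) (Finset.prod_nonneg fun a _ => by
      cases d a with
      | none => simp
      | some τ =>
        simp only [Option.elim_some, mom_ph]
        split_ifs <;> norm_num)
  have k1 := Finset.sum_nonneg fun Λ (_ : Λ ∈ univ.filter fun Λ => ¬ ok Λ) => k0 Λ
  have k2 := Finset.sum_nonneg
    fun c (_ : c ∈ univ.filter fun c : ι → Option L => Option.map typ ∘ c = d) => ht0 c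
  have k3 : (0 : ℝ) ≤ ((if ∏ a ∈ supp d, σ.pr a ≤ σ.X then (1 : ℝ) else 0) *
      ∏ a, (d a).elim 1 fun _ => (2 : ℝ)) / 2 ^ σ.N :=
    div_nonneg (mul_nonneg (by split_ifs <;> norm_num) (Finset.prod_nonneg fun a _ => by
      cases d a <;> simp)) (by positivity)
  by_cases hs : mom_Sv σ typ d
  swap
  · rw [if_neg hs]
    linarith
  rw [if_pos hs, Nat.cast_one]
  obtain ⟨s, lab, hX, hlab, hd⟩ := hs
  have hds : supp d = s := by
    ext a
    by_cases h : a ∈ s <;> simp [supp, hd, h]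
  rw [hds, if_pos hX] at k0 k1 k3 ⊢
  by_cases k4 : s.card ≤ σ.N
  swap
  · have : (1 : ℝ) ≤ (1 * ∏ a, (d a).elim 1 fun _ => (2 : ℝ)) / 2 ^ σ.N := by
      rw [one_mul, ← Finset.prod_subset (subset_univ s) fun a _ ha => by simp [hd, ha],
        Finset.prod_congr rfl (g := fun _ => (2 : ℝ)) fun a ha => by simp [hd, ha],
        Finset.prod_const, one_le_div (by positivity)]
      exact pow_le_pow_right₀ one_le_two (by omega)
    linarith
  set c : ι → Option L := fun a => if a ∈ s then some (lab a) else none with hc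
  have hcs : supp c = s := by
    ext a
    by_cases h : a ∈ s <;> simp [supp, hc, h]
  by_cases k5 : ok (σ.actset c)
  swap
  · have : 1 ≤ ∑ Λ with ¬ ok Λ, 1 * ∏ a, (d a).elim 1 (mom_ph σ typ Λ a) := by
      refine le_trans (le_of_eq ?_)
        (Finset.single_le_sum (fun Λ _ => k0 Λ) (mem_filter.mpr ⟨mem_univ _, k5⟩))
      rw [one_mul]
      refine (Finset.prod_eq_one fun a _ => ?_).symm
      by_cases ha : a ∈ s
      swap
      · simp [hd, ha]
      simp only [hd, if_pos ha, Option.elim_some, mom_ph]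
      split_ifs with k6 k7
      · rfl
      · exact absurd ⟨lab a, (hlab a ha).1,
          mem_filter.mpr ⟨mem_univ _, a, mem_tup.mpr (by simp [hc, ha]), k6⟩, rfl⟩ k7
      · rfl
    linarith
  refine le_add_of_nonneg_of_le (by linarith) (le_trans (le_of_eq ?_)
    (Finset.single_le_sum (fun c _ => ht0 c) (a := c) (mem_filter.mpr ⟨mem_univ _, ?_⟩)))
  swap
  · funext a
    by_cases h : a ∈ s <;> simp [hc, hd, h]
  rw [if_pos k5, hcs, T3.cut, if_pos hX, T3.h, if_pos k4, one_mul]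
  refine (Finset.prod_eq_one fun a _ => ?_).symm
  by_cases h : a ∈ s
  swap
  · simp [T3.GG, hc, h]
  have e : c a = some (lab a) := by simp [hc, h]
  rw [T3.GG, e, Option.elim_some, if_pos (hlab a h).1]
  split_ifs with h1
  · have h2 : ∀ j, σ.sym a (lab a) j c = ∏ b ∈ s.erase a, σ.ψ a (lab a) j b (lab b) := fun j => by
      rw [T3.sym, ← Finset.prod_subset (subset_univ (s.erase a)) fun b _ hb => by
        by_cases h3 : b ∈ s
        · obtain rfl : b = a := by simpa [h3] using hb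
          simp [hc, h3]
        · simp [hc, h3]]
      refine Finset.prod_congr rfl fun b hb => ?_
      simp [hc, mem_of_mem_erase hb, ne_of_mem_erase hb]
    simp only [h2]
    rw [Finset.prod_congr rfl fun j hj => congrArg (1 + ·) ((hlab a h).2 j hj),
      Finset.prod_const, ← mul_pow]
    norm_num
  · rfl

lemma mom_card_le (σ : S3 L J ℕ) (typ : L → T) (M Y X N : ℕ) :
    ((TS T M X).filter (SurvK σ typ)).card ≤
      (univ.filter (mom_Sv (σ.res (Qs M X) Y X N) typ)).card := by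
  refine Finset.card_le_card_of_surjOn (fun d : Qs M X → Option T =>
    (univ.filter fun z : Qs M X × T => d z.1 = some z.2).image fun z => (z.1.1, z.2)) ?_
  intro S hS
  obtain ⟨h0, lab, h3⟩ := mem_filter.mp (mem_coe.mp hS)
  obtain ⟨h1, h2⟩ := mem_filter.mp h0
  have h4 : ∀ p ∈ S.image Prod.fst, p ∈ Qs M X := fun p hp => by
    obtain ⟨z, hz, rfl⟩ := mem_image.mp hp
    exact (mem_product.mp (mem_powerset.mp h1 hz)).1
  refine ⟨_, mem_coe.mpr (mem_filter.mpr ⟨mem_univ _, (S.image Prod.fst).subtype (· ∈ Qs M X),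
    fun a => lab a, ?_, fun a ha => ?_, rfl⟩), ?_⟩
  · refine (Finset.prod_subtype_of_mem (fun p => p) h4).trans_le (le_of_eq_of_le ?_ h2)
    exact Finset.prod_image fun z hz w hw h => Prod.ext h (by
      rw [← (h3 z hz).2.1, ← (h3 w hw).2.1, h])
  · obtain ⟨z, hz, e⟩ := mem_image.mp (mem_subtype.mp ha)
    have h5 := h3 z hz
    rw [e] at h5
    refine ⟨h5.1, fun j hj => Eq.trans (congrArg _ ?_) (h5.2.2 j hj)⟩
    refine Finset.prod_bij (fun b _ => (b : ℕ)) (fun b hb => ?_)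
      (fun _ _ _ _ h => Subtype.ext h) (fun b hb => ?_) fun _ _ => rfl
    · simp only [mem_erase, mem_subtype] at hb ⊢
      exact ⟨fun h => hb.1 (Subtype.ext h), hb.2⟩
    · simp only [mem_erase, mem_subtype] at hb ⊢
      exact ⟨⟨b, h4 b hb.2⟩, ⟨fun h => hb.1 (congrArg Subtype.val h), hb.2⟩, rfl⟩
  · ext z
    simp only [mem_image, mem_filter, mem_univ, true_and, mem_subtype]
    constructor
    · rintro ⟨⟨a, τ⟩, h5, rfl⟩
      obtain ⟨⟨w, hw, e⟩, h6⟩ := Option.ite_none_right_eq_some.mp h5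
      have h7 := (h3 w hw).2.1
      rw [e, Option.some.inj h6] at h7
      rwa [show ((a : ℕ), τ) = w from Prod.ext e.symm h7]
    · intro hz
      refine ⟨(⟨z.1, h4 _ (mem_image_of_mem _ hz)⟩, z.2), ?_, rfl⟩
      rw [if_pos ⟨z, hz, rfl⟩]
      exact congrArg some (h3 z hz).2.1

end fin

theorem mom_fam {L J T : Type} [Fintype L] [Fintype J] [Fintype T] (typ : L → T)
    (gens : L → Finset J) (R : ℕ → Finset L) (ψ : ℕ → L → J → ℕ → L → ℝ) (M : ℕ) (E : ℕ → ℝ)
    (ok : Finset L → Prop) (lk : L × Finset J × Bool → L × Finset J × Bool → Prop)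
    (sg : ℕ → ℕ → L → J → ℝ) (hsg : ∀ X a l j, |sg X a l j| ≤ 1)
    (hψ : ∀ a l j b l', |ψ a l j b l'| ≤ 1)
    (h1 : ∀ Λ, ¬ ok Λ →
      Sav M E fun p => (univ.filter fun τ => ∃ l ∈ R p, l ∈ Λ ∧ typ l = τ).card)
    (h2 : ∀ U : Finset (L × Finset J × Bool), ok (U.image Prod.fst) →
      (∀ u ∈ U, ∀ v ∈ U, ¬ lk u v) → Sav M E fun p =>
        ∑ w ∈ U with w.1 ∈ R p ∧ w.2.1 ⊆ gens w.1, (1 / 2 : ℝ) ^ ((gens w.1).card + 1))
    (C0 n0 : ℕ) (hR : ∀ u v, lk u v → u.2.1 ⊆ gens u.1 → v.2.1 ⊆ gens v.1 →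
      u ≠ v ∧ ∃ κ : ℕ → ℕ → ℝ, (∀ a, κ a a = 0) ∧ (∀ a b, |κ a b| ≤ 1) ∧
        (∀ a b, a.Prime → ¬ a ∣ M → b.Prime → ¬ b ∣ M → a ≠ b → u.1 ∈ R a → v.1 ∈ R b →
          (∏ j ∈ u.2.1, ψ a u.1 j b v.1) * ∏ j ∈ v.2.1, ψ b v.1 j a u.1 = κ a b) ∧
        ∀ X R' Z K Y, 1 ≤ Z → (Z ^ 2 * C0 ^ (R' + 1) * (C0 * K * R' + 1) ^ R') ^ n0 ≤ Y →
          Rect (fun a : Qs M X => (a : ℕ)) (fun a b => κ a b) (fun a => u.1 ∈ R a)
            (fun a => v.1 ∈ R a) R' Z K Y) :
    Sm E fun X => ((TS T M X).filter (SurvK ⟨gens, R, sg X, ψ⟩ typ)).card := by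
  set t := Fintype.card T with ht
  set w := Fintype.card (L × Finset J × Bool) with hw
  set B : ℕ := 3 * w + 3 with hB
  set D : ℕ := n0 * (4 * B + 5 * C0 + 8) + B + 2 with hD
  set K : ℕ → ℕ := fun X => Nat.log 2 X + 1 with hK
  set u : ℕ → ℕ := fun X => (t + 1) * (Nat.log 2 (K X) + 1) with hu
  set τ : ∀ X : ℕ, T3 L J (Qs M X) := fun X =>
    (⟨gens, R, sg X, ψ⟩ : S3 L J ℕ).res (Qs M X) (2 ^ (D * u X ^ 2)) X (2 * u X) with hτ
  have hO : ∀ X, (τ X).OK := fun X => ⟨fun _ _ _ => hsg _ _ _ _, fun _ _ _ _ _ => hψ _ _ _ _ _,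
    fun a => (mem_filter.mp a.2).2.1, Subtype.val_injective⟩
  obtain ⟨ω0, s0, hω0⟩ : ∃ ω, Sav M E ω ∧ ∀ p, 0 ≤ ω p := by
    by_cases h : ok ∅
    · exact ⟨_, h2 ∅ (by simpa using h) (by simp), fun p => by positivity⟩
    · exact ⟨_, h1 ∅ h, fun p => by positivity⟩
  have hpar : ∀ᶠ X : ℕ in atTop, 1 < X ∧ 1 ≤ Real.log X ∧ Real.log X ≤ K X ∧ X < 2 ^ K X ∧
      K X < 2 ^ u X ∧ u X ≤ (t + 1) * K X ∧ 1 ≤ u X ∧
      u X ≤ (t + 1) * (9 * Real.log (Real.log X)) ∧ K X ^ (t + 1) ≤ 2 ^ u X := by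
    filter_upwards [params3] with X h
    obtain ⟨a1, a2, a3, a4, a5, a6⟩ := h.2.2 _ _ rfl rfl
    refine ⟨h.1, h.2.1, a1, a2, a3.trans_le (Nat.pow_le_pow_right two_pos
      (Nat.le_mul_of_pos_left _ t.succ_pos)), Nat.mul_le_mul_left _ a4,
      Nat.mul_pos t.succ_pos a5, ?_, ?_⟩
    · simp only [hu, Nat.cast_mul]
      exact mul_le_mul (by simp) a6 (by positivity) (by positivity)
    · simp only [hu]
      rw [pow_mul']
      exact Nat.pow_le_pow_left a3.le _
  have hY : ∀ᶠ X : ℕ in atTop, 1 ≤ Real.log (2 ^ (D * u X ^ 2) : ℕ) ∧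
      Real.log (2 ^ (D * u X ^ 2) : ℕ) ≤ 81 * (t + 1) ^ 2 * D * Real.log (Real.log X) ^ 2 := by
    filter_upwards [hpar] with X ⟨_, _, _, _, _, _, l9, hu, _⟩
    have hu1 : (1 : ℝ) ≤ u X := by exact_mod_cast l9
    have hE2 : (2 : ℝ) ≤ D := by exact_mod_cast (by omega : 2 ≤ D)
    have hEu : (2 : ℝ) ≤ D * u X ^ 2 := by nlinarith
    have : (u X : ℝ) ^ 2 ≤ ((t + 1) * (9 * Real.log (Real.log X))) ^ 2 := by gcongr
    rw [Nat.cast_pow, Real.log_pow]
    push_cast
    exact ⟨by nlinarith [Real.log_two_gt_d9], by nlinarith [Real.log_two_lt_d9]⟩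
  have a1 : Sm E fun X => (∑ s : Finset (Qs M X) with ∏ a ∈ s, (τ X).pr a ≤ (τ X).X,
      ∏ _a ∈ s, ∑ _τ : T, (2 : ℝ)) / 2 ^ (τ X).N := by
    refine Sm.of_sav s0 hω0 (C := 3 * (1 + 2 * (t * 2)) * Real.exp (6 * t)) (by positivity) ?_
    filter_upwards [hpar] with X ⟨h3, h1, l1, _, _, _, _, _, l6⟩
    rw [Finset.sum_const, card_univ, nsmul_eq_mul, ← ht]
    have hl0 : 0 < Real.log X := by linarith
    have k1 := (le_div_iff₀ hl0).mpr (hall_tenenbaum (τ X).pr (hO X).hp (hO X).inj (fun _ => t * 2)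
      (t * 2) (fun _ => by positivity) (fun _ => le_rfl) (by positivity) X h3)
    have k2 := sum_prime_rpow_le (τ X).pr (hO X).hp (hO X).inj univ (σ := 1 + 1 / Real.log X)
      (by simpa using hl0) (by linarith [(div_le_one hl0).mpr h1])
    rw [add_sub_cancel_left, one_div_one_div] at k2
    rw [← Finset.mul_sum] at k1
    have hK2 : Real.log X ^ (t * 2) ≤ 2 ^ (2 * u X) := by
      have : ((K X : ℝ) ^ (t + 1)) ^ 2 ≤ 2 ^ (2 * u X) := by
        rw [pow_mul']
        exact_mod_cast Nat.pow_le_pow_left l6 2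
      refine le_trans ?_ this
      rw [← pow_mul]
      exact (pow_le_pow_left₀ hl0.le l1 _).trans (pow_le_pow_right₀ (h1.trans l1) (by omega))
    generalize Real.log X = lam at *
    calc _ ≤ 3 * (1 + 2 * (t * 2)) * X * Real.exp (t * 2 * (Real.log lam + 3)) / lam /
          lam ^ (t * 2) := by
          refine div_le_div₀ (by positivity) (k1.trans ?_) (by positivity) hK2
          gcongr
      _ = 3 * (1 + 2 * (t * 2)) * Real.exp (6 * t) * (X / lam) := by
          rw [show t * 2 * (Real.log lam + 3) = (t * 2 : ℕ) * Real.log lam + 6 * t by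
            push_cast; ring, Real.exp_add, Real.exp_nat_mul, Real.exp_log hl0]
          field_simp
  have a2 : ∀ Λ, ¬ ok Λ → Sm E fun X => ∑ s : Finset (Qs M X) with
      ∏ a ∈ s, (τ X).pr a ≤ (τ X).X, ∏ a ∈ s, ∑ θ, mom_ph (τ X) typ Λ a θ := fun Λ h =>
    ((Sm.main (h1 Λ h) (fun p => by positivity) (G := t)
      (fun p => Nat.cast_le.mpr (card_le_univ _)) t
      hY).mono (Eventually.of_forall fun X => le_of_eq (Finset.sum_congr rfl fun s _ =>
        Finset.prod_congr rfl fun a _ => by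
          unfold mom_ph
          by_cases hb : (τ X).big a
          · simp only [if_pos hb]
            rw [if_pos (show 2 ^ (D * u X ^ 2) < a.1 from hb), Finset.sum_boole]
            rfl
          · simp only [if_neg hb]
            rw [if_neg (show ¬ 2 ^ (D * u X ^ 2) < a.1 from hb), Finset.sum_const, card_univ,
              nsmul_eq_mul, mul_one])))
  have a3 : ∀ U : Finset (L × Finset J × Bool), ok (U.image Prod.fst) →
      Sm E fun X => (τ X).TT U := by
    intro U hU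
    by_cases hl : ∀ u ∈ U, ∀ v ∈ U, ¬ lk u v
    · refine (Sm.main (h2 U hU hl) (fun p => by positivity) (G := U.card) (fun p => ?_)
        (Fintype.card L) hY).mono (Eventually.of_forall fun X => (T3.main_bound (hO X) U).trans ?_)
      · refine (Finset.sum_le_card_nsmul _ _ 1 fun _ _ =>
          pow_le_one₀ (by norm_num) (by norm_num)).trans ?_
        rw [nsmul_eq_mul, mul_one, Nat.cast_le]
        exact card_filter_le _ _
      · rw [Finset.sum_filter]
        refine Finset.sum_le_sum fun s _ => ?_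
        have k1 : 0 ≤ ∏ a ∈ s, (τ X).gm U a := Finset.prod_nonneg fun a _ => by
          unfold T3.gm
          split_ifs <;> positivity
        unfold T3.cut
        change (if ∏ a ∈ s, a.1 ≤ X then _ else _) * _ ≤ _
        split_ifs
        · refine (mul_le_of_le_one_left k1 (T3.h_le _)).trans (le_of_eq ?_)
          exact Finset.prod_congr rfl fun a _ => if_congr Iff.rfl rfl rfl
        · rw [zero_mul]
    simp only [not_forall, not_not] at hl
    obtain ⟨x, hx, y, hy, hl⟩ := hl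
    refine Sm.of_sav s0 hω0 (C := 2 * (2 * t + 5) * Real.exp 9 ^ w) (by positivity) ?_
    filter_upwards [hpar] with X ⟨h3, h1, l1, l3, l6, l8, l9, _⟩
    have hl0 : 0 < Real.log X := by linarith
    by_cases hxg : x.2.1 ⊆ gens x.1
    swap
    · rw [T3.TT_zero (σ := τ X) hx hxg]
      positivity
    by_cases hyg : y.2.1 ⊆ gens y.1
    swap
    · rw [T3.TT_zero (σ := τ X) hy hyg]
      positivity
    obtain ⟨hxy, κ, k0, k1, k2, k3⟩ := hR x y hl hxg hyg
    have hK0 : 0 < K X := Nat.succ_pos _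
    refine (T3.error_bound (hO X) (m := K X ^ B) (K := K X) (Nat.one_le_pow _ _ hK0) ?_ l3 U hx hy
      hxy (κ := fun a b => κ a b) (fun a => k0 a) (fun a b => k1 a b) (fun a b hab =>
        k2 a b (mem_filter.mp a.2).2.1 (mem_filter.mp a.2).2.2 (mem_filter.mp b.2).2.1
          (mem_filter.mp b.2).2.2 fun h => hab (Subtype.ext h))
      (k3 X _ _ _ _ (Nat.one_le_pow _ _ (Nat.one_le_pow _ _ hK0))
        (param_le C0 n0 B (u X) (K X) l9 l6))).trans ?_
    · refine (Nat.pow_le_pow_left l6.le B).trans ?_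
      rw [← pow_mul]
      exact Nat.pow_le_pow_right two_pos ((mul_comm (u X) B).le.trans
        (Nat.mul_le_mul (by omega) (Nat.le_self_pow two_ne_zero (u X))))
    have hK1 : (1 : ℝ) ≤ K X := h1.trans l1
    have k4 : ∏ a, (1 + 1 / ((τ X).pr a : ℝ)) ≤ Real.exp 9 * (K X : ℝ) ^ 3 := by
      refine (prod_one_add_le_exp _ _ fun _ _ => by positivity).trans ?_
      have := sum_prime_inv_le _ (hO X).hp (hO X).inj univ h1 (by exact_mod_cast h3) fun a _ => by
        exact_mod_cast Nat.lt_succ_iff.mp (mem_range.mp (mem_filter.mp a.2).1)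
      refine (Real.exp_le_exp.mpr this).trans ?_
      rw [show 3 * (Real.log (Real.log X) + 3) = 9 + (3 : ℕ) * Real.log (Real.log X) by
        push_cast; ring, Real.exp_add, Real.exp_nat_mul, Real.exp_log hl0]
      gcongr
    have k5 : (((τ X).N : ℕ) : ℝ) + 3 ≤ (2 * t + 5) * K X := by
      have : (u X : ℝ) ≤ (t + 1) * K X := by exact_mod_cast l8
      change ((2 * u X : ℕ) : ℝ) + 3 ≤ _
      push_cast
      linarith
    calc _ ≤ K X * (2 * ((2 * t + 5) * K X) * X / (K X ^ B : ℕ)) *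
          (Real.exp 9 * (K X : ℝ) ^ 3) ^ w := by
          gcongr
          rfl
      _ = 2 * (2 * t + 5) * Real.exp 9 ^ w * (X / K X) := by
          rw [hB]
          push_cast
          field_simp
          ring
      _ ≤ _ := by gcongr
  refine ((a1.add (Sm.sum (univ.filter fun Λ => ¬ ok Λ) _ fun Λ h => a2 Λ (mem_filter.mp h).2)).add
    (Sm.sum (univ.filter fun U : Finset (L × Finset J × Bool) => ok (U.image Prod.fst)) _
      fun U h => a3 U (mem_filter.mp h).2)).mono (Eventually.of_forall fun X => ?_)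
  have k1 := mom_surv_le typ (hO X) ok
  have k2 := mom_card_le (⟨gens, R, sg X, ψ⟩ : S3 L J ℕ) typ M (2 ^ (D * u X ^ 2)) X (2 * u X)
  refine le_trans (Nat.cast_le.mpr (k2.trans (le_of_eq ?_))) k1
  exact congrArg (fun i => (Finset.filter (mom_Sv (τ X) typ) (@univ _ i)).card)
    (Subsingleton.elim _ _)

theorem p_MOM :
    S_MOM := by
  intro L J T _ _ _ typ gens R ψ M E ok lk hψ h1 h2 C0 n0 hR
  have hmax : ∀ X : ℕ, ∃ sg : ℕ → L → J → ℝ, (∀ a l j, |sg a l j| ≤ 1) ∧
      ∀ sg' : ℕ → L → J → ℝ, (∀ a l j, |sg' a l j| ≤ 1) →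
        ((TS T M X).filter (SurvK ⟨gens, R, sg', ψ⟩ typ)).card ≤
          ((TS T M X).filter (SurvK ⟨gens, R, sg, ψ⟩ typ)).card := by
    intro X
    have hb : BddAbove {n | ∃ sg : ℕ → L → J → ℝ, (∀ a l j, |sg a l j| ≤ 1) ∧
        ((TS T M X).filter (SurvK ⟨gens, R, sg, ψ⟩ typ)).card = n} :=
      ⟨(TS T M X).card, fun n ⟨_, _, h⟩ => h ▸ card_filter_le _ _⟩
    obtain ⟨sg, k1, k2⟩ := Nat.sSup_mem (by exact ⟨_, fun _ _ _ => 0, fun _ _ _ => by simp, rfl⟩) hb
    exact ⟨sg, k1, fun sg' h => k2 ▸ le_csSup hb ⟨sg', h, rfl⟩⟩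
  choose sg hsg hm using hmax
  obtain ⟨c, C, c0, -, hC⟩ := mom_fam typ gens R ψ M E ok lk sg hsg hψ h1 h2 C0 n0 hR
  refine ⟨c, C, c0, ?_⟩
  filter_upwards [hC] with X k sg' h using (Nat.cast_le.mpr (hm X sg' h)).trans k

end Pool.Agent.P.MP_ab3ecb_nt.Inv
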