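import Pool.Agent.P.MP_ab3ecb_nt.Inv.C.Iface

/-! Step SEL of the twist project. -/

namespace Pool.Agent.P.MP_ab3ecb_nt.Inv

open Polynomial NumberField IsDedekindDomain TensorProduct Finset Filter Asymptotics
open scoped Classical

section
variable {K : Type} [Field K] [NumberField K]

lemma sel_mul (v : Pl K) {x y : K} (hx : x ≠ 0) (hy : y ≠ 0) :
    WithZero.log (v.valuation K (x * y)) =
      WithZero.log (v.valuation K x) + WithZero.log (v.valuation K y) := by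
  rw [map_mul, WithZero.log_mul (by simpa using hx) (by simpa using hy)]

lemma sel_int (v : Pl K) {r : 𝓞 K} (hr : r ≠ 0) :
    WithZero.log (v.valuation K (r : K)) =
      -((Associates.mk v.asIdeal).count (Associates.mk (Ideal.span {r})).factors : ℤ) := by
  have h := v.valuation_of_algebraMap (K := K) r
  rw [v.intValuation_if_neg hr] at h
  have h2 : v.valuation K (r : K) = _ := h
  rw [h2, WithZero.log_exp]

/-- every nonzero element is an integer times a square -/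
lemma sel_rep {d : K} (hd : d ≠ 0) : ∃ (r : 𝓞 K) (b : K), r ≠ 0 ∧ b ≠ 0 ∧ (r : K) = d * (b * b) := by
  obtain ⟨a, b, hb, rfl⟩ := IsFractionRing.div_surjective (A := 𝓞 K) d
  have hb0 : b ≠ 0 := nonZeroDivisors.ne_zero hb
  have hb1 : (algebraMap (𝓞 K) K b) ≠ 0 := by simpa using hb0
  have ha0 : a ≠ 0 := by
    rintro rfl
    simp at hd
  refine ⟨a * b, algebraMap (𝓞 K) K b, mul_ne_zero ha0 hb0, hb1, ?_⟩
  have : ((a * b : 𝓞 K) : K) = algebraMap (𝓞 K) K a * algebraMap (𝓞 K) K b := map_mul _ _ _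
  rw [this]
  field_simp

lemma sel_od_sq (v : Pl K) {d b : K} (hd : d ≠ 0) (hb : b ≠ 0) : Od v (d * (b * b)) ↔ Od v d := by
  unfold Od
  rw [sel_mul v hd (mul_ne_zero hb hb), sel_mul v hb hb, Int.odd_add, ← two_mul]
  simp

lemma sel_fin {d : K} (hd : d ≠ 0) : {v : Pl K | Od v d}.Finite := by
  obtain ⟨r, b, hr, hb, e⟩ := sel_rep hd
  have hI : (Ideal.span {r} : Ideal (𝓞 K)) ≠ 0 := by simpa using hr
  refine (Filter.eventually_cofinite.mp (Associates.finite_factors hI)).subset fun v hv h0 => ?_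
  have h1 : Od v (d * (b * b)) := (sel_od_sq v hd hb).2 hv
  unfold Od at h1
  rw [← e, sel_int v hr, h0] at h1
  simp at h1

lemma sel_sq {r : 𝓞 K} (hr : r ≠ 0) (h : ∀ v : Pl K, ¬ Od v (r : K)) :
    ∃ I : Ideal (𝓞 K), Ideal.span {r} = I ^ 2 := by
  have hI : (Ideal.span {r} : Ideal (𝓞 K)) ≠ 0 := by simpa using hr
  let c : Pl K → ℕ := fun v =>
    (Associates.mk v.asIdeal).count (Associates.mk (Ideal.span {r})).factors
  have hc : ∀ v, c v / 2 * 2 = c v := fun v => by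
    have h1 := h v
    unfold Od at h1
    rw [sel_int v hr, odd_neg, Int.odd_coe_nat, Nat.not_odd_iff_even] at h1
    exact Nat.div_two_mul_two_of_even h1
  have hf : Function.HasFiniteMulSupport fun v : Pl K => v.asIdeal ^ (c v / 2) := by
    refine (Filter.eventually_cofinite.mp (Associates.finite_factors hI)).subset fun v hv h0 => ?_
    have h1 : c v = 0 := by exact_mod_cast h0
    simp [h1] at hv
  refine ⟨∏ᶠ v : Pl K, v.asIdeal ^ (c v / 2), ?_⟩
  rw [finprod_pow hf, ← Ideal.finprod_heightOneSpectrum_factorization hI]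
  refine finprod_congr fun v => ?_
  rw [← pow_mul, hc]
  rfl

omit [NumberField K] in
lemma sel_cls {x y : Kˣ} {b : K} (hb : b ≠ 0) (h : (x : K) = y * (b * b)) :
    (x : Kˣ ⧸ (powMonoidHom 2 : Kˣ →* Kˣ).range) = y := by
  rw [eq_comm, QuotientGroup.eq]
  refine ⟨Units.mk0 b hb, Units.ext ?_⟩
  simp [h, pow_two]

/-- the image of the units in the group modulo squares -/
noncomputable def sel_u (K : Type) [Field K] [NumberField K] :
    (𝓞 K)ˣ →* Kˣ ⧸ (powMonoidHom 2 : Kˣ →* Kˣ).range :=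
  (QuotientGroup.mk' _).comp (Units.map (algebraMap (𝓞 K) K).toMonoidHom)

lemma sel_u_fin : (Set.range (sel_u K)).Finite := by
  have : Group.FG (𝓞 K)ˣ := Group.fg_iff_monoid_fg.2 inferInstance
  have h : Finite (sel_u K).range := by
    refine CommGroup.finite_of_fg_isMulTorsion _ fun g => ?_
    obtain ⟨_, u, rfl⟩ := g
    refine isOfFinOrder_iff_pow_eq_one.2 ⟨2, by norm_num, Subtype.ext ?_⟩
    have : (sel_u K u) ^ 2 = 1 := by
      rw [← map_pow]
      exact (QuotientGroup.eq_one_iff _).2 ⟨_, by simp; rfl⟩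
    simpa using this
  exact Set.finite_coe_iff.1 h

lemma sel_even : {q : Kˣ ⧸ (powMonoidHom 2 : Kˣ →* Kˣ).range |
    ∃ d : Kˣ, (d : Kˣ ⧸ (powMonoidHom 2 : Kˣ →* Kˣ).range) = q ∧ ∀ v, ¬ Od v (d : K)}.Finite := by
  let A : ClassGroup (𝓞 K) → Set (Kˣ ⧸ (powMonoidHom 2 : Kˣ →* Kˣ).range) := fun c =>
    {q | ∃ (d : Kˣ) (r : 𝓞 K) (I : nonZeroDivisors (Ideal (𝓞 K))), (d : K) = r ∧
      (d : Kˣ ⧸ (powMonoidHom 2 : Kˣ →* Kˣ).range) = q ∧ Ideal.span {r} = (I : Ideal (𝓞 K)) ^ 2 ∧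
      ClassGroup.mk0 I = c}
  have hA : ∀ c, (A c).Finite := by
    intro c
    rcases (A c).eq_empty_or_nonempty with h | ⟨q0, d0, r0, I0, e0, -, h0, k0⟩
    · simp [h]
    refine (sel_u_fin.image fun g => (d0 : Kˣ ⧸ (powMonoidHom 2 : Kˣ →* Kˣ).range) * g).subset ?_
    rintro q ⟨d, r, I, e, rfl, h1, k1⟩
    obtain ⟨s, t, hs, ht, hst⟩ := ClassGroup.mk0_eq_mk0_iff.1 (k0.trans k1.symm)
    have h2 : Ideal.span {s * s * r0} = Ideal.span {t * t * r} := by
      rw [← Ideal.span_singleton_mul_span_singleton, ← Ideal.span_singleton_mul_span_singleton,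
        ← Ideal.span_singleton_mul_span_singleton, ← Ideal.span_singleton_mul_span_singleton, h0, h1,
        ← pow_two, ← pow_two, ← mul_pow, ← mul_pow, hst]
    obtain ⟨u, hu⟩ := Ideal.span_singleton_eq_span_singleton.1 h2
    refine ⟨_, ⟨u, rfl⟩, ?_⟩
    have hs' : (s : K) ≠ 0 := by simpa using hs
    have ht' : (t : K) ≠ 0 := by simpa using ht
    have hu' : (s : K) * s * r0 * ((u : 𝓞 K) : K) = t * t * r := by exact_mod_cast congrArg (fun z : 𝓞 K => (z : K)) hu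
    refine (sel_cls (x := d) (y := d0 * Units.map (algebraMap (𝓞 K) K).toMonoidHom u)
      (b := (s : K) / t) (div_ne_zero hs' ht') ?_).symm
    have e1 : ((d0 * Units.map (algebraMap (𝓞 K) K).toMonoidHom u : Kˣ) : K) =
        r0 * ((u : 𝓞 K) : K) := by
      rw [Units.val_mul, e0]
      rfl
    rw [e1, e]
    field_simp
    linear_combination -hu'
  refine (Set.finite_iUnion hA).subset ?_
  rintro q ⟨d, rfl, hd⟩
  obtain ⟨r, b, hr, hb, e⟩ := sel_rep d.ne_zero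
  obtain ⟨I, hI⟩ := sel_sq hr fun v hv => hd v ((sel_od_sq v d.ne_zero hb).1 (e ▸ hv))
  have hI0 : I ≠ 0 := by
    rintro rfl
    simp [hr] at hI
  have hr' : (r : K) ≠ 0 := by simpa using hr
  exact Set.mem_iUnion.2 ⟨_, Units.mk0 (r : K) hr', r, ⟨I, mem_nonZeroDivisors_of_ne_zero hI0⟩, rfl,
    sel_cls hb e, hI, rfl⟩

lemma sel_bound : ∃ C : ℕ, ∀ S : Set (Pl K), {q : Kˣ ⧸ (powMonoidHom 2 : Kˣ →* Kˣ).range |
    ∃ d : Kˣ, (d : Kˣ ⧸ (powMonoidHom 2 : Kˣ →* Kˣ).range) = q ∧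
      {v | Od v (d : K)} = S}.encard ≤ C := by
  refine ⟨_, fun S => le_trans ?_ (sel_even (K := K)).cast_ncard_eq.ge⟩
  rcases Set.eq_empty_or_nonempty {q : Kˣ ⧸ (powMonoidHom 2 : Kˣ →* Kˣ).range |
    ∃ d : Kˣ, (d : Kˣ ⧸ (powMonoidHom 2 : Kˣ →* Kˣ).range) = q ∧ {v | Od v (d : K)} = S} with
    h | ⟨q0, d0, -, h0⟩
  · simp [h]
  refine Set.encard_le_encard_of_injOn
    (f := fun q => q * (d0 : Kˣ ⧸ (powMonoidHom 2 : Kˣ →* Kˣ).range)) ?_
    fun a _ b _ h => by simpa using congrArg (· * (d0 : Kˣ ⧸ (powMonoidHom 2 : Kˣ →* Kˣ).range)⁻¹) h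
  rintro q ⟨d, rfl, h1⟩
  refine ⟨d * d0, rfl, fun v hv => ?_⟩
  have h2 : Od v (d : K) ↔ Od v (d0 : K) := Set.ext_iff.1 (h1.trans h0.symm) v
  unfold Od at hv h2
  rw [Units.val_mul, sel_mul v d.ne_zero d0.ne_zero, Int.odd_add, h2, ← Int.not_odd_iff_even] at hv
  tauto

lemma sel_ht (d : K) (S : Finset (Pl K)) (h : ∀ v, Od v d ↔ v ∈ S) :
    Ht d = ∏ v ∈ S, Ideal.absNorm v.asIdeal := by
  unfold Ht
  exact finprod_cond_eq_prod_of_cond_iff _ fun {v} _ => h v

end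

theorem p_SEL :
    S_SEL := by
  intro K _ _
  refine ⟨sel_ht, fun d hd => sel_fin hd, fun X => ?_, sel_bound⟩
  obtain ⟨C, hC⟩ := sel_bound (K := K)
  have hP : {v : Pl K | Ideal.absNorm v.asIdeal ≤ X}.Finite :=
    (Ideal.finite_setOfPred_absNorm_le (S := 𝓞 K) X).preimage
      (f := fun v : Pl K => v.asIdeal) fun a _ b _ h => HeightOneSpectrum.ext h
  refine (hP.finite_subsets.biUnion fun S _ => Set.finite_of_encard_le_coe (hC S)).subset ?_
  rintro q ⟨d, rfl, hd⟩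
  refine Set.mem_biUnion (x := {v | Od v (d : K)}) (fun v hv => ?_) ⟨d, rfl, rfl⟩
  have hf := sel_fin d.ne_zero
  rw [sel_ht (d : K) hf.toFinset (by simp)] at hd
  refine le_trans (Finset.single_le_prod' (f := fun v : Pl K => Ideal.absNorm v.asIdeal)
    (fun w _ => ?_) (hf.mem_toFinset.2 hv)) hd
  exact Nat.one_le_iff_ne_zero.2 fun h => w.ne_bot (Ideal.absNorm_eq_zero_iff.1 h)

end Pool.Agent.P.MP_ab3ecb_nt.Inv
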