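import Pool.Agent.P.MP_ab3ecb_nt.Inv.C.Iface

/-! Step SUMJ of the twist project. -/

namespace Pool.Agent.P.MP_ab3ecb_nt.Inv

open Polynomial NumberField IsDedekindDomain TensorProduct Finset Filter Asymptotics
open scoped Classical

lemma sumj_small {E : ℕ → ℝ} (hE : Monotone E) {c : ℝ} (hc : 0 < c) {X n : ℕ} (hn : n ≠ 0)
    (h : n * n ≤ X) (h2 : 2 ≤ X / n) : MT E (X / n) / Real.log (X / n : ℕ) ^ c ≤
      3 * 3 ^ c * (MT E X / Real.log X ^ c) * (n : ℝ) ^ (-(3 / 5) : ℝ) := by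
  have hp := Nat.pos_of_ne_zero hn
  have h1 : n ≤ X / n := (Nat.le_div_iff_mul_le hp).2 h
  have h3 : X < n * (X / n + 1) := Nat.lt_mul_div_succ X hp
  have h4 : ((X / n : ℕ) : ℝ) ≤ X / n := Nat.cast_div_le
  have h5 := Real.exp_le_exp.2 (hE (Nat.div_le_self X n))
  have hX : 2 ≤ X := h2.trans (Nat.div_le_self X n)
  unfold MT
  generalize X / n = Y at *
  have h6 : X ≤ Y ^ 3 := by nlinarith [Nat.mul_le_mul h1 (le_refl (Y + 1)), Nat.mul_le_mul h2 h2]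
  have h7 : 0 < Real.log X := Real.log_pos (by exact_mod_cast hX)
  have h8 : Real.log X / 3 ≤ Real.log Y := by
    have := Real.log_le_log (by positivity) (show (X : ℝ) ≤ (Y : ℝ) ^ 3 by exact_mod_cast h6)
    rw [Real.log_pow] at this
    push_cast at this
    linarith
  have h9 : (n : ℝ)⁻¹ ≤ (n : ℝ) ^ (-(3 / 5) : ℝ) := by
    rw [← Real.rpow_neg_one]
    exact Real.rpow_le_rpow_of_exponent_le (by exact_mod_cast hp) (by norm_num)
  calc _ ≤ X / n / (Real.log X / 3) * Real.exp (E X) / (Real.log X / 3) ^ c := by gcongr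
    _ = 3 * 3 ^ c * (X / Real.log X * Real.exp (E X) / Real.log X ^ c) * (n : ℝ)⁻¹ := by
      rw [Real.div_rpow h7.le (by norm_num)]
      field_simp
    _ ≤ _ := by gcongr

lemma sumj_large {E : ℕ → ℝ} (hE : ∀ X, 0 ≤ E X) {c : ℝ} {X n : ℕ} (h : X < n * n) (hX : 2 ≤ X)
    (hl : Real.log X ^ (1 + c) ≤ (X : ℝ) ^ (11 / 80 : ℝ)) : ((X / n : ℕ) : ℝ) ^ (9 / 8 : ℝ) ≤
      MT E X / Real.log X ^ c * (n : ℝ) ^ (-(3 / 5) : ℝ) := by
  have hn : (0 : ℝ) < n := by exact_mod_cast Nat.pos_of_ne_zero fun e => by simp [e] at h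
  have h0 : (0 : ℝ) < X := by positivity
  have h7 : 0 < Real.log X := Real.log_pos (by exact_mod_cast hX)
  have h1 : (n : ℝ) ^ (-(21 / 40) : ℝ) ≤ (X : ℝ) ^ (-(21 / 80) : ℝ) := by
    rw [show (-(21 / 40) : ℝ) = -(21 / 80) + -(21 / 80) by norm_num, Real.rpow_add hn,
      ← Real.mul_rpow hn.le hn.le]
    exact Real.rpow_le_rpow_of_nonpos h0 (by exact_mod_cast h.le) (by norm_num)
  have h2 : (X : ℝ) ^ (9 / 8 : ℝ) * (X : ℝ) ^ (-(21 / 80) : ℝ) = X / (X : ℝ) ^ (11 / 80 : ℝ) := by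
    rw [← Real.rpow_add h0, eq_div_iff (by positivity), ← Real.rpow_add h0]
    norm_num
  calc _ ≤ (X / n : ℝ) ^ (9 / 8 : ℝ) := by gcongr; exact Nat.cast_div_le
    _ = (X : ℝ) ^ (9 / 8 : ℝ) * (n : ℝ) ^ (-(21 / 40) : ℝ) * (n : ℝ) ^ (-(3 / 5) : ℝ) := by
      rw [Real.div_rpow h0.le hn.le, mul_assoc, ← Real.rpow_add hn, div_eq_mul_inv,
        ← Real.rpow_neg hn.le]
      norm_num
    _ ≤ (X : ℝ) ^ (9 / 8 : ℝ) * (X : ℝ) ^ (-(21 / 80) : ℝ) * (n : ℝ) ^ (-(3 / 5) : ℝ) := by gcongr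
    _ ≤ X / Real.log X ^ (1 + c) * (n : ℝ) ^ (-(3 / 5) : ℝ) := by rw [h2]; gcongr
    _ = X / Real.log X * 1 / Real.log X ^ c * (n : ℝ) ^ (-(3 / 5) : ℝ) := by
      rw [Real.rpow_add h7, Real.rpow_one, mul_one, div_div]
    _ ≤ _ := by
      unfold MT
      gcongr
      exact Real.one_le_exp (hE X)

theorem p_SUMJ :
    S_SUMJ := by
  rintro ι N good g E hN ⟨C0, h0⟩ hE hE0 ⟨C1, h1⟩ ⟨c, C2, hc, h2⟩
  obtain ⟨Y0, h2⟩ := eventually_atTop.1 (h2.and (eventually_ge_atTop 2))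
  refine ⟨c, (|C2| * (3 * 3 ^ c) + |C1|) * C0, hc, ?_⟩
  have h3 := tendsto_natCast_atTop_atTop.eventually
    (isLittleO_log_rpow_rpow_atTop (1 + c) (by norm_num : (0 : ℝ) < 11 / 80)).eventuallyLE
  filter_upwards [h3, eventually_ge_atTop 2, eventually_ge_atTop (Y0 * Y0)] with X h4 h5 h6 W hW
  have h7 : 0 < Real.log X := Real.log_pos (by exact_mod_cast h5)
  rw [Real.norm_of_nonneg (by positivity), Real.norm_of_nonneg (by positivity)] at h4
  have hT : 0 ≤ MT E X / Real.log X ^ c := by unfold MT; positivity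
  have key : ∀ j, g j (X / N j) ≤ (|C2| * (3 * 3 ^ c) + |C1|) * (MT E X / Real.log X ^ c) *
      (N j : ℝ) ^ (-(3 / 5) : ℝ) := fun j => by
    have hp := Nat.pos_of_ne_zero (hN j)
    have hU : 0 ≤ MT E X / Real.log X ^ c * (N j : ℝ) ^ (-(3 / 5) : ℝ) := by positivity
    rcases le_or_gt (N j * N j) X with h | h
    · have h8 : Y0 ≤ X / N j := by
        by_contra h9
        have := Nat.lt_mul_div_succ X hp
        have := (Nat.le_div_iff_mul_le hp).2 h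
        nlinarith [Nat.mul_le_mul (this.trans (not_le.1 h9).le) (Nat.succ_le_of_lt (not_le.1 h9))]
      obtain ⟨h9, h10⟩ := h2 _ h8
      have h11 : 0 ≤ MT E (X / N j) / Real.log (X / N j : ℕ) ^ c := by unfold MT; positivity
      have h12 := mul_le_mul (le_abs_self C2) (sumj_small hE hc (hN j) h h10) h11 (abs_nonneg _)
      nlinarith [h9 j, mul_nonneg (abs_nonneg C1) hU]
    · have h12 := mul_le_mul (le_abs_self C1) (sumj_large hE0 h h5 h4) (by positivity)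
        (abs_nonneg _)
      have h13 : 0 ≤ |C2| * (3 * 3 ^ c) := by positivity
      nlinarith [h1 j (X / N j), mul_nonneg h13 hU]
  calc _ ≤ _ := sum_le_sum fun j _ => key j
    _ ≤ (|C2| * (3 * 3 ^ c) + |C1|) * (MT E X / Real.log X ^ c) * C0 := by
      rw [← mul_sum]
      exact mul_le_mul_of_nonneg_left (h0 W hW) (by positivity)
    _ = _ := by ring

end Pool.Agent.P.MP_ab3ecb_nt.Inv
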