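import Pool.Agent.P.MP_ab3ecb_nt.Inv.C.Iface
import Pool.Agent.P.MP_ab3ecb_nt.Sums

/-! Step TSB of the twist project. -/

namespace Pool.Agent.P.MP_ab3ecb_nt.Inv

open Polynomial NumberField IsDedekindDomain TensorProduct Finset Filter Asymptotics
open scoped Classical

lemma tsb_ne_zero {M Y p : ℕ} (hp : p ∈ Qs M Y) : p ≠ 0 :=
  (mem_filter.mp hp).2.1.ne_zero

theorem p_TSB :
    S_TSB := by
  intro T _
  refine ⟨Real.exp ((Fintype.card T : ℝ) * 9), fun M Y => ?_⟩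
  set A : Finset (ℕ × T) := Qs M Y ×ˢ (univ : Finset T) with hA
  set t : ℕ × T → ℝ := fun z => (z.1 : ℝ) ^ (-(9 / 8) : ℝ) with ht
  have ht0 : ∀ z, 0 ≤ t z := fun z => by positivity
  have h1 : ∀ S ∈ TS T M Y, (1 : ℝ) ≤ (Y : ℝ) ^ (9 / 8 : ℝ) * ∏ z ∈ S, t z := by
    intro S hS
    obtain ⟨hS1, hS2⟩ := mem_filter.mp hS
    have hsub := mem_powerset.mp hS1
    have hpos : 0 < ∏ z ∈ S, z.1 :=
      Finset.prod_pos fun z hz => Nat.pos_of_ne_zero (tsb_ne_zero (mem_product.mp (hsub hz)).1)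
    have hposR : (0 : ℝ) < ((∏ z ∈ S, z.1 : ℕ) : ℝ) := by exact_mod_cast hpos
    have e : ∏ z ∈ S, t z = ((∏ z ∈ S, z.1 : ℕ) : ℝ) ^ (-(9 / 8) : ℝ) := by
      rw [Nat.cast_prod, ← Real.finsetProd_rpow _ _ (fun z _ => by positivity)]
    rw [e, Real.rpow_neg hposR.le, ← div_eq_mul_inv, le_div_iff₀ (by positivity), one_mul]
    exact Real.rpow_le_rpow hposR.le (by exact_mod_cast hS2) (by norm_num)
  have h2 : ∑ z ∈ A, t z ≤ (Fintype.card T : ℝ) * 9 := by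
    rw [hA, Finset.sum_product_right]
    have h3 : ∑ p ∈ Qs M Y, (p : ℝ) ^ (-(9 / 8) : ℝ) ≤ 9 :=
      (sum_rpow_le (σ := 9 / 8) (by norm_num) _ fun n hn => tsb_ne_zero hn).trans (by norm_num)
    calc ∑ τ : T, ∑ p ∈ Qs M Y, t (p, τ) ≤ ∑ _τ : T, (9 : ℝ) :=
          Finset.sum_le_sum fun τ _ => h3
      _ = (Fintype.card T : ℝ) * 9 := by simp
  calc ((TS T M Y).card : ℝ) = ∑ _S ∈ TS T M Y, (1 : ℝ) := by simp
    _ ≤ ∑ S ∈ TS T M Y, (Y : ℝ) ^ (9 / 8 : ℝ) * ∏ z ∈ S, t z := Finset.sum_le_sum h1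
    _ ≤ ∑ S ∈ A.powerset, (Y : ℝ) ^ (9 / 8 : ℝ) * ∏ z ∈ S, t z :=
        Finset.sum_le_sum_of_subset_of_nonneg (filter_subset _ _) fun S _ _ =>
          mul_nonneg (by positivity) (Finset.prod_nonneg fun z _ => ht0 z)
    _ = (Y : ℝ) ^ (9 / 8 : ℝ) * ∏ z ∈ A, (1 + t z) := by
        rw [← Finset.mul_sum, Finset.prod_one_add]
    _ ≤ (Y : ℝ) ^ (9 / 8 : ℝ) * Real.exp ((Fintype.card T : ℝ) * 9) :=
        mul_le_mul_of_nonneg_left ((prod_one_add_le_exp _ _ fun z _ => ht0 z).trans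
          (Real.exp_le_exp.mpr h2)) (by positivity)
    _ = _ := mul_comm _ _

end Pool.Agent.P.MP_ab3ecb_nt.Inv
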