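import Pool.Agent.P.MP_ab3ecb_nt.Inv.Diag
import Pool.Agent.P.MP_ab3ecb_nt.Comb
import Pool.Agent.P.MP_ab3ecb_nt.Dens3

/-! The labels of the moment computation and the two density savings. -/

namespace Pool.Agent.P.MP_ab3ecb_nt.Inv

open Polynomial NumberField IsDedekindDomain TensorProduct Finset Filter Asymptotics Module
open scoped Classical

set_option maxHeartbeats 400000
set_option linter.unusedSectionVars false

lemma count_sign {ι : Type} {S : ι → Prop} {v : ι → ℤ} (h1 : ∀ p, S p → v p * v p = 1)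
    (h2 : ∀ p p', S p → S p' → p ≠ p' → v p * v p' = 1) {p : ι} (hp : S p) :
    v p = if ∃ q, S q ∧ v q = -1 then -1 else 1 := by
  split_ifs with h
  · obtain ⟨q, h3, h4⟩ := h
    by_cases h5 : q = p
    · exact h5 ▸ h4
    · exact (Int.eq_of_mul_eq_one (h2 q p h3 hp h5)).symm.trans h4
  · exact (mul_self_eq_one_iff.mp (h1 p hp)).resolve_right fun h3 => h ⟨p, hp, h3⟩

lemma count_sav {M : ℕ} {r ω : ℕ → ℝ} {Q : ℕ → Prop} (hQ : ∀ p, Q p → p.Prime ∧ ¬ p ∣ M)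
    (hd : Dns Q) {η : ℝ} (hη : 0 < η)
    (h : ∀ p : ℕ, p.Prime → ¬ p ∣ M → ω p ≤ r p ∧ (Q p → ω p ≤ r p - η)) :
    Sav M (fun X => ∑ p ∈ Qs M X, r p / p) ω := by
  obtain ⟨δ, C, hδ, hd⟩ := hd
  refine ⟨η * δ, η * C, by positivity, ?_⟩
  filter_upwards [hd] with X hX
  have e : ∑ p ∈ Qs M X, (if Q p then 1 / (p : ℝ) else 0) =
      ∑ p ∈ (range (X + 1)).filter Q, 1 / (p : ℝ) := by
    rw [← Finset.sum_filter, Qs, Finset.filter_filter]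
    exact Finset.sum_congr (filter_congr fun p _ => ⟨fun h => h.2, fun h => ⟨hQ p h, h⟩⟩)
      fun _ _ => rfl
  have h1 : ∑ p ∈ Qs M X, ω p / p ≤ ∑ p ∈ Qs M X,
      (r p / p - η * if Q p then 1 / (p : ℝ) else 0) := by
    refine Finset.sum_le_sum fun p hp => ?_
    have hp' := (mem_filter.mp hp).2
    have k0 : (0 : ℝ) < p := by exact_mod_cast hp'.1.pos
    split_ifs with k1
    · exact (div_le_div_of_nonneg_right ((h p hp'.1 hp'.2).2 k1) k0.le).trans (le_of_eq (by ring))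
    · exact (div_le_div_of_nonneg_right (h p hp'.1 hp'.2).1 k0.le).trans (le_of_eq (by ring))
  rw [Finset.sum_sub_distrib, ← Finset.mul_sum, e] at h1
  nlinarith [mul_le_mul_of_nonneg_left hX hη.le]

lemma count_ne {Q : ℕ → Prop} (h : Dns Q) : ∃ p, Q p := by
  by_contra h1
  obtain ⟨δ, C, hδ, hd⟩ := h
  obtain ⟨X, k1, k2⟩ := (hd.and (((Real.tendsto_log_atTop.comp tend_log).const_mul_atTop
    hδ).eventually_gt_atTop C)).exists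
  rw [Finset.filter_false_of_mem fun p _ hp => h1 ⟨p, hp⟩, Finset.sum_empty] at k1
  exact absurd k2 (not_lt.2 (sub_nonpos.1 k1))

lemma count_mono {Q Q' : ℕ → Prop} (h : Dns Q) (h' : ∀ p, Q p → Q' p) : Dns Q' := by
  obtain ⟨δ, C, hδ, hd⟩ := h
  refine ⟨δ, C, hδ, hd.mono fun X hX => hX.trans ?_⟩
  exact Finset.sum_le_sum_of_subset_of_nonneg (Finset.monotone_filter_right _ fun p _ => h' p)
    fun _ _ _ => by positivity

lemma count_F1 {O k : Type} [CommRing O] [Field k] {Pz : ℤ[X]} {F0 F1 : O[X]} {M : ℕ}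
    (hP : Pol Pz F0 F1 M) (φ : O →+* k) (hM : (M : k) ≠ 0) {t : k} (ht : F0.eval₂ φ t = 0) :
    F1.eval₂ φ t ≠ 0 := fun h1 => by
  obtain ⟨u, v, h2⟩ := hP.sep
  have h3 := congrArg (fun P => eval₂ φ t (P.map (Int.castRingHom O))) h2
  simp only [Polynomial.map_add, Polynomial.map_mul, ← derivative_map, ← hP.mul, derivative_mul,
    eval₂_add, eval₂_mul, ht, h1, mul_zero, zero_mul, add_zero, map_C, eval₂_C] at h3
  exact hM (by simpa using h3.symm)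

lemma count_unif {E : ℕ → ℝ} {κ ι : Type} [Fintype κ] {g : κ → ι → ℕ → ℝ}
    (h : ∀ ε, ∃ c C : ℝ, 0 < c ∧ ∀ᶠ X : ℕ in atTop, ∀ j,
      g ε j X ≤ C * (MT E X / Real.log X ^ c)) :
    ∃ c C : ℝ, 0 < c ∧ ∀ᶠ X : ℕ in atTop, ∀ j, ∑ ε, g ε j X ≤ C * (MT E X / Real.log X ^ c) := by
  choose c C h1 h2 using h
  obtain ⟨c0, h3, h4⟩ : ∃ c0 : ℝ, 0 < c0 ∧ ∀ ε, c0 ≤ c ε := by
    obtain ⟨c0, h3, h4⟩ := ((eventually_all.mpr fun ε => Ioc_mem_nhdsGT (h1 ε)).and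
      self_mem_nhdsWithin).exists
    exact ⟨c0, h4, fun ε => (h3 ε).2⟩
  refine ⟨c0, ∑ ε, |C ε|, h3, ?_⟩
  filter_upwards [eventually_all.mpr h2, tend_log.eventually_ge_atTop 1] with X k1 k2 j
  have k3 : 0 ≤ MT E X := by unfold MT; positivity
  rw [Finset.sum_mul]
  refine Finset.sum_le_sum fun ε _ => (k1 ε j).trans ?_
  refine (mul_le_mul_of_nonneg_right (le_abs_self _) (by positivity)).trans ?_
  gcongr
  exact h4 ε

variable {K Ω Γ T Y : Type} [Field K] [NumberField K] [Fintype Ω] [Fintype Γ] [Fintype T]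
  [Fintype Y]

lemma count_ext {ix : GP K → T} (hix : ∀ z w, z.1 = w.1 → ix z = ix w → z = w) {β : ℕ → Type}
    (h0 : ∀ p, β p) (g : ∀ z : GP K, β z.1.1) :
    ∃ G : ∀ p, T → β p, ∀ z, G z.1.1 (ix z) = g z := by
  have : ∀ p τ, ∃ x : β p, ∀ z : GP K, ∀ h : z.1.1 = p, ix z = τ → x = h ▸ g z := fun p τ => by
    by_cases h : ∃ z : GP K, z.1.1 = p ∧ ix z = τ
    · obtain ⟨z, rfl, rfl⟩ := h
      refine ⟨g z, fun w h1 h2 => ?_⟩
      obtain rfl := hix w z (Subtype.ext h1) h2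
      rfl
    · exact ⟨h0 p, fun z h1 h2 => absurd ⟨z, h1, h2⟩ h⟩
  choose G hG using this
  exact ⟨G, fun z => hG _ _ z rfl rfl⟩

/-- The labels. -/
abbrev Lb (T Γ Y Ω : Type) := (T × Γ × Y × Finset Ω) × Ω

/-- The labels allowed at the prime `p`. -/
noncomputable def RL (M : ℕ) (κ : GP K → T × Γ × Y × Finset Ω) (p : ℕ) : Finset (Lb T Γ Y Ω) :=
  univ.filter fun l => ∃ z : GP K, z.1.1 = p ∧ ¬ p ∣ M ∧ κ z = l.1 ∧ l.2 ∈ l.1.2.2.2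

lemma mem_RL {M p : ℕ} {κ : GP K → T × Γ × Y × Finset Ω} {l : Lb T Γ Y Ω} : l ∈ RL M κ p ↔
    ∃ z : GP K, z.1.1 = p ∧ ¬ p ∣ M ∧ κ z = l.1 ∧ l.2 ∈ l.1.2.2.2 := by
  simp only [RL, mem_filter, mem_univ, true_and]

/-- The sets of labels that meet at least three branch points. -/
def OkL (M : ℕ) (κ : GP K → T × Γ × Y × Finset Ω) (G : Set (Equiv.Perm Ω))
    (Λ : Finset (Lb T Γ Y Ω)) : Prop :=
  3 ≤ (orb G ((Λ.filter fun l => ∃ p, l ∈ RL M κ p).image Prod.snd)).card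

/-- Linked tests. -/
def LkL (M : ℕ) (κ : GP K → T × Γ × Y × Finset Ω) (G : Set (Equiv.Perm Ω))
    (u v : Lb T Γ Y Ω × Finset Ω × Bool) : Prop :=
  (∃ p, u.1 ∈ RL M κ p) ∧ (∃ p, v.1 ∈ RL M κ p) ∧ Lk G u v

variable {F0 : (𝓞 K)[X]} {M : ℕ} {A : Γ → Type} [∀ σ, CommRing (A σ)]
  {i : ∀ σ, 𝓞 K →+* A σ} {θ : ∀ σ, Ω → A σ} {fix : Γ → Finset Ω} {fr : GP K → Γ}
  {lb : ∀ z : GP K, A (fr z) →+* ZMod z.1.1} {G : Set (Equiv.Perm Ω)} {ix : GP K → T}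
  {ty : GP K → Y} {Φ : GP K → Finset Ω}

lemma TwK.rt (h : TwK F0 M A i θ fix fr lb G) {z : GP K} {c : Ω} (hc : c ∈ fix (fr z)) :
    F0.eval₂ z.2 (lb z (θ _ c)) = 0 := by
  rw [← h.comp z, ← hom_eval₂, h.root _ c hc, map_zero]

lemma count_s1 (h : TwK F0 M A i θ fix fr lb G) (hix : ∀ z w, z.1 = w.1 → ix z = ix w → z = w)
    (hΦ : ∀ z, Φ z ⊆ fix (fr z)) (Λ : Finset (Lb T Γ Y Ω))
    (hΛ : ¬ OkL M (fun z => (ix z, fr z, ty z, Φ z)) G Λ) :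
    Sav M (EK ix (Rt F0 M) M) fun p => (univ.filter fun τ =>
      ∃ l ∈ RL M (fun z => (ix z, fr z, ty z, Φ z)) p, l ∈ Λ ∧ l.1.1 = τ).card := by
  refine count_sav (fun p hp => ⟨hp.1, hp.2.1⟩) (h.quad _ (Nat.lt_succ_iff.mp (not_le.mp hΛ)))
    one_pos fun p _ k2 => ?_
  have k3 : (univ.filter fun τ => ∃ l ∈ RL M (fun z => (ix z, fr z, ty z, Φ z)) p, l ∈ Λ ∧
      l.1.1 = τ) ⊆ univ.filter fun τ : T => ∃ z, Rt F0 M z ∧ z.1.1 = p ∧ ix z = τ := by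
    refine Finset.monotone_filter_right _ ?_
    rintro _ - ⟨⟨l, a⟩, m1, -, rfl⟩
    obtain ⟨z, rfl, -, rfl, m2⟩ := mem_RL.1 m1
    exact ⟨z, ⟨k2, _, h.rt (hΦ z m2)⟩, rfl, rfl⟩
  refine ⟨Nat.cast_le.2 (card_le_card k3), ?_⟩
  rintro ⟨-, -, z, rfl, ⟨c, m1⟩, m2⟩
  rw [le_sub_iff_add_le]
  refine Nat.cast_succ (R := ℝ) _ ▸ Nat.cast_le.2 (card_lt_card ⟨k3, fun m3 => ?_⟩)
  obtain ⟨⟨l, a⟩, m4, m5, m6⟩ := (mem_filter.1 (m3 (mem_filter.2 ⟨mem_univ (ix z), z,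
    ⟨k2, _, h.rt m1⟩, rfl, rfl⟩))).2
  obtain ⟨w, n1, -, rfl, n2⟩ := mem_RL.1 m4
  obtain rfl := hix w z (Subtype.ext n1) m6
  exact Finset.disjoint_left.mp m2 (hΦ w n2)
    (mem_image.2 ⟨_, mem_filter.mpr ⟨m5, _, m4⟩, rfl⟩)

lemma count_s2 (h : TwK F0 M A i θ fix fr lb G) (hix : ∀ z w, z.1 = w.1 → ix z = ix w → z = w)
    (h6 : 6 ≤ Fintype.card Ω) (hΦ : ∀ z, Φ z ⊆ fix (fr z))
    (hsp : Dns fun p => p.Prime ∧ ¬ p ∣ M ∧ ∃ z : GP K, z.1.1 = p ∧ (fix (fr z)).Nonempty ∧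
      (Φ z = univ ∨ Φ z = ∅)) (U : Finset (Lb T Γ Y Ω × Finset Ω × Bool))
    (k1 : OkL M (fun z => (ix z, fr z, ty z, Φ z)) G (U.image Prod.fst))
    (k2 : ∀ u ∈ U, ∀ v ∈ U, ¬ LkL M (fun z => (ix z, fr z, ty z, Φ z)) G u v) :
    Sav M (EK ix (Rt F0 M) M) fun p => ∑ w ∈ U with
      w.1 ∈ RL M (fun z => (ix z, fr z, ty z, Φ z)) p ∧ w.2.1 ⊆ w.1.1.2.2.2.erase w.1.2,
      (1 / 2 : ℝ) ^ ((w.1.1.2.2.2.erase w.1.2).card + 1) := by
  set κ : GP K → T × Γ × Y × Finset Ω := fun z => (ix z, fr z, ty z, Φ z) with hκ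
  refine count_sav (fun p hp => ⟨hp.1, hp.2.1⟩) hsp (η := 1 / 4) (by norm_num) fun p _ k4 => ?_
  set W : T → ℝ := fun τ => ∑ w ∈ (U.filter fun w => w.1 ∈ RL M κ p ∧
    w.2.1 ⊆ w.1.1.2.2.2.erase w.1.2) with w.1.1.1 = τ,
      (1 / 2 : ℝ) ^ ((w.1.1.2.2.2.erase w.1.2).card + 1) with hW
  have a1 : ∀ z : GP K, z.1.1 = p → W (ix z) ≤ 1 ∧ (Φ z = univ → W (ix z) ≤ 3 / 4) ∧
      (Φ z = ∅ → W (ix z) = 0) := fun z hz => by
    obtain ⟨k5, k6⟩ := comb h.one (U.filter fun w => ∃ q, w.1 ∈ RL M κ q) (fun u hu v hv k =>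
      k2 u (mem_filter.mp hu).1 v (mem_filter.mp hv).1
        ⟨(mem_filter.mp hu).2, (mem_filter.mp hv).2, k⟩) (k1.trans (card_le_card fun c hc => by
          simp only [orb, mem_filter, mem_image, mem_univ, true_and] at hc ⊢
          obtain ⟨g, m1, l, ⟨⟨w, m2, rfl⟩, m3⟩, m4⟩ := hc
          exact ⟨g, m1, w, ⟨m2, m3⟩, m4⟩)) (κ z) (Φ z)
    obtain ⟨S, hS, k5, k6⟩ : ∃ S : Finset (Lb T Γ Y Ω × Finset Ω × Bool),
        (∀ w, w ∈ S ↔ (w ∈ U ∧ ∃ q, w.1 ∈ RL M κ q) ∧ w.1.1 = κ z ∧ w.1.2 ∈ Φ z ∧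
          w.2.1 ⊆ (Φ z).erase w.1.2) ∧ S.card ≤ 2 ^ (Φ z).card ∧ (Φ z = univ →
            6 ≤ Fintype.card Ω → 4 * S.card ≤ 3 * 2 ^ (Φ z).card) :=
      ⟨_, fun w => by simp only [mem_filter], k5, k6⟩
    have e : W (ix z) = S.card / 2 ^ (Φ z).card := by
      refine ((Finset.sum_congr (s₂ := S) (Finset.ext fun w => ?_)
        fun w hw => ?_).trans (Finset.sum_const ((1 / 2 : ℝ) ^ (Φ z).card))).trans ?_
      · simp only [hS, mem_filter]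
        constructor
        · rintro ⟨⟨m1, m2, m3⟩, m4⟩
          obtain ⟨z', n1, -, n2, n3⟩ := mem_RL.1 m2
          obtain rfl := hix z' z (Subtype.ext (n1.trans hz.symm))
            ((congrArg Prod.fst n2).trans m4)
          exact ⟨⟨m1, p, m2⟩, n2.symm, by rwa [← n2] at n3, by rwa [← n2] at m3⟩
        · rintro ⟨⟨m1, -⟩, m2, m3, m4⟩
          exact ⟨⟨m1, mem_RL.2 ⟨z, hz, k4, m2.symm, by rwa [m2]⟩, by rwa [m2]⟩, by rw [m2]⟩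
      · obtain ⟨-, m2, m3, -⟩ := (hS w).mp hw
        simp only [m2, hκ]
        rw [Finset.card_erase_add_one m3]
      · rw [nsmul_eq_mul, one_div_pow, mul_one_div]
    rw [e]
    refine ⟨(div_le_one (by positivity)).2 (by exact_mod_cast k5), fun m1 => ?_, fun m1 => ?_⟩
    · have k10 : (4 * S.card : ℝ) ≤ 3 * 2 ^ (Φ z).card := by exact_mod_cast k6 m1 h6
      rw [div_le_iff₀ (by positivity)]
      linarith
    · rw [Finset.eq_empty_of_forall_notMem (s := S) fun w k => by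
        simpa [m1] using ((hS w).mp k).2.2.1]
      simp
  have a2 : ∀ τ, W τ ≤ if ∃ z, Rt F0 M z ∧ z.1.1 = p ∧ ix z = τ then 1 else 0 := fun τ => by
    split_ifs with m1
    · obtain ⟨z, -, m2, rfl⟩ := m1
      exact (a1 z m2).1
    · refine (Finset.sum_eq_zero fun w hw => (m1 ?_).elim).le
      obtain ⟨m2, m3⟩ := mem_filter.1 hw
      obtain ⟨z, rfl, -, n2, n3⟩ := mem_RL.1 (mem_filter.1 m2).2.1
      rw [← n2] at n3 m3
      exact ⟨z, ⟨k4, _, h.rt (hΦ z n3)⟩, rfl, m3⟩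
  rw [← Finset.sum_fiberwise (g := fun w : Lb T Γ Y Ω × Finset Ω × Bool => w.1.1.1), rk,
    Finset.card_filter, Nat.cast_sum]
  simp only [Nat.cast_ite, Nat.cast_one, Nat.cast_zero]
  refine ⟨Finset.sum_le_sum fun τ _ => a2 τ, ?_⟩
  rintro ⟨-, -, z, m1, ⟨c, m2⟩, m3⟩
  have a3 := Finset.single_le_sum (fun τ _ => sub_nonneg.2 (a2 τ)) (mem_univ (ix z))
  rw [Finset.sum_sub_distrib, if_pos ⟨z, ⟨m1 ▸ k4, _, h.rt m2⟩, m1, rfl⟩] at a3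
  have a4 : W (ix z) ≤ 3 / 4 := m3.elim (a1 z m1).2.1 fun m4 => by
    rw [(a1 z m1).2.2 m4]; norm_num
  change ∑ τ, W τ ≤ _
  linarith

end Pool.Agent.P.MP_ab3ecb_nt.Inv
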