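import Pool.Agent.P.MP_ab3ecb_nt.Inv.C.Iface

/-! Step UP of the twist project. -/

namespace Pool.Agent.P.MP_ab3ecb_nt.Inv

open Polynomial NumberField IsDedekindDomain TensorProduct Finset Filter Asymptotics
open scoped Classical

section

variable {K : Type} [Field K] [NumberField K]

lemma up_norm (z : GP K) : Ideal.absNorm z.pl.asIdeal = z.1.1 :=
  (Nat.card_congr (RingHom.quotientKerEquivOfSurjective
    (ZMod.ringHom_surjective z.2)).toEquiv).trans (Nat.card_zmod _)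

lemma up_mem (z : GP K) (n : ℕ) : (n : 𝓞 K) ∈ z.pl.asIdeal ↔ z.1.1 ∣ n := by
  rw [GP.mem_pl, map_natCast, ZMod.natCast_eq_zero_iff]

lemma up_inj : Function.Injective (GP.pl : GP K → Pl K) := by
  rintro ⟨p, f⟩ ⟨q, g⟩ h
  obtain rfl : p = q := Subtype.ext ((up_norm ⟨p, f⟩).symm.trans (h ▸ up_norm ⟨q, g⟩))
  rw [ZMod.ringHom_eq_of_ker_eq f g (congrArg HeightOneSpectrum.asIdeal h)]

lemma up_ne (v : Pl K) : Ideal.absNorm v.asIdeal ≠ 0 := fun h =>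
  v.ne_bot (Ideal.absNorm_eq_zero_iff.1 h)

lemma up_exists (v : Pl K) {p : ℕ} (hp : p.Prime) (h : Ideal.absNorm v.asIdeal = p) :
    ∃ z : GP K, z.pl = v ∧ z.1.1 = p := by
  have : Finite (𝓞 K ⧸ v.asIdeal) := (Ideal.absNorm_ne_zero_iff _).mp (up_ne v)
  let := Fintype.ofFinite (𝓞 K ⧸ v.asIdeal)
  have hc : Fintype.card (𝓞 K ⧸ v.asIdeal) = p := by
    rw [← Nat.card_eq_fintype_card, ← h]
    rfl
  refine ⟨⟨⟨p, hp⟩, (ZMod.ringEquivOfPrime _ hp hc).symm.toRingHom.comp (Ideal.Quotient.mk _)⟩,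
    HeightOneSpectrum.ext ?_, rfl⟩
  ext z
  simp [GP.mem_pl, Ideal.Quotient.eq_zero_iff_mem]

lemma up_pow (v : Pl K) {p : ℕ} (hp : p.Prime) (h : (p : 𝓞 K) ∈ v.asIdeal) :
    p ∣ Ideal.absNorm v.asIdeal ∧
      (Ideal.absNorm v.asIdeal = p ∨ p ^ 2 ∣ Ideal.absNorm v.asIdeal) := by
  have h1 := Ideal.absNorm_dvd_absNorm_of_le ((Ideal.span_singleton_le_iff_mem _).2 h)
  rw [Ideal.absNorm_span_natCast] at h1
  obtain ⟨f, -, hf⟩ := (Nat.dvd_prime_pow hp).1 h1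
  rcases f with _ | _ | f
  · exact absurd (Ideal.absNorm_eq_one_iff.1 hf) v.isPrime.ne_top
  · rw [hf]
    simp
  · rw [hf]
    exact ⟨dvd_pow_self p (by omega), Or.inr (pow_dvd_pow p (by omega))⟩

lemma up_dec (M : ℕ) (d : K) (S : Finset (Pl K)) (hS : ∀ v, Od v d ↔ v ∈ S) :
    ∃ s J, Dec M d s J ∧ (∀ v ∈ J, ∀ p : ℕ, p.Prime → (p : 𝓞 K) ∈ v.asIdeal →
      p ^ 2 ∣ ∏ v ∈ J, Ideal.absNorm v.asIdeal) ∧
      (∏ z ∈ s, z.1.1) * ∏ v ∈ J, Ideal.absNorm v.asIdeal ≤ ∏ v ∈ S, Ideal.absNorm v.asIdeal := by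
  obtain ⟨S', hS'⟩ : ∃ S', S' = S.filter fun v => (M : 𝓞 K) ∉ v.asIdeal := ⟨_, rfl⟩
  have m1 : ∀ v, v ∈ S' ↔ v ∈ S ∧ (M : 𝓞 K) ∉ v.asIdeal := fun v => by rw [hS', mem_filter]
  obtain ⟨s, hs⟩ : ∃ s : Finset (GP K), ∀ z, z ∈ s ↔ z.pl ∈ S' ∧
      ∀ v ∈ S', ((z.1.1 : ℕ) : 𝓞 K) ∈ v.asIdeal → v = z.pl :=
    ⟨(S'.preimage GP.pl up_inj.injOn).filter fun z =>
      ∀ v ∈ S', ((z.1.1 : ℕ) : 𝓞 K) ∈ v.asIdeal → v = z.pl,
      fun z => by rw [mem_filter, mem_preimage]⟩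
  have m2 : ∀ v, v ∈ S' \ s.image GP.pl ↔ v ∈ S' ∧ ¬ ∃ z ∈ s, z.pl = v := fun v => by
    rw [Finset.mem_sdiff, mem_image]
  refine ⟨s, S' \ s.image GP.pl, ⟨fun v hv => ?_, fun z hz w hw e => ?_, fun z hz e => ?_,
    fun v hv => ⟨((m1 v).1 ((m2 v).1 hv).1).2, fun z hz e => ?_⟩⟩, fun v hv p hp e => ?_, ?_⟩
  · rw [hS, m2]
    constructor
    · intro h
      by_cases e : ∃ z ∈ s, z.pl = v
      exacts [Or.inr e, Or.inl ⟨(m1 v).2 ⟨h, hv⟩, e⟩]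
    · rintro (h | ⟨z, hz, rfl⟩)
      exacts [((m1 v).1 h.1).1, ((m1 _).1 ((hs z).1 hz).1).1]
  · exact (up_inj (((hs z).1 hz).2 _ ((hs w).1 hw).1 ((up_mem w _).2 (e ▸ dvd_rfl)))).symm
  · exact ((m1 _).1 ((hs z).1 hz).1).2 ((up_mem z M).2 e)
  · exact ((m2 v).1 hv).2 ⟨z, hz, (((hs z).1 hz).2 v ((m2 v).1 hv).1 e).symm⟩
  · obtain ⟨h1, h2 | h2⟩ := up_pow v hp e
    · obtain ⟨z, rfl, rfl⟩ := up_exists v hp h2
      have h3 : z ∉ s := fun h => ((m2 _).1 hv).2 ⟨z, h, rfl⟩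
      rw [hs, not_and] at h3
      have h4 := h3 ((m2 _).1 hv).1
      push Not at h4
      obtain ⟨u, hu, h5, h6⟩ := h4
      have h7 : u ∈ S' \ s.image GP.pl := (m2 u).2 ⟨hu, by
        rintro ⟨w, hw, rfl⟩
        have h8 := (Nat.prime_dvd_prime_iff_eq w.1.2 hp).1 ((up_mem w _).1 h5)
        exact h6 (((hs w).1 hw).2 _ ((m2 _).1 hv).1 (h8 ▸ e)).symm⟩
      refine Dvd.dvd.trans ?_ (prod_dvd_prod_of_subset {u, z.pl} _ _ ?_)
      · rw [prod_pair h6, sq]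
        exact mul_dvd_mul (up_pow u hp h5).1 h1
      · rw [insert_subset_iff, singleton_subset_iff]
        exact ⟨h7, hv⟩
    · exact h2.trans (dvd_prod_of_mem _ hv)
  · have h1 : s.image GP.pl ⊆ S' := fun v hv => by
      obtain ⟨z, hz, rfl⟩ := mem_image.1 hv
      exact ((hs z).1 hz).1
    rw [← prod_congr rfl fun z _ => up_norm z,
      ← prod_image (f := fun v : Pl K => Ideal.absNorm v.asIdeal) up_inj.injOn, mul_comm,
      prod_sdiff h1]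
    exact prod_le_prod_of_subset_of_one_le' (hS' ▸ filter_subset _ _)
      fun v _ _ => Nat.one_le_iff_ne_zero.2 (up_ne v)

lemma up_Nj (J : Finset (Pl K)) (a : Pl K → 𝓞 K) :
    Nj (jd J a) = ∏ v ∈ J, Ideal.absNorm v.asIdeal :=
  prod_image fun _ _ _ _ h => congrArg Sigma.fst h

end

theorem p_UP (hSEL : S_SEL) (hJSUM : S_JSUM) (hTSB : S_TSB) (hSUMJ : S_SUMJ) :
    S_UP := by
  intro K T _ _ _ ix hix F0 M E p Sv hF hM hE hE0 hp hb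
  obtain ⟨s1, s2, s3, C, s4⟩ := hSEL K
  have hN : ∀ j : Finset (Σ v : Pl K, 𝓞 K ⧸ v.asIdeal), Nj j ≠ 0 := fun j =>
    prod_ne_zero_iff.2 fun x _ => up_ne x.1
  obtain ⟨c, C', hc, hs⟩ := hSUMJ _ Nj (JD F0) (fun j Y => ((TS T M Y).filter (Sv j)).card) E hN
    (hJSUM K F0 hF) hE hE0 ((hTSB T).imp fun C h j Y =>
      (Nat.cast_le.2 (card_filter_le _ _)).trans (h M Y)) hb
  obtain ⟨PM, hPM⟩ : ∃ PM : Finset (Pl K), ∀ v, v ∈ PM ↔ (M : 𝓞 K) ∈ v.asIdeal :=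
    ⟨(Ideal.finite_factors (I := Ideal.span {(M : 𝓞 K)}) (by simpa using hM)).toFinset,
      fun v => by simp⟩
  refine ⟨c, hc, IsBigO.of_bound (C * 2 ^ PM.card * |C'|) (hs.mono fun X hX => ?_)⟩
  have key : ∀ q : Kˣ ⧸ (powMonoidHom 2 : Kˣ →* Kˣ).range,
      (∃ d : Kˣ, (d : Kˣ ⧸ (powMonoidHom 2 : Kˣ →* Kˣ).range) = q ∧ Ht (d : K) ≤ X ∧ p d) →
      ∃ (A : Finset (Pl K)) (j : Finset (Σ v : Pl K, 𝓞 K ⧸ v.asIdeal)) (g : Finset (ℕ × T)),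
        A ⊆ PM ∧ JD F0 j ∧ g ∈ (TS T M (X / Nj j)).filter (Sv j) ∧
        ∃ d : Kˣ, (d : Kˣ ⧸ (powMonoidHom 2 : Kˣ →* Kˣ).range) = q ∧ {v | Od v (d : K)} =
          {v | v ∈ A ∨ (∃ x ∈ j, x.1 = v) ∨ ∃ z : GP K, z.pl = v ∧ (z.1.1, ix z) ∈ g} := by
    rintro q ⟨d, h1, h2, h3⟩
    have hS : ∀ v, Od v (d : K) ↔ v ∈ (s2 d d.ne_zero).toFinset := fun v => by simp
    obtain ⟨s, J, hD, h4, h5⟩ := up_dec M _ _ hS
    obtain ⟨a, h6, h7⟩ := hp d d.ne_zero h3 s J hD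
    have hi : ∀ z w : GP K, (z.1.1, ix z) = (w.1.1, ix w) → z = w := fun z w e =>
      hix z w (Subtype.ext (congrArg Prod.fst e)) (congrArg Prod.snd e)
    have h8 : ∏ z ∈ s, z.1.1 ≤ X / Nj (jd J a) := by
      rw [Nat.le_div_iff_mul_le (Nat.pos_of_ne_zero (hN _)), up_Nj]
      exact h5.trans ((s1 _ _ hS).symm.le.trans h2)
    refine ⟨PM.filter fun v => Od v (d : K), jd J a, gd ix s, filter_subset _ _, fun x hx => ?_,
      mem_filter.2 ⟨mem_filter.2 ⟨mem_powerset.2 fun y hy => ?_, ?_⟩, h7⟩, d, h1, ?_⟩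
    · obtain ⟨v, hv, rfl⟩ := mem_image.1 hx
      refine ⟨?_, fun r hr e => up_Nj J a ▸ h4 v hv r hr e⟩
      rw [eval₂_at_apply, Ideal.Quotient.eq_zero_iff_mem]
      exact h6 v hv
    · obtain ⟨z, hz, rfl⟩ := mem_image.1 hy
      refine mem_product.2 ⟨mem_filter.2 ⟨mem_range.2 (Nat.lt_succ_of_le ?_), z.1.2,
        hD.good z hz⟩, mem_univ _⟩
      exact (single_le_prod' (f := fun z : GP K => z.1.1) (fun w _ => w.1.2.one_le) hz).trans h8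
    · rw [gd, prod_image fun z _ w _ e => hi z w e]
      exact h8
    · have e1 : ∀ v, (∃ x ∈ jd J a, x.1 = v) ↔ v ∈ J := fun v =>
        ⟨fun ⟨x, hx, e⟩ => by
          obtain ⟨u, hu, rfl⟩ := mem_image.1 hx
          exact e ▸ hu, fun h => ⟨_, mem_image_of_mem _ h, rfl⟩⟩
      have e2 : ∀ z, (z.1.1, ix z) ∈ gd ix s ↔ z ∈ s := fun z =>
        ⟨fun h => by
          obtain ⟨w, hw, e⟩ := mem_image.1 h
          exact hi w z e ▸ hw, fun h => mem_image_of_mem _ h⟩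
      ext v
      simp only [Set.mem_ofPred_eq, mem_filter, hPM, e1, e2]
      constructor
      · intro h
        by_cases e : (M : 𝓞 K) ∈ v.asIdeal
        · exact Or.inl ⟨e, h⟩
        · exact Or.inr (((hD.od v e).1 h).imp_right fun ⟨z, a, b⟩ => ⟨z, b, a⟩)
      · rintro (h | h | ⟨z, rfl, h⟩)
        · exact h.2
        · exact (hD.od v (hD.junk v h).1).2 (Or.inl h)
        · exact (hD.od _ fun e => hD.good z h ((up_mem z M).1 e)).2 (Or.inr ⟨z, h, rfl⟩)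
  choose! A j g k1 k2 k3 k4 using key
  have hQ : {q : Kˣ ⧸ (powMonoidHom 2 : Kˣ →* Kˣ).range | ∃ d : Kˣ,
      (d : Kˣ ⧸ (powMonoidHom 2 : Kˣ →* Kˣ).range) = q ∧ Ht (d : K) ≤ X ∧ p d}.Finite :=
    (s3 X).subset fun q ⟨d, h1, h2, _⟩ => ⟨d, h1, h2⟩
  have h1 := card_le_mul_card_image_of_maps_to (s := hQ.toFinset)
    (f := fun q => (A q, (⟨j q, g q⟩ : Σ _ : Finset (Σ v : Pl K, 𝓞 K ⧸ v.asIdeal), Finset (ℕ × T))))
    (t := PM.powerset ×ˢ (hQ.toFinset.image j).sigma fun j => (TS T M (X / Nj j)).filter (Sv j))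
    (fun q hq => mem_product.2 ⟨mem_powerset.2 (k1 q (hQ.mem_toFinset.1 hq)),
      mem_sigma.2 ⟨mem_image_of_mem _ hq, k3 q (hQ.mem_toFinset.1 hq)⟩⟩) C fun b _ => by
      have h2 := s4 {v | v ∈ b.1 ∨ (∃ x ∈ b.2.1, x.1 = v) ∨
        ∃ z : GP K, z.pl = v ∧ (z.1.1, ix z) ∈ b.2.2}
      rw [← Nat.cast_le (α := ℕ∞), ← Set.encard_coe_eq_coe_finsetCard]
      refine (Set.encard_le_encard fun q hq => ?_).trans h2
      obtain ⟨hq', rfl⟩ := mem_filter.1 hq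
      exact k4 q (hQ.mem_toFinset.1 hq')
  rw [card_product, card_powerset, card_sigma, ← Set.ncard_eq_toFinset_card _ hQ] at h1
  have h2 := hX (hQ.toFinset.image j) fun x hx => by
    obtain ⟨q, hq, rfl⟩ := mem_image.1 hx
    exact k2 q (hQ.mem_toFinset.1 hq)
  have h3 : (Cnt p X : ℝ) ≤ C * (2 ^ PM.card * ∑ x ∈ hQ.toFinset.image j,
      (((TS T M (X / Nj x)).filter (Sv x)).card : ℝ)) := by exact_mod_cast h1
  rw [Real.norm_natCast, Real.norm_eq_abs, mul_assoc, mul_assoc, ← abs_mul]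
  refine h3.trans ?_
  gcongr
  exact h2.trans (le_abs_self _)

end Pool.Agent.P.MP_ab3ecb_nt.Inv
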